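import Pool.Agent.V5helper21.Mor.Disc

/-!
# The behaviour at infinity of second differences in directions of a fixed product

`f` is separately convex with `f(x, y) / x → A(y)` as `x → ∞`.  If all the second differences of
`f` with steps `(a, β)`, `a β = τ`, are at least `θ`, then `θ ≤ 2 τ A'`.
-/

set_option autoImplicit false

open Set Filter Topology Finset

namespace Pool.Agent.V5helper21.Mor

theorem slope_le_lim {g : ℝ → ℝ} {G : ℝ} (hg : ConvexOn ℝ Set.univ g)
    (hG : Tendsto (fun x => g x / x) atTop (𝓝 G)) {x x' : ℝ} (h : x ≤ x') :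
    g x' - g x ≤ G * (x' - x) := by
  rcases eq_or_lt_of_le h with h | h
  · rw [h]
    simp
  · have h1 : Tendsto (fun X => (g X - g x) / (X - x)) atTop (𝓝 G) := by
      have a1 : Tendsto (fun X : ℝ => g x / X) atTop (𝓝 0) := tendsto_const_nhds.div_atTop tendsto_id
      have a2 : Tendsto (fun X : ℝ => x / X) atTop (𝓝 0) := tendsto_const_nhds.div_atTop tendsto_id
      have a3 := (hG.sub a1).div (tendsto_const_nhds.sub a2 : Tendsto (fun X : ℝ => 1 - x / X)
        atTop (𝓝 (1 - 0))) (by norm_num)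
      rw [sub_zero, sub_zero, div_one] at a3
      refine a3.congr' ?_
      filter_upwards [eventually_gt_atTop 0, eventually_gt_atTop x] with X hX hX'
      have : X - x ≠ 0 := by linarith
      simp only [Pi.div_apply]
      field_simp
    have h2 : (g x' - g x) / (x' - x) ≤ G := by
      refine ge_of_tendsto h1 ?_
      filter_upwards [eventually_ge_atTop x'] with X hX
      have := hg.secant_mono (a := x) (x := x') (y := X) (mem_univ _) (mem_univ _) (mem_univ _)
        (by linarith) (by linarith) hX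
      exact this
    rwa [div_le_iff₀ (by linarith)] at h2

theorem incr_mono {g : ℝ → ℝ} (hg : ConvexOn ℝ Set.univ g) {x x' : ℝ} (h : x ≤ x') :
    g (x + 1) - g x ≤ g (x' + 1) - g x' := by
  obtain ⟨c, hc⟩ := subgrad hg (x' : ℝ)
  -- use the slopes through the four points
  rcases eq_or_lt_of_le h with h | h
  · rw [h]
  · have h1 := hg.secant_mono (a := x) (x := x + 1) (y := x' + 1) (mem_univ _) (mem_univ _)
      (mem_univ _) (by linarith) (by linarith) (by linarith)
    have h2 := hg.secant_mono (a := x' + 1) (x := x) (y := x') (mem_univ _) (mem_univ _)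
      (mem_univ _) (by linarith) (by linarith) (by linarith)
    have e1 : x + 1 - x = 1 := by ring
    have e2 : x' - (x' + 1) = -1 := by ring
    rw [e1, div_one] at h1
    rw [e2, div_neg, div_one, neg_sub] at h2
    have e3 : (g (x' + 1) - g x) / (x' + 1 - x) = (g x - g (x' + 1)) / (x - (x' + 1)) := by
      rw [← neg_sub (g x), ← neg_sub x, neg_div_neg_eq]
    linarith

theorem incr_tendsto {g : ℝ → ℝ} {G : ℝ} (hg : ConvexOn ℝ Set.univ g)
    (hG : Tendsto (fun x => g x / x) atTop (𝓝 G)) :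
    Tendsto (fun n : ℕ => g ((n : ℝ) + 1) - g n) atTop (𝓝 G) := by
  have h1 : Tendsto (fun n : ℕ => (g ((n : ℝ) + 1) - g 0) / ((n : ℝ) + 1)) atTop (𝓝 G) := by
    have a0 : Tendsto (fun n : ℕ => (n : ℝ) + 1) atTop atTop :=
      tendsto_atTop_add_const_right _ _ tendsto_natCast_atTop_atTop
    have a1 := hG.comp a0
    have a2 : Tendsto (fun n : ℕ => g 0 / ((n : ℝ) + 1)) atTop (𝓝 0) :=
      tendsto_const_nhds.div_atTop a0
    have a3 := a1.sub a2
    rw [sub_zero] at a3
    refine a3.congr fun n => ?_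
    simp only [Function.comp_apply]
    rw [sub_div]
  refine tendsto_of_tendsto_of_tendsto_of_le_of_le h1 tendsto_const_nhds (fun n => ?_) fun n => ?_
  · simp only
    rw [div_le_iff₀ (by positivity)]
    have key : ∀ k : ℕ, k ≤ n + 1 → g k - g 0 ≤ (g ((n : ℝ) + 1) - g n) * k := by
      intro k
      induction k with
      | zero => simp
      | succ k ih =>
        intro hk
        have h2 := ih (by omega)
        have h3 : (k : ℝ) ≤ n := by
          have : k ≤ n := by omega
          exact_mod_cast this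
        have h4 := incr_mono hg h3
        push_cast
        linarith
    have := key (n + 1) le_rfl
    push_cast at this
    exact this
  · have := slope_le_lim hg hG (x := n) (x' := (n : ℝ) + 1) (by linarith)
    simpa using this

section

variable {f : ℝ → ℝ → ℝ} {A : ℝ → ℝ}
  (hx : ∀ y, ConvexOn ℝ Set.univ fun x => f x y)
  (hy : ∀ x, ConvexOn ℝ Set.univ (f x))
  (hA : ∀ y, Tendsto (fun x => f x y / x) atTop (𝓝 (A y)))
include hy hA

theorem lim_convex : ConvexOn ℝ Set.univ A := by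
  refine ⟨convex_univ, fun y _ z _ a b ha hb hab => ?_⟩
  simp only [smul_eq_mul]
  refine le_of_tendsto_of_tendsto (hA (a * y + b * z)) (((hA y).const_mul a).add
    ((hA z).const_mul b)) ?_
  filter_upwards [eventually_gt_atTop 0] with X hX
  have h1 := (hy X).2 (mem_univ y) (mem_univ z) ha hb hab
  simp only [smul_eq_mul] at h1
  have e : a * (f X y / X) + b * (f X z / X) = (a * f X y + b * f X z) / X := by ring
  rw [e]
  exact (div_le_div_iff_of_pos_right hX).2 h1

include hx

/-- uniform convergence of the slopes -/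
theorem unif {y y' : ℝ} {ε : ℝ} (hε : 0 < ε) : ∃ N : ℕ, ∀ n : ℕ, N ≤ n → ∀ η ∈ Set.Icc y y',
    ∀ x x' : ℝ, (n : ℝ) + 1 ≤ x → x ≤ x' → (A η - ε) * (x' - x) ≤ f x' η - f x η := by
  have hAc : Continuous A :=
    continuousOn_univ.1 ((lim_convex hy hA).continuousOn isOpen_univ)
  have hfc : ∀ x, Continuous (f x) := fun x => continuousOn_univ.1 ((hy x).continuousOn isOpen_univ)
  have hu : TendstoUniformlyOn (fun (n : ℕ) η => f ((n : ℝ) + 1) η - f n η) A atTop
      (Set.Icc y y') := by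
    refine Monotone.tendstoUniformlyOn_of_forall_tendsto isCompact_Icc
      (fun n => ((hfc _).sub (hfc _)).continuousOn) (fun η _ n m hnm => ?_) hAc.continuousOn
      fun η _ => incr_tendsto (hx η) (hA η)
    exact incr_mono (hx η) (by exact_mod_cast hnm)
  rw [Metric.tendstoUniformlyOn_iff] at hu
  obtain ⟨N, hN⟩ := eventually_atTop.1 (hu ε hε)
  refine ⟨N, fun n hn η hη x x' h1 h2 => ?_⟩
  have h3 := hN n hn η hη
  rw [Real.dist_eq, abs_lt] at h3
  rcases eq_or_lt_of_le h2 with h | h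
  · rw [h]
    simp
  · have h4 : f ((n : ℝ) + 1) η - f n η ≤ (f x' η - f x η) / (x' - x) := by
      have a1 := (hx η).secant_mono (a := (n : ℝ)) (x := (n : ℝ) + 1) (y := x') (mem_univ _)
        (mem_univ _) (mem_univ _) (by linarith) (by linarith) (by linarith)
      have a2 := (hx η).secant_mono (a := x') (x := (n : ℝ)) (y := x) (mem_univ _)
        (mem_univ _) (mem_univ _) (by linarith) (by linarith) (by linarith)
      have e1 : (n : ℝ) + 1 - n = 1 := by ring
      rw [e1, div_one] at a1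
      have e3 : (f x' η - f n η) / (x' - n) = (f n η - f x' η) / (n - x') := by
        rw [← neg_sub (f n η), ← neg_sub (n : ℝ), neg_div_neg_eq]
      have e4 : (f x η - f x' η) / (x - x') = (f x' η - f x η) / (x' - x) := by
        rw [← neg_sub (f x' η), ← neg_sub x', neg_div_neg_eq]
      linarith
    rw [le_div_iff₀ (by linarith)] at h4
    nlinarith

/-- The main step. -/
theorem blow_step {θ τ : ℝ} (hτ : 0 < τ)
    (h : ∀ x y a β, 0 < a → 0 < β → a * β = τ →
      θ ≤ f (x + a) (y + β) + f (x - a) (y - β) - 2 * f x y)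
    {y y' : ℝ} (hyy : y < y') : ∃ C : ℝ, 0 ≤ C ∧ ∀ ε : ℝ, 0 < ε → ∀ Λ : ℕ, 1 ≤ Λ → ∃ N : ℕ,
      ∀ K : ℕ, N ≤ K → 1 ≤ K → θ ≤ ε * (τ * Λ / (y' - y)) + 2 * (τ / (y' - y)) * (A y' - A y + ε)
        + C * ((y' - y) * (2 + K) / (Λ * K) ^ 2 + (K + 1) * τ / (Λ * K)) := by
  set r := y' - y with hr
  have hr0 : 0 < r := by linarith
  -- linear bound
  obtain ⟨C, hC0, hC⟩ : ∃ C : ℝ, 0 ≤ C ∧ ∀ z : ℝ, 0 ≤ z →
      f z (y' + 1) - f z y' - f z y + f z (y - 1) ≤ C * (1 + z) := by
    have up : ∀ η z : ℝ, 0 ≤ z → f z η ≤ |f 0 η| + |A η| * z := by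
      intro η z hz
      have h1 := slope_le_lim (hx η) (hA η) hz
      rw [sub_zero] at h1
      have h2 := mul_le_mul_of_nonneg_right (le_abs_self (A η)) hz
      linarith [le_abs_self (f 0 η)]
    have lo : ∀ η : ℝ, ∃ c : ℝ, ∀ z : ℝ, 0 ≤ z → -(|f 0 η| + |c| * z) ≤ f z η := by
      intro η
      obtain ⟨c, hc⟩ := subgrad (hx η) 0
      refine ⟨c, fun z hz => ?_⟩
      have h1 := hc z
      rw [sub_zero] at h1
      have h2 := mul_le_mul_of_nonneg_right (neg_abs_le c) hz
      linarith [neg_abs_le (f 0 η)]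
    obtain ⟨c1, hc1⟩ := lo y'
    obtain ⟨c2, hc2⟩ := lo y
    refine ⟨|f 0 (y' + 1)| + |A (y' + 1)| + |f 0 y'| + |c1| + |f 0 y| + |c2| + |f 0 (y - 1)|
      + |A (y - 1)|, by positivity, fun z hz => ?_⟩
    have b1 := up (y' + 1) z hz
    have b2 := hc1 z hz
    have b3 := hc2 z hz
    have b4 := up (y - 1) z hz
    have p1 : 0 ≤ |f 0 (y' + 1)| * z := by positivity
    have p2 : 0 ≤ |f 0 y'| * z := by positivity
    have p3 : 0 ≤ |f 0 y| * z := by positivity
    have p4 : 0 ≤ |f 0 (y - 1)| * z := by positivity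
    have p5 := abs_nonneg (A (y' + 1))
    have p6 := abs_nonneg c1
    have p7 := abs_nonneg c2
    have p8 := abs_nonneg (A (y - 1))
    nlinarith
  refine ⟨C, hC0, fun ε hε Λ hΛ => ?_⟩
  obtain ⟨N, hN⟩ := unif hx hy hA (y := y) (y' := y') hε
  obtain ⟨N', hN'⟩ := exists_nat_ge r
  refine ⟨max N N', fun K hK hK1 => ?_⟩
  have hKN : N ≤ K := (le_max_left _ _).trans hK
  have hKN' : (N' : ℝ) ≤ K := by exact_mod_cast (le_max_right _ _).trans hK
  have hKp : (0 : ℝ) < K := by exact_mod_cast hK1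
  have hΛp : (0 : ℝ) < Λ := by exact_mod_cast hΛ
  have hΛ1 : (1 : ℝ) ≤ Λ := by exact_mod_cast hΛ
  set m : ℕ := Λ * K with hm
  have hmc : (m : ℝ) = Λ * K := by rw [hm]; push_cast; ring
  have hmp : (0 : ℝ) < m := by rw [hmc]; positivity
  set β : ℝ := r / m with hβ
  have hβ0 : 0 < β := div_pos hr0 hmp
  have hβ1 : β ≤ 1 := by
    rw [hβ, div_le_one hmp, hmc]
    nlinarith
  set a : ℝ := τ / β with ha
  have ha0 : 0 < a := div_pos hτ hβ0
  have haβ : a * β = τ := div_mul_cancel₀ _ hβ0.ne'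
  have hmβ : m * β = r := mul_div_cancel₀ _ hmp.ne'
  set Y : ℕ → ℝ := fun n => y + n * β with hY
  have hY0 : Y 0 = y := by simp [hY]
  have hYm : Y m = y' := by simp only [hY]; rw [hmβ]; linarith
  have hY1 : Y 1 = y + β := by simp [hY]
  have hYm1 : Y (m + 1) = y' + β := by
    simp only [hY]
    push_cast
    rw [add_mul, hmβ]
    linarith
  have hYs : ∀ n, Y (n + 1) + β = Y (n + 2) := fun n => by simp only [hY]; push_cast; ring
  have hYd : ∀ n, Y (n + 1) - β = Y n := fun n => by simp only [hY]; push_cast; ring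
  have hYI : ∀ n, n < m → Y (n + 1) ∈ Set.Icc y y' := by
    intro n hn
    refine ⟨?_, ?_⟩
    · simp only [hY]
      have : (0 : ℝ) ≤ ((n + 1 : ℕ) : ℝ) * β := by positivity
      linarith
    · rw [← hYm]
      simp only [hY]
      have h1 : ((n + 1 : ℕ) : ℝ) ≤ m := by exact_mod_cast hn
      have := mul_le_mul_of_nonneg_right h1 hβ0.le
      linarith
  set P : ℝ → ℝ := fun z => ∑ n ∈ range m, f z (Y (n + 1)) with hP
  set B : ℝ → ℝ → ℝ := fun z z' => (f z' (y' + β) - f z' (y + β)) - (f z y' - f z y) with hB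
  -- the sum over the levels
  have hI : ∀ x, m * θ ≤ P (x + a) + P (x - a) - 2 * P x + B (x - a) (x + a) := by
    intro x
    have h1 : ∑ _n ∈ range m, θ ≤ ∑ n ∈ range m, (f (x + a) (Y (n + 2)) + f (x - a) (Y n)
        - 2 * f x (Y (n + 1))) := by
      refine Finset.sum_le_sum fun n _ => ?_
      have := h x (Y (n + 1)) a β ha0 hβ0 haβ
      rwa [hYs, hYd] at this
    rw [Finset.sum_const, card_range, nsmul_eq_mul, Finset.sum_sub_distrib,
      Finset.sum_add_distrib, ← Finset.mul_sum] at h1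
    have e1 := Finset.sum_range_sub (fun n => f (x + a) (Y (n + 1))) m
    have e2 := Finset.sum_range_sub (fun n => f (x - a) (Y n)) m
    rw [Finset.sum_sub_distrib] at e1 e2
    simp only [hYm, hY0, hYm1, zero_add, hY1] at e1 e2
    simp only [hP, hB]
    linarith
  -- the sum over the points
  set ξ : ℕ → ℝ := fun k => (K : ℝ) + 1 + k * a with hξ
  have hξs : ∀ k, ξ (k + 1) + a = ξ (k + 2) := fun k => by simp only [hξ]; push_cast; ring
  have hξd : ∀ k, ξ (k + 1) - a = ξ k := fun k => by simp only [hξ]; push_cast; ring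
  have hξ1 : ∀ k, ξ (k + 1) = ξ k + a := fun k => by simp only [hξ]; push_cast; ring
  have hξK : ∀ k, (K : ℝ) + 1 ≤ ξ k := fun k => by
    simp only [hξ]
    have : (0 : ℝ) ≤ k * a := by positivity
    linarith
  have hII : ∑ _k ∈ range K, m * θ ≤ ∑ k ∈ range K, (P (ξ (k + 2)) + P (ξ k) - 2 * P (ξ (k + 1))
      + B (ξ k) (ξ (k + 2))) := by
    refine Finset.sum_le_sum fun k _ => ?_
    have := hI (ξ (k + 1))
    rwa [hξs, hξd] at this
  rw [Finset.sum_const, card_range, nsmul_eq_mul, Finset.sum_add_distrib] at hII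
  have hPt : ∑ k ∈ range K, (P (ξ (k + 2)) + P (ξ k) - 2 * P (ξ (k + 1)))
      = (P (ξ (K + 1)) - P (ξ K)) - (P (ξ 1) - P (ξ 0)) := by
    have e1 := Finset.sum_range_sub (fun k => P (ξ (k + 1)) - P (ξ k)) K
    rw [zero_add] at e1
    rw [← e1]
    refine Finset.sum_congr rfl fun k _ => ?_
    ring
  have hPb : (P (ξ (K + 1)) - P (ξ K)) - (P (ξ 1) - P (ξ 0)) ≤ m * (ε * a) := by
    simp only [hP, ← Finset.sum_sub_distrib]
    calc ∑ n ∈ range m, (f (ξ (K + 1)) (Y (n + 1)) - f (ξ K) (Y (n + 1))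
          - (f (ξ 1) (Y (n + 1)) - f (ξ 0) (Y (n + 1)))) ≤ ∑ _n ∈ range m, ε * a := by
          refine Finset.sum_le_sum fun n hn => ?_
          have hn' := Finset.mem_range.1 hn
          have c1 := slope_le_lim (hx (Y (n + 1))) (hA (Y (n + 1))) (x := ξ K) (x' := ξ (K + 1))
            (by rw [hξ1]; linarith)
          have c2 := hN K hKN (Y (n + 1)) (hYI n hn') (ξ 0) (ξ 1) (hξK 0)
            (by rw [show (1 : ℕ) = 0 + 1 from rfl, hξ1]; linarith)
          rw [hξ1 K] at c1
          have e3 : ξ 1 = ξ 0 + a := hξ1 0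
          rw [e3] at c2
          rw [hξ1 K, e3]
          have e4 : ξ K + a - ξ K = a := by ring
          have e5 : ξ 0 + a - ξ 0 = a := by ring
          rw [e4] at c1
          rw [e5] at c2
          linarith
      _ = m * (ε * a) := by rw [Finset.sum_const, card_range, nsmul_eq_mul]
  have hBb : ∀ k ∈ range K, B (ξ k) (ξ (k + 2)) ≤ 2 * a * (A y' - A y + ε)
      + β * (C * (2 + K + (K + 1) * a)) := by
    intro k hk
    have hk' := Finset.mem_range.1 hk
    set z := ξ (k + 2) with hz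
    have hz2 : z = ξ k + 2 * a := by rw [hz]; simp only [hξ]; push_cast; ring
    have hz0 : 0 ≤ z := by
      have := hξK (k + 2)
      linarith
    have hzK : z ≤ (K : ℝ) + 1 + (K + 1) * a := by
      rw [hz]
      simp only [hξ]
      have h1 : ((k + 2 : ℕ) : ℝ) ≤ K + 1 := by exact_mod_cast (by omega : k + 2 ≤ K + 1)
      have := mul_le_mul_of_nonneg_right h1 ha0.le
      linarith
    -- the two increments in the second variable
    have d1 : f z (y' + β) - f z y' ≤ β * (f z (y' + 1) - f z y') := by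
      have := (hy z).2 (mem_univ y') (mem_univ (y' + 1)) (show 0 ≤ 1 - β by linarith) hβ0.le
        (by ring)
      simp only [smul_eq_mul] at this
      rw [show (1 - β) * y' + β * (y' + 1) = y' + β by ring] at this
      linarith
    have d2 : β * (f z y - f z (y - 1)) ≤ f z (y + β) - f z y := by
      obtain ⟨c, hc⟩ := subgrad (hy z) y
      have c1 := hc (y - 1)
      have c2 := hc (y + β)
      have e1 : y - 1 - y = -1 := by ring
      have e2 : y + β - y = β := by ring
      rw [e1] at c1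
      rw [e2] at c2
      nlinarith
    have d3 := hC z hz0
    have d4 := slope_le_lim (hx y') (hA y') (x := ξ k) (x' := z) (by rw [hz2]; linarith)
    have d5 := hN K hKN y ⟨le_rfl, hyy.le⟩ (ξ k) z (hξK k) (by rw [hz2]; linarith)
    have e3 : z - ξ k = 2 * a := by rw [hz2]; ring
    rw [e3] at d4 d5
    have d6 : β * (f z (y' + 1) - f z y' - f z y + f z (y - 1))
        ≤ β * (C * (2 + K + (K + 1) * a)) := by
      refine mul_le_mul_of_nonneg_left (d3.trans (mul_le_mul_of_nonneg_left ?_ hC0)) hβ0.le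
      linarith
    simp only [hB]
    linarith
  have hBs := Finset.sum_le_sum hBb
  rw [Finset.sum_const, card_range, nsmul_eq_mul] at hBs
  have htot : (K : ℝ) * (m * θ) ≤ m * (ε * a) + K * (2 * a * (A y' - A y + ε)
      + β * (C * (2 + K + (K + 1) * a))) := by linarith
  -- divide
  have haval : a = τ * (Λ * K) / r := by
    rw [ha, hβ, hmc]
    field_simp
  have hβval : β = r / (Λ * K) := by rw [hβ, hmc]
  have hfin : θ ≤ (m * (ε * a) + K * (2 * a * (A y' - A y + ε)
      + β * (C * (2 + K + (K + 1) * a)))) / (K * m) := by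
    rw [le_div_iff₀ (by positivity)]
    linarith
  refine hfin.trans (le_of_eq ?_)
  rw [haval, hβval, hmc]
  field_simp
  ring

theorem blow {θ τ : ℝ} (hτ : 0 < τ)
    (h : ∀ x y a β, 0 < a → 0 < β → a * β = τ →
      θ ≤ f (x + a) (y + β) + f (x - a) (y - β) - 2 * f x y)
    {y y' : ℝ} (hyy : y < y') : θ * (y' - y) ≤ 2 * τ * (A y' - A y) := by
  obtain ⟨C, hC0, hC⟩ := blow_step hx hy hA hτ h hyy
  set r := y' - y with hr
  have hr0 : 0 < r := by linarith
  set D := A y' - A y with hD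
  -- first limit
  have h1 : ∀ ε : ℝ, 0 < ε → ∀ Λ : ℕ, 1 ≤ Λ →
      θ ≤ ε * (τ * Λ / r) + 2 * (τ / r) * (D + ε) + C * (τ / Λ) := by
    intro ε hε Λ hΛ
    obtain ⟨N, hN⟩ := hC ε hε Λ hΛ
    have hΛp : (0 : ℝ) < Λ := by exact_mod_cast hΛ
    have t1 : Tendsto (fun K : ℕ => r * (2 + K) / (Λ * K) ^ 2 + (K + 1) * τ / (Λ * K) : ℕ → ℝ)
        atTop (𝓝 (r * ((0 * 0 * 2 + 0) / Λ ^ 2) + (1 + 0) * τ / Λ)) := by
      have i1 : Tendsto (fun K : ℕ => (1 : ℝ) / K) atTop (𝓝 0) := tendsto_one_div_atTop_nhds_zero_nat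
      have i2 : Tendsto (fun K : ℕ => (r * ((1 / (K : ℝ) * (1 / K) * 2 + 1 / K) / Λ ^ 2)
          + (1 + 1 / (K : ℝ)) * τ / Λ)) atTop
          (𝓝 (r * ((0 * 0 * 2 + 0) / Λ ^ 2) + (1 + 0) * τ / Λ)) := by
        refine Tendsto.add (Tendsto.const_mul _ (Tendsto.div_const ?_ _))
          (Tendsto.div_const (Tendsto.mul_const _ ?_) _)
        · exact ((i1.mul i1).mul_const 2).add i1
        · exact tendsto_const_nhds.add i1
      refine i2.congr' ?_
      filter_upwards [eventually_gt_atTop 0] with K hK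
      have hK' : (0 : ℝ) < K := by exact_mod_cast hK
      field_simp
    have t2 := (t1.const_mul C).const_add (ε * (τ * Λ / r) + 2 * (τ / r) * (D + ε))
    have e : ε * (τ * Λ / r) + 2 * (τ / r) * (D + ε) + C * (r * ((0 * 0 * 2 + 0) / Λ ^ 2)
        + (1 + 0) * τ / Λ) = ε * (τ * Λ / r) + 2 * (τ / r) * (D + ε) + C * (τ / Λ) := by ring
    rw [e] at t2
    refine ge_of_tendsto t2 ?_
    filter_upwards [eventually_ge_atTop N, eventually_ge_atTop 1] with K hK hK1
    exact hN K hK hK1
  -- second limit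
  have h2 : ∀ Λ : ℕ, 1 ≤ Λ → θ ≤ 2 * (τ / r) * D + C * (τ / Λ) := by
    intro Λ hΛ
    have t : Tendsto (fun ε : ℝ => ε * (τ * Λ / r) + 2 * (τ / r) * (D + ε) + C * (τ / Λ))
        (𝓝[>] 0) (𝓝 (0 * (τ * Λ / r) + 2 * (τ / r) * (D + 0) + C * (τ / Λ))) := by
      have : Continuous fun ε : ℝ => ε * (τ * Λ / r) + 2 * (τ / r) * (D + ε) + C * (τ / Λ) := by
        fun_prop
      exact (this.tendsto 0).mono_left nhdsWithin_le_nhds
    rw [zero_mul, zero_add, add_zero] at t
    refine ge_of_tendsto t ?_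
    filter_upwards [self_mem_nhdsWithin] with ε hε
    exact h1 ε hε Λ hΛ
  -- third limit
  have h3 : θ ≤ 2 * (τ / r) * D := by
    have t : Tendsto (fun Λ : ℕ => 2 * (τ / r) * D + C * (τ / Λ)) atTop
        (𝓝 (2 * (τ / r) * D + C * 0)) := by
      refine tendsto_const_nhds.add (Tendsto.const_mul _ ?_)
      exact tendsto_const_nhds.div_atTop tendsto_natCast_atTop_atTop
    rw [mul_zero, add_zero] at t
    refine ge_of_tendsto t ?_
    filter_upwards [eventually_ge_atTop 1] with Λ hΛ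
    exact h2 Λ hΛ
  have e : 2 * (τ / r) * D = 2 * τ * D / r := by ring
  rw [e, le_div_iff₀ hr0] at h3
  exact h3

end

end Pool.Agent.V5helper21.Mor
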