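import Mathlib

/-!
# Chains of isotonic regressions on a cycle

For a function `v` on the cycle `ZMod M` the projection of `v` onto the functions all of whose
drops are at most `t` is described by a nonnegative multiplier.  Iterating with `t = k τ` for
`k = n - 1, ..., 1` one gets a chain of functions whose increments are mutually monotone.
-/

set_option autoImplicit false

open Finset

namespace Pool.Agent.V5helper21.Mor

variable {M : ℕ} [NeZero M]

/-- the drop over the edge from `j - 1` to `j` -/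
def dr (h : ZMod M → ℝ) (j : ZMod M) : ℝ := h (j - 1) - h j

/-- summation by parts -/
theorem sum_grad_mul (ζ h : ZMod M → ℝ) :
    ∑ j, (ζ (j + 1) - ζ j) * h j = ∑ j, ζ j * dr h j := by
  have e : ∑ j, ζ (j + 1) * h j = ∑ j, ζ j * h (j - 1) := by
    refine Fintype.sum_equiv (Equiv.addRight (1 : ZMod M)) _ _ fun j => ?_
    simp
  simp only [dr, sub_mul, mul_sub, Finset.sum_sub_distrib, e]

theorem nonneg_of_quad {A C r : ℝ} (hr : 0 < r)
    (h : ∀ δ : ℝ, 0 < δ → δ ≤ r → 0 ≤ δ * A + δ ^ 2 * C) : 0 ≤ A := by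
  by_contra hA
  push Not at hA
  set δ := min r (-A / (2 * (|C| + 1))) with hδ
  have hC : 0 < 2 * (|C| + 1) := by positivity
  have h1 : 0 < δ := lt_min hr (div_pos (by linarith) hC)
  have h2 : δ ≤ r := min_le_left _ _
  have h3 : δ * (2 * (|C| + 1)) ≤ -A := by
    have : δ ≤ -A / (2 * (|C| + 1)) := min_le_right _ _
    rwa [le_div_iff₀ hC] at this
  have h4 := h δ h1 h2
  have h5 : C ≤ |C| := le_abs_self C
  have h6 : 0 ≤ A + δ * C := by
    have : 0 ≤ δ * (A + δ * C) := by nlinarith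
    exact nonneg_of_mul_nonneg_right this h1
  nlinarith

/-- the dual functional -/
noncomputable def Phi (t : ℝ) (v ζ : ZMod M → ℝ) : ℝ :=
  (∑ j, (v j - (ζ (j + 1) - ζ j)) ^ 2) / 2 + t * ∑ j, ζ j

theorem Phi_continuous (t : ℝ) (v : ZMod M → ℝ) : Continuous (Phi t v) := by
  unfold Phi
  fun_prop

/-- existence of a minimiser over a box -/
theorem exists_min (t : ℝ) (v : ZMod M → ℝ) {R : ℝ} (hR : 0 < R) :
    ∃ ζ : ZMod M → ℝ, (∀ j, 0 ≤ ζ j) ∧ (∀ j, ζ j ≤ R) ∧
      ∀ ξ : ZMod M → ℝ, (∀ j, 0 ≤ ξ j) → (∀ j, ξ j ≤ R) → Phi t v ζ ≤ Phi t v ξ := by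
  have hne : (Set.Icc (0 : ZMod M → ℝ) (fun _ => R)).Nonempty :=
    ⟨0, ⟨le_refl _, fun _ => hR.le⟩⟩
  obtain ⟨ζ, hζm, hmin⟩ := (isCompact_Icc (a := (0 : ZMod M → ℝ)) (b := fun _ => R)).exists_isMinOn
    hne (Phi_continuous t v).continuousOn
  exact ⟨ζ, hζm.1, hζm.2, fun ξ h1 h2 => isMinOn_iff.1 hmin ξ ⟨h1, h2⟩⟩

/-- The projection of `v` onto the set of functions with drops at most `t`, with the multiplier. -/
theorem exists_proj {t : ℝ} (ht : 0 < t) (v : ZMod M → ℝ) :
    ∃ w ζ : ZMod M → ℝ, (∀ j, dr w j ≤ t) ∧ (∀ j, 0 ≤ ζ j) ∧ (∀ j, ζ j ≠ 0 → dr w j = t) ∧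
      ∀ j, v j - w j = ζ (j + 1) - ζ j := by
  classical
  have hΦ0 : 0 ≤ Phi t v 0 := by
    unfold Phi
    simp only [Pi.zero_apply, sub_self, sub_zero, Finset.sum_const_zero, mul_zero, add_zero]
    positivity
  set R : ℝ := (Phi t v 0 + 1) / t with hR
  have hR0 : 0 < R := by positivity
  obtain ⟨ζ, hζ0, hζle, hmin⟩ := exists_min t v hR0
  have hζR : ∀ j, ζ j < R := by
    intro j
    have h1 : Phi t v ζ ≤ Phi t v 0 := hmin 0 (fun _ => le_refl _) fun _ => hR0.le
    have h2 : t * ∑ j, ζ j ≤ Phi t v ζ := by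
      have : 0 ≤ (∑ j, (v j - (ζ (j + 1) - ζ j)) ^ 2) / 2 := by positivity
      unfold Phi
      linarith
    have h3 : ζ j ≤ ∑ j, ζ j := Finset.single_le_sum (fun i _ => hζ0 i) (Finset.mem_univ j)
    rw [hR, lt_div_iff₀ ht]
    nlinarith
  set w : ZMod M → ℝ := fun j => v j - (ζ (j + 1) - ζ j) with hw
  -- perturbation in one coordinate
  have hpert : ∀ (j : ZMod M) (δ : ℝ), 0 ≤ ζ j + δ → ζ j + δ ≤ R →
      0 ≤ δ * (t - dr w j)
        + δ ^ 2 * ((∑ i, ((Pi.single j (1 : ℝ) : ZMod M → ℝ) (i + 1)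
            - (Pi.single j (1 : ℝ) : ZMod M → ℝ) i) ^ 2) / 2) := by
    intro j δ h0 h1
    set e : ZMod M → ℝ := Pi.single j 1 with he
    have h2 : Phi t v ζ ≤ Phi t v (fun i => ζ i + δ * e i) := by
      refine hmin _ (fun i => ?_) fun i => ?_
      · by_cases hi : i = j
        · subst hi
          simp [he, h0]
        · simp [he, Pi.single_eq_of_ne hi, hζ0 i]
      · by_cases hi : i = j
        · subst hi
          simp [he, h1]
        · simp [he, Pi.single_eq_of_ne hi, hζle i]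
    have h3 : ∑ i, (e (i + 1) - e i) * w i = dr w j := by
      rw [sum_grad_mul, Finset.sum_eq_single j]
      · simp [he]
      · intro b _ hb
        simp [he, Pi.single_eq_of_ne hb]
      · simp
    have h4 : ∑ i, e i = 1 := by simp [he]
    have h5 : ∑ i, (v i - ((ζ (i + 1) + δ * e (i + 1)) - (ζ i + δ * e i))) ^ 2
        = ∑ i, (v i - (ζ (i + 1) - ζ i)) ^ 2 - 2 * δ * ∑ i, (e (i + 1) - e i) * w i
          + δ ^ 2 * ∑ i, (e (i + 1) - e i) ^ 2 := by
      rw [Finset.mul_sum, Finset.mul_sum, ← Finset.sum_sub_distrib, ← Finset.sum_add_distrib]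
      refine Finset.sum_congr rfl fun i _ => ?_
      rw [hw]
      ring
    have h6 : ∑ i, (ζ i + δ * e i) = ∑ i, ζ i + δ := by
      rw [Finset.sum_add_distrib, ← Finset.mul_sum, h4, mul_one]
    have h7 : Phi t v (fun i => ζ i + δ * e i) = Phi t v ζ + (δ * (t - dr w j)
        + δ ^ 2 * ((∑ i, (e (i + 1) - e i) ^ 2) / 2)) := by
      unfold Phi
      rw [h5, h6, h3]
      ring
    linarith
  have hA : ∀ j, 0 ≤ t - dr w j := by
    intro j
    refine nonneg_of_quad (r := R - ζ j) (C := (∑ i, ((Pi.single j (1 : ℝ) : ZMod M → ℝ) (i + 1)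
            - (Pi.single j (1 : ℝ) : ZMod M → ℝ) i) ^ 2) / 2)
      (sub_pos.2 (hζR j)) fun δ h0 h1 => ?_
    exact hpert j δ (by linarith [hζ0 j]) (by linarith)
  refine ⟨w, ζ, fun j => by linarith [hA j], hζ0, fun j hj => ?_, fun j => ?_⟩
  · have hpos : 0 < ζ j := lt_of_le_of_ne (hζ0 j) (Ne.symm hj)
    have h1 : 0 ≤ -(t - dr w j) := by
      refine nonneg_of_quad (r := ζ j)
        (C := (∑ i, ((Pi.single j (1 : ℝ) : ZMod M → ℝ) (i + 1)
            - (Pi.single j (1 : ℝ) : ZMod M → ℝ) i) ^ 2) / 2) hpos fun δ h0 h1 => ?_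
      have h2 := hpert j (-δ) (by linarith) (by linarith [hζR j])
      have e1 : (-δ) ^ 2 = δ ^ 2 := by ring
      rw [e1] at h2
      linarith
    linarith [hA j]
  · rw [hw]
    ring

/-- A chain of isotonic regressions. -/
structure Ch (τ : ℝ) (n : ℕ) (v : ZMod M → ℝ) where
  w : ℕ → ZMod M → ℝ
  z : ℕ → ZMod M → ℝ
  w0 : w 0 = 0
  wn : w n = v
  dle : ∀ k ≤ n, ∀ j, dr (w k) j ≤ k * τ
  z0 : ∀ k, 1 ≤ k → k < n → ∀ j, 0 ≤ z k j
  zc : ∀ k, 1 ≤ k → k < n → ∀ j, z k j ≠ 0 → dr (w k) j = k * τ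
  zd : ∀ k, 1 ≤ k → k < n → ∀ j, w (k + 1) j - w k j = z k (j + 1) - z k j

theorem exists_chain {τ : ℝ} (hτ : 0 < τ) (n : ℕ) (hn : 1 ≤ n) :
    ∀ v : ZMod M → ℝ, (∀ j, dr v j ≤ n * τ) → Nonempty (Ch τ n v) := by
  induction n, hn using Nat.le_induction with
  | base =>
    intro v hv
    refine ⟨⟨fun k => if k = 0 then 0 else v, fun _ => 0, by simp, by simp, ?_, ?_, ?_, ?_⟩⟩
    · intro k hk j
      rcases Nat.eq_zero_or_pos k with h | h
      · subst h
        simp [dr]
      · have : k = 1 := by omega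
        subst this
        simpa using hv j
    · intro k h1 h2
      omega
    · intro k h1 h2
      omega
    · intro k h1 h2
      omega
  | succ n hn ih =>
    intro v hv
    have hnτ : (0 : ℝ) < n * τ := by
      have : (0 : ℝ) < n := by exact_mod_cast hn
      positivity
    obtain ⟨w', ζ, h1, h2, h3, h4⟩ := exists_proj hnτ v
    obtain ⟨c⟩ := ih w' h1
    refine ⟨⟨fun k => if k ≤ n then c.w k else v, fun k => if k < n then c.z k else ζ,
      by simp [c.w0], by simp, ?_, ?_, ?_, ?_⟩⟩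
    · intro k hk j
      by_cases hkn : k ≤ n
      · simp only [hkn, if_true]
        exact c.dle k hkn j
      · have : k = n + 1 := by omega
        subst this
        simp only [hkn, if_false]
        exact_mod_cast hv j
    · intro k k1 k2 j
      by_cases hkn : k < n
      · simp only [hkn, if_true]
        exact c.z0 k k1 hkn j
      · simp only [hkn, if_false]
        exact h2 j
    · intro k k1 k2 j
      by_cases hkn : k < n
      · simp only [hkn, hkn.le, if_true]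
        exact c.zc k k1 hkn j
      · have : k = n := by omega
        subst this
        simp only [lt_irrefl, if_false, le_refl, if_true, c.wn]
        exact h3 j
    · intro k k1 k2 j
      by_cases hkn : k < n
      · have h5 : k + 1 ≤ n := hkn
        simp only [hkn, hkn.le, h5, if_true]
        exact c.zd k k1 hkn j
      · have : k = n := by omega
        subst this
        have h5 : ¬ (k + 1 ≤ k) := by omega
        simp only [lt_irrefl, if_false, le_refl, if_true, h5, c.wn]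
        exact h4 j

namespace Ch

variable {τ : ℝ} {n : ℕ} {v v' : ZMod M → ℝ}

theorem mono (c : Ch τ n v) {k : ℕ} (h1 : 1 ≤ k) (hk : k < n) {j : ZMod M}
    (h : dr (c.w k) j < k * τ) : dr (c.w (k + 1)) j ≤ dr (c.w k) j := by
  have hz : c.z k j = 0 := by
    by_contra hne
    exact absurd (c.zc k h1 hk j hne) h.ne
  have e1 := c.zd k h1 hk j
  have e2 := c.zd k h1 hk (j - 1)
  rw [sub_add_cancel] at e2
  have p1 := c.z0 k h1 hk (j + 1)
  have p2 := c.z0 k h1 hk (j - 1)
  unfold dr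
  linarith

theorem nest (c : Ch τ n v) (hτ : 0 < τ) {k : ℕ} (hk : k < n) {j : ZMod M}
    (h : dr (c.w (k + 1)) j = ((k + 1 : ℕ) : ℝ) * τ) : dr (c.w k) j = k * τ := by
  rcases Nat.eq_zero_or_pos k with h0 | h0
  · subst h0
    simp [c.w0, dr]
  · by_contra hne
    have h1 : dr (c.w k) j < k * τ := lt_of_le_of_ne (c.dle k hk.le j) hne
    have h2 := c.mono h0 hk h1
    rw [h] at h2
    push_cast at h2
    nlinarith

theorem nest_le (c : Ch τ n v) (hτ : 0 < τ) {k l : ℕ} (hkl : k ≤ l) (hl : l ≤ n) {j : ZMod M}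
    (h : dr (c.w l) j = l * τ) : dr (c.w k) j = k * τ := by
  induction l, hkl using Nat.le_induction with
  | base => exact h
  | succ l hkl ih => exact ih (by omega) (c.nest hτ (by omega) h)

theorem dr_sub (f g : ZMod M → ℝ) (j : ZMod M) : dr (fun i => f i - g i) j = dr f j - dr g j := by
  unfold dr
  ring

theorem inc_le (c : Ch τ n v) (hτ : 0 < τ) {k : ℕ} (hk : k < n) (j : ZMod M) :
    dr (fun i => c.w (k + 1) i - c.w k i) j ≤ τ := by
  rw [dr_sub]
  by_cases h : dr (c.w k) j = k * τ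
  · have := c.dle (k + 1) hk j
    push_cast at this
    linarith
  · have h0 : 1 ≤ k := by
      by_contra hc
      have : k = 0 := by omega
      subst this
      apply h
      simp [c.w0, dr]
    have h1 : dr (c.w k) j < k * τ := lt_of_le_of_ne (c.dle k hk.le j) h
    linarith [c.mono h0 hk h1]

theorem inner_le (c : Ch τ n v) (hτ : 0 < τ) {k l : ℕ} (hkl : k < l) (hl : l < n)
    {h : ZMod M → ℝ} (hh : ∀ j, dr h j ≤ τ) :
    ∑ j, (c.w (l + 1) j - c.w l j) * h j
      ≤ ∑ j, (c.w (l + 1) j - c.w l j) * (c.w (k + 1) j - c.w k j) := by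
  have hl1 : 1 ≤ l := by omega
  simp only [c.zd l hl1 hl]
  rw [sum_grad_mul, sum_grad_mul]
  refine Finset.sum_le_sum fun j _ => ?_
  by_cases hz : c.z l j = 0
  · rw [hz]
    simp
  · have ha := c.zc l hl1 hl j hz
    have ha1 := c.nest_le hτ (show k + 1 ≤ l from hkl) hl.le ha
    have ha2 := c.nest_le hτ (show k ≤ l by omega) hl.le ha
    have e : dr (fun i => c.w (k + 1) i - c.w k i) j = τ := by
      rw [dr_sub, ha1, ha2]
      push_cast
      ring
    rw [e]
    exact mul_le_mul_of_nonneg_left (hh j) (c.z0 l hl1 hl j)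

theorem mut_lt (c : Ch τ n v) (c' : Ch τ n v') (hτ : 0 < τ) {k l : ℕ} (hkl : k < l)
    (hl : l < n) :
    0 ≤ ∑ j, ((c.w (k + 1) j - c.w k j) - (c'.w (k + 1) j - c'.w k j))
      * ((c.w (l + 1) j - c.w l j) - (c'.w (l + 1) j - c'.w l j)) := by
  have hk : k < n := by omega
  have h1 := c.inner_le hτ hkl hl (h := fun i => c'.w (k + 1) i - c'.w k i)
    (c'.inc_le hτ hk)
  have h2 := c'.inner_le hτ hkl hl (h := fun i => c.w (k + 1) i - c.w k i)
    (c.inc_le hτ hk)
  have e : ∑ j, ((c.w (k + 1) j - c.w k j) - (c'.w (k + 1) j - c'.w k j))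
      * ((c.w (l + 1) j - c.w l j) - (c'.w (l + 1) j - c'.w l j))
      = (∑ j, (c.w (l + 1) j - c.w l j) * (c.w (k + 1) j - c.w k j)
        - ∑ j, (c.w (l + 1) j - c.w l j) * (c'.w (k + 1) j - c'.w k j))
      + (∑ j, (c'.w (l + 1) j - c'.w l j) * (c'.w (k + 1) j - c'.w k j)
        - ∑ j, (c'.w (l + 1) j - c'.w l j) * (c.w (k + 1) j - c.w k j)) := by
    rw [← Finset.sum_sub_distrib, ← Finset.sum_sub_distrib, ← Finset.sum_add_distrib]
    refine Finset.sum_congr rfl fun j _ => ?_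
    ring
  rw [e]
  linarith

theorem mut_all (c : Ch τ n v) (c' : Ch τ n v') (hτ : 0 < τ) {k l : ℕ} (hk : k < n)
    (hl : l < n) :
    0 ≤ ∑ j, ((c.w (k + 1) j - c.w k j) - (c'.w (k + 1) j - c'.w k j))
      * ((c.w (l + 1) j - c.w l j) - (c'.w (l + 1) j - c'.w l j)) := by
  rcases lt_trichotomy k l with h | h | h
  · exact mut_lt c c' hτ h hl
  · subst h
    exact Finset.sum_nonneg fun j _ => mul_self_nonneg _
  · have := mut_lt c c' hτ h hk
    refine this.trans (le_of_eq (Finset.sum_congr rfl fun j _ => ?_))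
    ring

/-- The operator with the weights `γ` is nonexpansive. -/
theorem nonexp (c : Ch τ n v) (c' : Ch τ n v') (hτ : 0 < τ) (γ : ℕ → ℝ)
    (hγ : ∀ k < n, |γ k| ≤ 1) :
    ∑ j, (∑ k ∈ range n, γ k * (c.w (k + 1) j - c.w k j)
        - ∑ k ∈ range n, γ k * (c'.w (k + 1) j - c'.w k j)) ^ 2
      ≤ ∑ j, (v j - v' j) ^ 2 := by
  set δ : ℕ → ZMod M → ℝ := fun k j =>
    (c.w (k + 1) j - c.w k j) - (c'.w (k + 1) j - c'.w k j) with hδ
  have hP : ∀ k ∈ range n, ∀ l ∈ range n, 0 ≤ ∑ j, δ k j * δ l j := fun k hk l hl =>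
    mut_all c c' hτ (Finset.mem_range.1 hk) (Finset.mem_range.1 hl)
  have e1 : ∀ γ : ℕ → ℝ, ∑ j, (∑ k ∈ range n, γ k * δ k j) ^ 2
      = ∑ k ∈ range n, ∑ l ∈ range n, γ k * γ l * ∑ j, δ k j * δ l j := by
    intro γ
    have : ∀ j, (∑ k ∈ range n, γ k * δ k j) ^ 2
        = ∑ k ∈ range n, ∑ l ∈ range n, γ k * γ l * (δ k j * δ l j) := by
      intro j
      rw [sq, Finset.sum_mul_sum]
      refine Finset.sum_congr rfl fun k _ => Finset.sum_congr rfl fun l _ => ?_
      ring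
    simp only [this]
    rw [Finset.sum_comm]
    refine Finset.sum_congr rfl fun k _ => ?_
    rw [Finset.sum_comm]
    refine Finset.sum_congr rfl fun l _ => ?_
    rw [Finset.mul_sum]
  have e2 : ∀ j, ∑ k ∈ range n, γ k * (c.w (k + 1) j - c.w k j)
        - ∑ k ∈ range n, γ k * (c'.w (k + 1) j - c'.w k j) = ∑ k ∈ range n, γ k * δ k j := by
    intro j
    rw [← Finset.sum_sub_distrib]
    refine Finset.sum_congr rfl fun k _ => ?_
    rw [hδ]
    ring
  have e3 : ∀ j, v j - v' j = ∑ k ∈ range n, 1 * δ k j := by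
    intro j
    have t1 : ∑ k ∈ range n, (c.w (k + 1) j - c.w k j) = v j := by
      rw [Finset.sum_range_sub (fun k => c.w k j), c.wn, c.w0]
      simp
    have t2 : ∑ k ∈ range n, (c'.w (k + 1) j - c'.w k j) = v' j := by
      rw [Finset.sum_range_sub (fun k => c'.w k j), c'.wn, c'.w0]
      simp
    simp only [one_mul, hδ]
    rw [Finset.sum_sub_distrib, t1, t2]
  simp only [e2, e3]
  rw [e1 γ, e1 fun _ => 1]
  refine Finset.sum_le_sum fun k hk => Finset.sum_le_sum fun l hl => ?_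
  refine mul_le_mul_of_nonneg_right ?_ (hP k hk l hl)
  have h1 := hγ k (Finset.mem_range.1 hk)
  have h2 := hγ l (Finset.mem_range.1 hl)
  calc γ k * γ l ≤ |γ k * γ l| := le_abs_self _
    _ = |γ k| * |γ l| := abs_mul _ _
    _ ≤ 1 * 1 := mul_le_mul h1 h2 (abs_nonneg _) zero_le_one
    _ = 1 * 1 := rfl

end Ch

end Pool.Agent.V5helper21.Mor
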