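import Pool.Agent.V5helper21.Mor.Chain

/-!
# The discrete inequality
-/

set_option autoImplicit false

open Finset

namespace Pool.Agent.V5helper21.Mor

/-! ### Supporting lines -/

theorem subgrad {g : ℝ → ℝ} (hg : ConvexOn ℝ Set.univ g) (a : ℝ) :
    ∃ c : ℝ, ∀ x, g a + c * (x - a) ≤ g x := by
  refine ⟨derivWithin g (Set.Ioi a) a, fun x => ?_⟩
  have hi : a ∈ interior (Set.univ : Set ℝ) := by simp
  rcases lt_trichotomy a x with h | h | h
  · have h1 := hg.rightDeriv_le_slope_of_mem_interior hi (Set.mem_univ x) h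
    rw [slope_def_field, le_div_iff₀ (by linarith)] at h1
    linarith
  · subst h
    simp
  · have h1 := hg.slope_le_leftDeriv_of_mem_interior (Set.mem_univ x) hi h
    have h2 := hg.leftDeriv_le_rightDeriv_of_mem_interior hi
    rw [slope_def_field, div_le_iff₀ (by linarith)] at h1
    nlinarith

theorem subgrad_abs {g : ℝ → ℝ} {a c Λ : ℝ} (h : ∀ x, g a + c * (x - a) ≤ g x)
    (hΛ : ∀ x y, |g x - g y| ≤ Λ * |x - y|) : |c| ≤ Λ := by
  have h1 := h (a + 1)
  have h2 := h (a - 1)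
  have h3 := (abs_le.1 (hΛ (a + 1) a)).2
  have h4 := (abs_le.1 (hΛ (a - 1) a)).2
  have e1 : |a + 1 - a| = 1 := by simp
  have e2 : |a - 1 - a| = 1 := by simp
  rw [e1] at h3
  rw [e2] at h4
  rw [abs_le]
  constructor <;> linarith

/-- Supporting slopes along a sequence of levels. -/
theorem exists_kappa {f : ℝ → ℝ → ℝ} {L : ℝ}
    (hx : ∀ y, ConvexOn ℝ Set.univ fun x => f x y)
    (hm : ∀ y y', y ≤ y' → ConvexOn ℝ Set.univ fun x => f x y' - f x y)
    (hL : ∀ x x' y y', |f x' y' - f x' y - f x y' + f x y| ≤ L * |x' - x| * |y' - y|)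
    (x0 y0 : ℝ) {τ : ℝ} (hτ : 0 < τ) (n : ℕ) :
    ∃ κ : ℕ → ℝ,
      (∀ k ≤ n, ∀ x, f x0 (y0 - k * τ) + κ k * (x - x0) ≤ f x (y0 - k * τ)) ∧
      (∀ k < n, ∀ x, (f x0 (y0 - k * τ) - f x0 (y0 - (k + 1 : ℕ) * τ))
          + (κ k - κ (k + 1)) * (x - x0) ≤ f x (y0 - k * τ) - f x (y0 - (k + 1 : ℕ) * τ)) ∧
      ∀ k < n, |κ k - κ (k + 1)| ≤ L * τ := by
  have hle : ∀ k : ℕ, y0 - (k + 1 : ℕ) * τ ≤ y0 - k * τ := by
    intro k
    push_cast
    nlinarith
  have hc : ∀ k : ℕ, ∃ c : ℝ, ∀ x, (f x0 (y0 - k * τ) - f x0 (y0 - (k + 1 : ℕ) * τ))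
      + c * (x - x0) ≤ f x (y0 - k * τ) - f x (y0 - (k + 1 : ℕ) * τ) :=
    fun k => subgrad (hm _ _ (hle k)) x0
  choose c hc using hc
  obtain ⟨κn, hκn⟩ := subgrad (hx (y0 - n * τ)) x0
  have hstep : ∀ k < n, (κn + ∑ l ∈ Ico k n, c l) - (κn + ∑ l ∈ Ico (k + 1) n, c l) = c k := by
    intro k hk
    rw [Finset.sum_eq_sum_Ico_succ_bot hk]
    ring
  refine ⟨fun k => κn + ∑ l ∈ Ico k n, c l, ?_, ?_, ?_⟩
  · intro k hk x
    induction hk using Nat.decreasingInduction with
    | self => simpa using hκn x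
    | of_succ k hk ih =>
      have h1 := hc k x
      have h2 := hstep k hk
      simp only at ih
      have e : (κn + ∑ l ∈ Ico k n, c l) = c k + (κn + ∑ l ∈ Ico (k + 1) n, c l) := by linarith
      beta_reduce
      rw [e, add_mul]
      linarith
  · intro k hk x
    simp only [hstep k hk]
    exact hc k x
  · intro k hk
    simp only [hstep k hk]
    refine subgrad_abs (g := fun x => f x (y0 - k * τ) - f x (y0 - (k + 1 : ℕ) * τ)) (a := x0)
      (hc k) fun x y => ?_
    have h1 := hL y x (y0 - (k + 1 : ℕ) * τ) (y0 - k * τ)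
    have e1 : |y0 - k * τ - (y0 - (k + 1 : ℕ) * τ)| = τ := by
      rw [show y0 - k * τ - (y0 - (k + 1 : ℕ) * τ) = τ by push_cast; ring, abs_of_pos hτ]
    rw [e1] at h1
    have e2 : f x (y0 - k * τ) - f x (y0 - (k + 1 : ℕ) * τ)
        - (f y (y0 - k * τ) - f y (y0 - (k + 1 : ℕ) * τ))
        = f x (y0 - k * τ) - f x (y0 - (k + 1 : ℕ) * τ) - f y (y0 - k * τ)
          + f y (y0 - (k + 1 : ℕ) * τ) := by ring
    rw [e2]
    linarith

/-! ### The inequality along one edge -/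

theorem chord {F : ℝ → ℝ} (hF : ConvexOn ℝ Set.univ F) {a b s : ℝ} (hab : a < b) (hs : b ≤ s) :
    F a + (F b - F a) / (b - a) * (s - a) ≤ F s := by
  rcases eq_or_lt_of_le hs with h | h
  · subst h
    have : b - a ≠ 0 := by linarith
    rw [div_mul_cancel₀ _ this]
    linarith
  · have h1 := hF.slope_mono_adjacent (Set.mem_univ a) (Set.mem_univ s) hab h
    have h2 : 0 < b - a := by linarith
    have h3 : 0 < s - b := by linarith
    rw [div_le_div_iff₀ h2 h3] at h1
    have h4 : (F b - F a) / (b - a) * (s - a) ≤ F s - F a := by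
      rw [div_mul_eq_mul_div, div_le_iff₀ h2]
      nlinarith
    linarith

/-- the slopes of a convex function over the grid of step `τ` are monotone -/
theorem slope_anti {F : ℝ → ℝ} (hF : ConvexOn ℝ Set.univ F) {τ : ℝ} (hτ : 0 < τ) (y0 : ℝ)
    {p k : ℕ} (hpk : p ≤ k) :
    F (y0 - k * τ) - F (y0 - (k + 1 : ℕ) * τ) ≤ F (y0 - p * τ) - F (y0 - (p + 1 : ℕ) * τ) := by
  induction k, hpk using Nat.le_induction with
  | base => exact le_refl _
  | succ k hk ih =>
    refine le_trans ?_ ih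
    have h1 := chord hF (a := y0 - ((k + 1 : ℕ) + 1 : ℕ) * τ) (b := y0 - (k + 1 : ℕ) * τ)
      (s := y0 - k * τ) (by push_cast; nlinarith) (by push_cast; nlinarith)
    have e1 : y0 - (k + 1 : ℕ) * τ - (y0 - ((k + 1 : ℕ) + 1 : ℕ) * τ) = τ := by push_cast; ring
    have e2 : y0 - k * τ - (y0 - ((k + 1 : ℕ) + 1 : ℕ) * τ) = 2 * τ := by push_cast; ring
    rw [e1, e2] at h1
    have e3 : (F (y0 - (k + 1 : ℕ) * τ) - F (y0 - ((k + 1 : ℕ) + 1 : ℕ) * τ)) / τ * (2 * τ)
        = 2 * (F (y0 - (k + 1 : ℕ) * τ) - F (y0 - ((k + 1 : ℕ) + 1 : ℕ) * τ)) := by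
      field_simp
    rw [e3] at h1
    linarith

theorem edge {F : ℝ → ℝ} (hF : ConvexOn ℝ Set.univ F) {τ : ℝ} (hτ : 0 < τ) (y0 : ℝ) (n : ℕ)
    (s G : ℕ → ℝ) (s0 : s 0 = y0) (hle : ∀ k ≤ n, y0 - k * τ ≤ s k)
    (hinc : ∀ k < n, y0 - k * τ < s k → s k ≤ s (k + 1))
    (hG : ∀ k ≤ n, G k ≤ F (y0 - k * τ))
    (hGF : ∀ k < n, G k - G (k + 1) ≤ F (y0 - k * τ) - F (y0 - (k + 1 : ℕ) * τ))
    (hlat : ∀ k < n, y0 - (k + 1 : ℕ) * τ < s n → y0 - k * τ ≤ s n) :
    G 0 + ∑ k ∈ range n, (G k - G (k + 1)) / τ * (s (k + 1) - s k) ≤ F (s n) := by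
  have key : ∀ k ≤ n,
      (s k = y0 - k * τ ∧ G 0 + ∑ i ∈ range k, (G i - G (i + 1)) / τ * (s (i + 1) - s i) = G k) ∨
      ∃ p < k, y0 - (p + 1 : ℕ) * τ < s k ∧
        G 0 + ∑ i ∈ range k, (G i - G (i + 1)) / τ * (s (i + 1) - s i)
          ≤ F (y0 - (p + 1 : ℕ) * τ)
            + (F (y0 - p * τ) - F (y0 - (p + 1 : ℕ) * τ)) / τ * (s k - (y0 - (p + 1 : ℕ) * τ)) := by
    intro k
    induction k with
    | zero =>
      intro _
      left
      simp [s0]
    | succ k ih =>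
      intro hk
      have hk' : k < n := hk
      rw [Finset.sum_range_succ, ← add_assoc]
      rcases ih hk'.le with ⟨h1, h2⟩ | ⟨p, hp, h1, h2⟩
      · rw [h2, h1]
        have e : G k + (G k - G (k + 1)) / τ * (s (k + 1) - (y0 - k * τ))
            = G (k + 1) + (G k - G (k + 1)) / τ * (s (k + 1) - (y0 - (k + 1 : ℕ) * τ)) := by
          field_simp
          push_cast
          ring
        rw [e]
        rcases eq_or_lt_of_le (hle (k + 1) hk) with h3 | h3
        · left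
          refine ⟨h3.symm, ?_⟩
          rw [← h3]
          ring
        · right
          refine ⟨k, Nat.lt_succ_self k, h3, ?_⟩
          have h4 := hG (k + 1) hk
          have h5 := hGF k hk'
          have h6 : (G k - G (k + 1)) / τ
              ≤ (F (y0 - k * τ) - F (y0 - (k + 1 : ℕ) * τ)) / τ :=
            div_le_div_of_nonneg_right h5 hτ.le
          have h7 := mul_le_mul_of_nonneg_right h6 (sub_pos.2 h3).le
          linarith
      · right
        have h3 : y0 - k * τ < s k := by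
          refine lt_of_le_of_lt ?_ h1
          have : ((p + 1 : ℕ) : ℝ) ≤ k := by exact_mod_cast hp
          nlinarith
        have h4 := hinc k hk' h3
        refine ⟨p, by omega, lt_of_lt_of_le h1 h4, ?_⟩
        have h5 := (hGF k hk').trans (slope_anti hF hτ y0 hp.le)
        have h6 : (G k - G (k + 1)) / τ
            ≤ (F (y0 - p * τ) - F (y0 - (p + 1 : ℕ) * τ)) / τ :=
          div_le_div_of_nonneg_right h5 hτ.le
        have h7 := mul_le_mul_of_nonneg_right h6 (sub_nonneg.2 h4)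
        nlinarith
  rcases key n le_rfl with ⟨h1, h2⟩ | ⟨p, hp, h1, h2⟩
  · rw [h2, h1]
    exact hG n le_rfl
  · refine h2.trans ?_
    have h3 := hlat p hp h1
    have h4 := chord hF (a := y0 - (p + 1 : ℕ) * τ) (b := y0 - p * τ) (s := s n)
      (by push_cast; nlinarith) h3
    have e1 : y0 - p * τ - (y0 - (p + 1 : ℕ) * τ) = τ := by push_cast; ring
    rwa [e1] at h4

/-! ### The inequality on a grid -/

variable {N M : ℕ} [NeZero N] [NeZero M]

theorem sum_shift_sub {K : ℕ} [NeZero K] (a : ZMod K → ℝ) : ∑ i, (a i - a (i - 1)) = 0 := by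
  have e : ∑ i, a (i - 1) = ∑ i, a i :=
    Fintype.sum_equiv (Equiv.subRight (1 : ZMod K)) _ _ fun i => by simp
  rw [Finset.sum_sub_distrib, e, sub_self]

theorem sum_by_parts (u q : ZMod N → ZMod M → ℝ) :
    ∑ i, ∑ j, (u i j - u (i - 1) j) * (q i j - q i (j - 1))
      = ∑ i, ∑ j, (q (i + 1) j - q i j) * (u i (j + 1) - u i j) := by
  have sN : ∀ g : ZMod N → ℝ, ∑ i, g (i + 1) = ∑ i, g i := fun g =>
    Fintype.sum_equiv (Equiv.addRight (1 : ZMod N)) _ _ fun i => by simp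
  have sM : ∀ g : ZMod M → ℝ, ∑ j, g (j + 1) = ∑ j, g j := fun g =>
    Fintype.sum_equiv (Equiv.addRight (1 : ZMod M)) _ _ fun i => by simp
  -- the four products
  have e1 : ∑ i, ∑ j, u (i - 1) j * q i j = ∑ i, ∑ j, q (i + 1) j * u i j := by
    rw [← sN fun i => ∑ j, u (i - 1) j * q i j]
    refine Finset.sum_congr rfl fun i _ => Finset.sum_congr rfl fun j _ => ?_
    rw [add_sub_cancel_right]
    ring
  have e2 : ∑ i, ∑ j, u i j * q i (j - 1) = ∑ i, ∑ j, q i j * u i (j + 1) := by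
    refine Finset.sum_congr rfl fun i _ => ?_
    rw [← sM fun j => u i j * q i (j - 1)]
    refine Finset.sum_congr rfl fun j _ => ?_
    rw [add_sub_cancel_right]
    ring
  have e3 : ∑ i, ∑ j, u (i - 1) j * q i (j - 1) = ∑ i, ∑ j, q (i + 1) j * u i (j + 1) := by
    rw [← sN fun i => ∑ j, u (i - 1) j * q i (j - 1)]
    refine Finset.sum_congr rfl fun i _ => ?_
    rw [← sM fun j => u (i + 1 - 1) j * q (i + 1) (j - 1)]
    refine Finset.sum_congr rfl fun j _ => ?_
    rw [add_sub_cancel_right, add_sub_cancel_right]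
    ring
  have l : ∑ i, ∑ j, (u i j - u (i - 1) j) * (q i j - q i (j - 1))
      = ∑ i, ∑ j, u i j * q i j - ∑ i, ∑ j, u i j * q i (j - 1)
        - ∑ i, ∑ j, u (i - 1) j * q i j + ∑ i, ∑ j, u (i - 1) j * q i (j - 1) := by
    simp only [← Finset.sum_sub_distrib, ← Finset.sum_add_distrib]
    refine Finset.sum_congr rfl fun i _ => Finset.sum_congr rfl fun j _ => ?_
    ring
  have r : ∑ i, ∑ j, (q (i + 1) j - q i j) * (u i (j + 1) - u i j)
      = ∑ i, ∑ j, u i j * q i j - ∑ i, ∑ j, q i j * u i (j + 1)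
        - ∑ i, ∑ j, q (i + 1) j * u i j + ∑ i, ∑ j, q (i + 1) j * u i (j + 1) := by
    simp only [← Finset.sum_sub_distrib, ← Finset.sum_add_distrib]
    refine Finset.sum_congr rfl fun i _ => Finset.sum_congr rfl fun j _ => ?_
    ring
  rw [l, r, e1, e2, e3]

/-- The discrete inequality, for `v` with values in a lattice. -/
theorem disc_lat {f : ℝ → ℝ → ℝ} {L : ℝ}
    (hx : ∀ y, ConvexOn ℝ Set.univ fun x => f x y)
    (hy : ∀ x, ConvexOn ℝ Set.univ (f x))
    (hm : ∀ y y', y ≤ y' → ConvexOn ℝ Set.univ fun x => f x y' - f x y)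
    (hL : ∀ x x' y y', |f x' y' - f x' y - f x y' + f x y| ≤ L * |x' - x| * |y' - y|)
    (x0 y0 : ℝ) {τ : ℝ} (hτ : 0 < τ) (u v : ZMod N → ZMod M → ℝ)
    (hlat : ∀ i j, ∃ a : ℤ, v i j = a * τ) :
    ∑ _i : ZMod N, ∑ _j : ZMod M, f x0 y0
      ≤ ∑ i, ∑ j, f (x0 + (u i j - u (i - 1) j)) (y0 + (v i j - v i (j - 1)))
        + L / 2 * ∑ i, ∑ j, ((u i (j + 1) - u i j) ^ 2 + (v (i + 1) j - v i j) ^ 2) := by
  have hL0 : 0 ≤ L := by
    have h := hL 0 1 0 1
    simp only [sub_zero, abs_one, mul_one] at h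
    exact (abs_nonneg _).trans h
  -- number of levels
  obtain ⟨n, hn1, hn⟩ : ∃ n : ℕ, 1 ≤ n ∧ ∀ i j, dr (v i) j ≤ n * τ := by
    obtain ⟨B, hB⟩ : ∃ B : ℝ, ∀ i j, dr (v i) j ≤ B := by
      refine ⟨∑ i, ∑ j, |dr (v i) j|, fun i j => ?_⟩
      refine (le_abs_self _).trans ?_
      refine (Finset.single_le_sum (f := fun j => |dr (v i) j|) (fun _ _ => abs_nonneg _)
        (Finset.mem_univ j)).trans ?_
      exact Finset.single_le_sum (f := fun i => ∑ j, |dr (v i) j|)
        (fun _ _ => Finset.sum_nonneg fun _ _ => abs_nonneg _) (Finset.mem_univ i)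
    obtain ⟨n, hn⟩ := exists_nat_ge (B / τ)
    refine ⟨n + 1, by omega, fun i j => (hB i j).trans ?_⟩
    rw [div_le_iff₀ hτ] at hn
    push_cast
    nlinarith
  have hch : ∀ i, Nonempty (Ch τ n (v i)) := fun i => exists_chain hτ n hn1 (v i) (hn i)
  have c : ∀ i, Ch τ n (v i) := fun i => Classical.choice (hch i)
  obtain ⟨κ, hκ1, hκ2, hκ3⟩ := exists_kappa hx hm hL x0 y0 hτ n
  -- weights
  obtain ⟨γ, hγ1, hγ2⟩ : ∃ γ : ℕ → ℝ, (∀ k < n, |γ k| ≤ 1) ∧
      ∀ k < n, (κ k - κ (k + 1)) / τ = L * γ k := by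
    refine ⟨fun k => (κ k - κ (k + 1)) / (L * τ), fun k hk => ?_, fun k hk => ?_⟩
    · have h := hκ3 k hk
      have h0 : 0 ≤ L * τ := by positivity
      simp only
      rw [abs_div, abs_of_nonneg h0]
      exact div_le_one_of_le₀ h h0
    · rcases eq_or_lt_of_le hL0 with h | h
      · have h1 := hκ3 k hk
        rw [← h, zero_mul] at h1
        have h2 : κ k - κ (k + 1) = 0 := abs_nonpos_iff.1 h1
        rw [h2, ← h]
        simp
      · simp only
        field_simp
  set e : ℕ → ℝ := fun k => (f x0 (y0 - k * τ) - f x0 (y0 - (k + 1 : ℕ) * τ)) / τ with he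
  set q : ZMod N → ZMod M → ℝ := fun i j =>
    ∑ k ∈ range n, γ k * ((c i).w (k + 1) j - (c i).w k j) with hq
  -- the pointwise inequality
  have hpt : ∀ i j, f x0 y0 + κ 0 * (u i j - u (i - 1) j)
      + ∑ k ∈ range n, e k * (((c i).w (k + 1) j - (c i).w (k + 1) (j - 1))
          - ((c i).w k j - (c i).w k (j - 1)))
      + L * ((u i j - u (i - 1) j) * (q i j - q i (j - 1)))
      ≤ f (x0 + (u i j - u (i - 1) j)) (y0 + (v i j - v i (j - 1))) := by
    intro i j
    set X := x0 + (u i j - u (i - 1) j) with hX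
    have h := edge (hy X) hτ y0 n (fun k => y0 - dr ((c i).w k) j)
      (fun k => f x0 (y0 - k * τ) + κ k * (X - x0)) ?_ ?_ ?_ ?_ ?_ ?_
    · have e1 : ∀ k ∈ range n, ((f x0 (y0 - (k : ℕ) * τ) + κ k * (X - x0))
            - (f x0 (y0 - (k + 1 : ℕ) * τ) + κ (k + 1) * (X - x0))) / τ
            * ((y0 - dr ((c i).w (k + 1)) j) - (y0 - dr ((c i).w k) j))
          = e k * (((c i).w (k + 1) j - (c i).w (k + 1) (j - 1))
              - ((c i).w k j - (c i).w k (j - 1)))
            + L * (X - x0) * (γ k * (((c i).w (k + 1) j - (c i).w k j))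
              - γ k * ((c i).w (k + 1) (j - 1) - (c i).w k (j - 1))) := by
        intro k hk
        have h1 : ((f x0 (y0 - (k : ℕ) * τ) + κ k * (X - x0))
            - (f x0 (y0 - (k + 1 : ℕ) * τ) + κ (k + 1) * (X - x0))) / τ
            = e k + (κ k - κ (k + 1)) / τ * (X - x0) := by
          rw [he]
          ring
        rw [h1, hγ2 k (Finset.mem_range.1 hk)]
        unfold dr
        ring
      rw [Finset.sum_congr rfl e1, Finset.sum_add_distrib, ← Finset.mul_sum,
        Finset.sum_sub_distrib] at h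
      have e2 : y0 - dr ((c i).w n) j = y0 + (v i j - v i (j - 1)) := by
        rw [(c i).wn]
        unfold dr
        ring
      rw [e2] at h
      have e3 : X - x0 = u i j - u (i - 1) j := by rw [hX]; ring
      rw [e3] at h
      have e4 : y0 - ((0 : ℕ) : ℝ) * τ = y0 := by simp
      rw [e4] at h
      have e5 : (u i j - u (i - 1) j) * (q i j - q i (j - 1))
          = (u i j - u (i - 1) j) * (∑ k ∈ range n, γ k * ((c i).w (k + 1) j - (c i).w k j)
            - ∑ k ∈ range n, γ k * ((c i).w (k + 1) (j - 1) - (c i).w k (j - 1))) := rfl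
      rw [e5]
      linarith
    · simp [(c i).w0, dr]
    · intro k hk
      have := (c i).dle k hk j
      linarith
    · intro k hk hlt
      have h1 : dr ((c i).w k) j < k * τ := by linarith
      have h2 : 1 ≤ k := by
        by_contra hc
        have h3 : k = 0 := by omega
        subst h3
        simp [(c i).w0, dr] at h1
      linarith [(c i).mono h2 hk h1]
    · intro k hk
      exact hκ1 k hk X
    · intro k hk
      have := hκ2 k hk X
      linarith
    · intro k hk hlt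
      simp only [(c i).wn] at hlt ⊢
      obtain ⟨a, ha⟩ := hlat i j
      obtain ⟨b, hb⟩ := hlat i (j - 1)
      have h1 : dr (v i) j = ((b - a : ℤ) : ℝ) * τ := by
        unfold dr
        rw [ha, hb]
        push_cast
        ring
      rw [h1] at hlt ⊢
      have h2 : ((b - a : ℤ) : ℝ) < ((k + 1 : ℕ) : ℝ) := by
        have : ((b - a : ℤ) : ℝ) * τ < ((k + 1 : ℕ) : ℝ) * τ := by linarith
        exact lt_of_mul_lt_mul_right this hτ.le
      have h3 : b - a < (k : ℤ) + 1 := by exact_mod_cast h2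
      have h4 : b - a ≤ (k : ℤ) := by omega
      have h5 : ((b - a : ℤ) : ℝ) ≤ k := by exact_mod_cast h4
      have := mul_le_mul_of_nonneg_right h5 hτ.le
      linarith
  -- sum up
  have hsum := Finset.sum_le_sum fun i (_ : i ∈ (Finset.univ : Finset (ZMod N))) =>
    Finset.sum_le_sum fun j (_ : j ∈ (Finset.univ : Finset (ZMod M))) => hpt i j
  simp only [Finset.sum_add_distrib, ← Finset.mul_sum] at hsum
  have z1 : ∑ i, ∑ j, (u i j - u (i - 1) j) = 0 := by
    rw [Finset.sum_comm]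
    exact Finset.sum_eq_zero fun j _ => sum_shift_sub fun i => u i j
  have z2 : ∑ i : ZMod N, ∑ j, ∑ k ∈ range n,
      e k * (((c i).w (k + 1) j - (c i).w (k + 1) (j - 1)) - ((c i).w k j - (c i).w k (j - 1)))
      = 0 := by
    refine Finset.sum_eq_zero fun i _ => ?_
    rw [Finset.sum_comm]
    refine Finset.sum_eq_zero fun k _ => ?_
    rw [← Finset.mul_sum, Finset.sum_sub_distrib, sum_shift_sub ((c i).w (k + 1)),
      sum_shift_sub ((c i).w k)]
    simp
  rw [z1, z2, sum_by_parts] at hsum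
  have hq2 : ∑ i, ∑ j, (q (i + 1) j - q i j) ^ 2 ≤ ∑ i, ∑ j, (v (i + 1) j - v i j) ^ 2 :=
    Finset.sum_le_sum fun i _ => Ch.nonexp (c (i + 1)) (c i) hτ γ hγ1
  have hab : -(1 / 2 : ℝ) * (∑ i, ∑ j, (q (i + 1) j - q i j) ^ 2
      + ∑ i, ∑ j, (u i (j + 1) - u i j) ^ 2)
      ≤ ∑ i, ∑ j, (q (i + 1) j - q i j) * (u i (j + 1) - u i j) := by
    rw [← Finset.sum_add_distrib, Finset.mul_sum]
    refine Finset.sum_le_sum fun i _ => ?_
    rw [← Finset.sum_add_distrib, Finset.mul_sum]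
    refine Finset.sum_le_sum fun j _ => ?_
    nlinarith [sq_nonneg ((q (i + 1) j - q i j) + (u i (j + 1) - u i j))]
  have hfin : -(L / 2) * (∑ i, ∑ j, (v (i + 1) j - v i j) ^ 2
      + ∑ i, ∑ j, (u i (j + 1) - u i j) ^ 2)
      ≤ L * ∑ i, ∑ j, (q (i + 1) j - q i j) * (u i (j + 1) - u i j) := by
    have h1 := mul_le_mul_of_nonneg_left hab hL0
    nlinarith
  have e6 : ∑ i, ∑ j, ((u i (j + 1) - u i j) ^ 2 + (v (i + 1) j - v i j) ^ 2)
      = ∑ i, ∑ j, (u i (j + 1) - u i j) ^ 2 + ∑ i, ∑ j, (v (i + 1) j - v i j) ^ 2 := by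
    simp only [Finset.sum_add_distrib]
  rw [e6]
  linarith

end Pool.Agent.V5helper21.Mor
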