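import Pool.Agent.V5helper21.Mor.Disc

/-!
# The discrete inequality for all functions on the grid
-/

set_option autoImplicit false

open Finset Filter Topology

namespace Pool.Agent.V5helper21.Mor

variable {N M : ℕ} [NeZero N] [NeZero M]

theorem tendsto_floor (a : ℝ) :
    Tendsto (fun m : ℕ => (⌊a * ((m : ℝ) + 1)⌋ : ℝ) * (1 / ((m : ℝ) + 1))) atTop (𝓝 a) := by
  have h0 : Tendsto (fun m : ℕ => a - 1 / ((m : ℝ) + 1)) atTop (𝓝 (a - 0)) :=
    tendsto_const_nhds.sub tendsto_one_div_add_atTop_nhds_zero_nat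
  rw [sub_zero] at h0
  refine tendsto_of_tendsto_of_tendsto_of_le_of_le h0 tendsto_const_nhds (fun m => ?_) fun m => ?_
  · have hm : (0 : ℝ) < (m : ℝ) + 1 := by positivity
    have h1 := Int.lt_floor_add_one (a * ((m : ℝ) + 1))
    simp only
    rw [mul_one_div, le_div_iff₀ hm, sub_mul, one_div, inv_mul_cancel₀ hm.ne']
    linarith
  · have hm : (0 : ℝ) < (m : ℝ) + 1 := by positivity
    have h1 := Int.floor_le (a * ((m : ℝ) + 1))
    simp only
    rw [mul_one_div, div_le_iff₀ hm]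
    exact h1

/-- **The discrete inequality.** -/
theorem disc {f : ℝ → ℝ → ℝ} {L : ℝ}
    (hx : ∀ y, ConvexOn ℝ Set.univ fun x => f x y)
    (hy : ∀ x, ConvexOn ℝ Set.univ (f x))
    (hm : ∀ y y', y ≤ y' → ConvexOn ℝ Set.univ fun x => f x y' - f x y)
    (hL : ∀ x x' y y', |f x' y' - f x' y - f x y' + f x y| ≤ L * |x' - x| * |y' - y|)
    (x0 y0 : ℝ) (u v : ZMod N → ZMod M → ℝ) :
    ∑ _i : ZMod N, ∑ _j : ZMod M, f x0 y0
      ≤ ∑ i, ∑ j, f (x0 + (u i j - u (i - 1) j)) (y0 + (v i j - v i (j - 1)))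
        + L / 2 * ∑ i, ∑ j, ((u i (j + 1) - u i j) ^ 2 + (v (i + 1) j - v i j) ^ 2) := by
  have hc : ∀ x, Continuous (f x) := fun x => by
    have := (hy x).continuousOn isOpen_univ
    exact continuousOn_univ.1 this
  set w : ℕ → ZMod N → ZMod M → ℝ := fun m i j =>
    (⌊v i j * ((m : ℝ) + 1)⌋ : ℝ) * (1 / ((m : ℝ) + 1)) with hw
  have hwt : ∀ i j, Tendsto (fun m => w m i j) atTop (𝓝 (v i j)) := fun i j => tendsto_floor _
  refine ge_of_tendsto' (x := (atTop : Filter ℕ)) (f := fun m : ℕ =>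
    ∑ i, ∑ j, f (x0 + (u i j - u (i - 1) j)) (y0 + (w m i j - w m i (j - 1)))
        + L / 2 * ∑ i, ∑ j, ((u i (j + 1) - u i j) ^ 2 + (w m (i + 1) j - w m i j) ^ 2)) ?_
    fun m => ?_
  · refine Tendsto.add ?_ (Tendsto.const_mul _ ?_)
    · refine tendsto_finsetSum _ fun i _ => tendsto_finsetSum _ fun j _ => ?_
      refine ((hc _).tendsto _).comp ?_
      exact tendsto_const_nhds.add ((hwt i j).sub (hwt i (j - 1)))
    · refine tendsto_finsetSum _ fun i _ => tendsto_finsetSum _ fun j _ => ?_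
      exact tendsto_const_nhds.add (((hwt (i + 1) j).sub (hwt i j)).pow 2)
  · exact disc_lat hx hy hm hL x0 y0 (τ := 1 / ((m : ℝ) + 1)) (by positivity) u (w m)
      fun i j => ⟨_, rfl⟩

end Pool.Agent.V5helper21.Mor
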