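import Pool.Agent.V5helper21.Mor.Disc

/-!
# Partial minimisation of a function `q` for which `q ± κ s t` are convex

For `Ψ(e, η) = inf_δ (q(δ, e) + ε δ² + κ δ η - p δ)` the second differences in the cone
`|η| ≤ e` are nonnegative.  This is the property which replaces the Hilbert space structure in the
inequality for the differences of two chains.
-/

set_option autoImplicit false

open Finset

namespace Pool.Agent.V5helper21.Mor

/-- joint convexity -/
def CV (Q : ℝ → ℝ → ℝ) : Prop :=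
  ∀ s t s' t' l, 0 ≤ l → l ≤ 1 →
    Q ((1 - l) * s + l * s') ((1 - l) * t + l * t') ≤ (1 - l) * Q s t + l * Q s' t'

theorem CV.mix {q : ℝ → ℝ → ℝ} {κ : ℝ} (h1 : CV fun s t => q s t + κ * (s * t))
    (h2 : CV fun s t => q s t - κ * (s * t)) {μ : ℝ} (hμ : |μ| ≤ 1) :
    CV fun s t => q s t + μ * κ * (s * t) := by
  intro s t s' t' l hl0 hl1
  have a1 := h1 s t s' t' l hl0 hl1
  have a2 := h2 s t s' t' l hl0 hl1
  obtain ⟨m1, m2⟩ := abs_le.1 hμ
  have b1 := mul_le_mul_of_nonneg_left a1 (show 0 ≤ (1 + μ) / 2 by linarith)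
  have b2 := mul_le_mul_of_nonneg_left a2 (show 0 ≤ (1 - μ) / 2 by linarith)
  simp only at b1 b2 ⊢
  have h3 := add_le_add b1 b2
  refine le_of_eq_of_le ?_ (h3.trans (le_of_eq ?_))
  · ring
  · ring

theorem CV.conv_left {q : ℝ → ℝ → ℝ} (h : CV q) (t : ℝ) : ConvexOn ℝ Set.univ fun s => q s t := by
  refine ⟨convex_univ, fun s _ s' _ a b ha hb hab => ?_⟩
  have := h s t s' t b hb (by linarith)
  have ha' : a = 1 - b := by linarith
  rw [show (1 - b) * t + b * t = t by ring] at this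
  simp only [smul_eq_mul]
  rw [ha']
  exact this

/-- the function to be minimised -/
def th (q : ℝ → ℝ → ℝ) (κ ε p δ e η : ℝ) : ℝ := q δ e + ε * δ ^ 2 + κ * δ * η - p * δ

/-- the partial minimum -/
noncomputable def Psi (q : ℝ → ℝ → ℝ) (κ ε p e η : ℝ) : ℝ := ⨅ δ : ℝ, th q κ ε p δ e η

section
variable {q : ℝ → ℝ → ℝ} {κ ε p : ℝ} (hq : CV q) (hε : 0 < ε)
include hq hε

theorem th_bdd (e η : ℝ) : BddBelow (Set.range fun δ => th q κ ε p δ e η) := by
  obtain ⟨c, hc⟩ := subgrad (hq.conv_left e) 0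
  refine ⟨q 0 e - (c + κ * η - p) ^ 2 / (4 * ε), ?_⟩
  rintro _ ⟨δ, rfl⟩
  have h1 := hc δ
  simp only [sub_zero] at h1
  have h2 : 0 ≤ ε * (δ + (c + κ * η - p) / (2 * ε)) ^ 2 := by positivity
  have h3 : ε * (δ + (c + κ * η - p) / (2 * ε)) ^ 2
      = ε * δ ^ 2 + (c + κ * η - p) * δ + (c + κ * η - p) ^ 2 / (4 * ε) := by
    field_simp
    ring
  simp only [th]
  rw [h3] at h2
  linarith

theorem Psi_le (δ e η : ℝ) : Psi q κ ε p e η ≤ th q κ ε p δ e η :=
  ciInf_le (th_bdd hq hε e η) δ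

theorem Psi_zero (hp : ∀ δ, q 0 0 + p * δ ≤ q δ 0) : Psi q κ ε p 0 0 = q 0 0 := by
  refine le_antisymm ?_ ?_
  · have := Psi_le (κ := κ) (p := p) hq hε 0 0 0
    simpa [th] using this
  · refine le_ciInf fun δ => ?_
    have h1 := hp δ
    have h2 : 0 ≤ ε * δ ^ 2 := by positivity
    simp only [th]
    linarith

end

section
variable {q : ℝ → ℝ → ℝ} {κ ε p : ℝ} (h1 : CV fun s t => q s t + κ * (s * t))
  (h2 : CV fun s t => q s t - κ * (s * t)) (hε : 0 < ε)
include h1 h2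

theorem CV.base : CV q := by
  have := CV.mix h1 h2 (μ := 0) (by simp)
  simpa using this

include hε

/-- nonnegative second differences in the cone -/
theorem Psi_super {e η a h α γ : ℝ} (ha : 0 ≤ a) (hh : 0 ≤ h) (hα : |α| ≤ 1) (hγ : |γ| ≤ 1) :
    Psi q κ ε p (e + a) (η + α * a) + Psi q κ ε p (e + h) (η + γ * h)
      ≤ Psi q κ ε p (e + a + h) (η + α * a + γ * h) + Psi q κ ε p e η := by
  rcases eq_or_lt_of_le (add_nonneg ha hh) with h0 | h0
  · have a0 : a = 0 := by linarith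
    have b0 : h = 0 := by linarith
    subst a0 b0
    simp
  have hb := CV.base h1 h2
  refine le_ciInf_add_ciInf fun δ1 δ2 => ?_
  set t : ℝ := a / (a + h) with ht
  have ht0 : 0 ≤ t := by positivity
  have ht1 : t ≤ 1 := by rw [ht, div_le_one h0]; linarith
  have hta : t * (a + h) = a := div_mul_cancel₀ _ h0.ne'
  have hμ : |(α + γ) / 2| ≤ 1 := by
    obtain ⟨m1, m2⟩ := abs_le.1 hα
    obtain ⟨m3, m4⟩ := abs_le.1 hγ
    rw [abs_le]
    constructor <;> linarith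
  have hQ := CV.mix h1 h2 hμ
  have q1 := hQ δ2 e δ1 (e + a + h) t ht0 ht1
  have q2 := hQ δ2 e δ1 (e + a + h) (1 - t) (by linarith) (by linarith)
  have e1 : (1 - t) * e + t * (e + a + h) = e + a := by linarith
  have e2 : (1 - (1 - t)) * e + (1 - t) * (e + a + h) = e + h := by linarith
  rw [e1] at q1
  rw [e2] at q2
  have p1 := Psi_le (κ := κ) (p := p) hb hε ((1 - t) * δ2 + t * δ1) (e + a) (η + α * a)
  have p2 := Psi_le (κ := κ) (p := p) hb hε ((1 - (1 - t)) * δ2 + (1 - t) * δ1) (e + h)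
    (η + γ * h)
  refine (add_le_add p1 p2).trans ?_
  simp only [th]
  set A := q δ1 (e + a + h)
  set B := q δ2 e
  set C := q ((1 - t) * δ2 + t * δ1) (e + a)
  set D := q ((1 - (1 - t)) * δ2 + (1 - t) * δ1) (e + h)
  have hsq : ε * ((1 - t) * δ2 + t * δ1) ^ 2 + ε * ((1 - (1 - t)) * δ2 + (1 - t) * δ1) ^ 2
      ≤ ε * δ1 ^ 2 + ε * δ2 ^ 2 := by
    have h3 : 0 ≤ ε * (2 * (t * (1 - t))) * (δ1 - δ2) ^ 2 := by
      have : 0 ≤ 1 - t := by linarith
      positivity
    nlinarith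
  have key : (α * a) * (1 - t) + (γ * h) * t = (α + γ) / 2 * (a * (1 - t) + h * t) := by
    have e3 : a * (1 - t) = h * t := by linarith
    have e4 : (α * a) * (1 - t) = α * (a * (1 - t)) := by ring
    have e5 : (γ * h) * t = γ * (h * t) := by ring
    rw [e4, e5, e3]
    ring
  have key2 : κ * (δ1 - δ2) * ((α * a) * (1 - t) + (γ * h) * t)
      = κ * (δ1 - δ2) * ((α + γ) / 2 * (a * (1 - t) + h * t)) := by rw [key]
  nlinarith [key2, hsq, q1, q2]

/-- convexity along the directions in the cone -/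
theorem Psi_conv (e η : ℝ) {γ : ℝ} (hγ : |γ| ≤ 1) :
    ConvexOn ℝ Set.univ fun d => Psi q κ ε p (e + d) (η + γ * d) := by
  have hb := CV.base h1 h2
  have hQ := CV.mix h1 h2 hγ
  refine ⟨convex_univ, fun x _ y _ a b ha hb' hab => ?_⟩
  have ha' : a = 1 - b := by linarith
  have hb1 : b ≤ 1 := by linarith
  subst ha'
  simp only [smul_eq_mul]
  have i1 : (1 - b) * Psi q κ ε p (e + x) (η + γ * x)
      = ⨅ δ : ℝ, (1 - b) * th q κ ε p δ (e + x) (η + γ * x) := Real.mul_iInf_of_nonneg ha _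
  have i2 : b * Psi q κ ε p (e + y) (η + γ * y)
      = ⨅ δ : ℝ, b * th q κ ε p δ (e + y) (η + γ * y) := Real.mul_iInf_of_nonneg hb' _
  rw [i1, i2]
  refine le_ciInf_add_ciInf fun δ1 δ2 => ?_
  have p1 := Psi_le (κ := κ) (p := p) hb hε ((1 - b) * δ1 + b * δ2) (e + ((1 - b) * x + b * y))
    (η + γ * ((1 - b) * x + b * y))
  refine p1.trans ?_
  have q1 := hQ δ1 (e + x) δ2 (e + y) b hb' hb1
  rw [show (1 - b) * (e + x) + b * (e + y) = e + ((1 - b) * x + b * y) by ring] at q1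
  simp only [th]
  have hsq : ε * ((1 - b) * δ1 + b * δ2) ^ 2 ≤ (1 - b) * (ε * δ1 ^ 2) + b * (ε * δ2 ^ 2) := by
    have h3 : 0 ≤ ε * ((1 - b) * b) * (δ1 - δ2) ^ 2 := by positivity
    nlinarith
  nlinarith [hsq, q1]

/-- monotone slopes -/
theorem exists_slope {γ : ℝ} (hγ : |γ| ≤ 1) :
    ∃ G : ℝ → ℝ → ℝ,
      (∀ e η d, Psi q κ ε p e η + G e η * d ≤ Psi q κ ε p (e + d) (η + γ * d)) ∧
      ∀ e η a α, 0 ≤ a → |α| ≤ 1 → G e η ≤ G (e + a) (η + α * a) := by
  set φ : ℝ → ℝ → ℝ → ℝ := fun e η d => Psi q κ ε p (e + d) (η + γ * d) with hφ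
  have hc : ∀ e η, ConvexOn ℝ Set.univ (φ e η) := fun e η => Psi_conv h1 h2 hε e η hγ
  have hφ0 : ∀ e η, φ e η 0 = Psi q κ ε p e η := fun e η => by simp [hφ]
  set S : ℝ → ℝ → Set ℝ := fun e η => (fun d => (φ e η d - φ e η 0) / d) '' Set.Ioi 0 with hS
  have hne : ∀ e η, (S e η).Nonempty := fun e η => ⟨_, 1, by simp, rfl⟩
  have hlow : ∀ e η d, d < 0 → ∀ z ∈ S e η, (φ e η 0 - φ e η d) / (0 - d) ≤ z := by
    rintro e η d hd _ ⟨h, hh, rfl⟩
    have := (hc e η).slope_mono_adjacent (Set.mem_univ d) (Set.mem_univ h) hd hh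
    simpa using this
  have hbdd : ∀ e η, BddBelow (S e η) := fun e η => ⟨_, fun z hz => hlow e η (-1) (by norm_num) z hz⟩
  refine ⟨fun e η => sInf (S e η), fun e η d => ?_, fun e η a α ha hα => ?_⟩
  · rw [← hφ0 e η]
    show φ e η 0 + sInf (S e η) * d ≤ φ e η d
    rcases lt_trichotomy d 0 with hd | hd | hd
    · have h3 : (φ e η 0 - φ e η d) / (0 - d) ≤ sInf (S e η) :=
        le_csInf (hne e η) (hlow e η d hd)
      rw [div_le_iff₀ (by linarith)] at h3
      linarith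
    · subst hd
      simp
    · have h3 : sInf (S e η) ≤ (φ e η d - φ e η 0) / d := csInf_le (hbdd e η) ⟨d, hd, rfl⟩
      rw [le_div_iff₀ hd] at h3
      linarith
  · refine le_csInf (hne _ _) ?_
    rintro _ ⟨h, hh, rfl⟩
    have hh' : 0 < h := hh
    have h3 : sInf (S e η) ≤ (φ e η h - φ e η 0) / h := csInf_le (hbdd e η) ⟨h, hh, rfl⟩
    refine h3.trans (div_le_div_of_nonneg_right ?_ hh'.le)
    have h4 := Psi_super (κ := κ) (ε := ε) (p := p) h1 h2 hε (e := e) (η := η) ha hh'.le hα hγ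
    simp only [hφ, add_zero, mul_zero]
    linarith

end

end Pool.Agent.V5helper21.Mor
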