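import Pool.Agent.V5helper21.Mor.Disc
import Pool.Agent.V5helper21.Mor.Psi

/-!
# The discrete inequality with a general function of the off-diagonal entries
-/

set_option autoImplicit false

open Finset

namespace Pool.Agent.V5helper21.Mor

variable {N M : ℕ} [NeZero N] [NeZero M]

/-- Supporting slopes along a sequence of levels. -/
theorem exists_kappa3 {f : ℝ → ℝ → ℝ} {L : ℝ}
    (hx : ∀ y, ConvexOn ℝ Set.univ fun x => f x y)
    (hL : ∀ x x' y y', |f x' y' - f x' y - f x y' + f x y| ≤ L * |x' - x| * |y' - y|)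
    (x0 y0 : ℝ) (hm : ∀ y y', y ≤ y' → y' ≤ y0 → ConvexOn ℝ Set.univ fun x => f x y' - f x y)
    {τ : ℝ} (hτ : 0 < τ) (n : ℕ) :
    ∃ κ : ℕ → ℝ,
      (∀ k ≤ n, ∀ x, f x0 (y0 - k * τ) + κ k * (x - x0) ≤ f x (y0 - k * τ)) ∧
      (∀ k < n, ∀ x, (f x0 (y0 - k * τ) - f x0 (y0 - (k + 1 : ℕ) * τ))
          + (κ k - κ (k + 1)) * (x - x0) ≤ f x (y0 - k * τ) - f x (y0 - (k + 1 : ℕ) * τ)) ∧
      ∀ k < n, |κ k - κ (k + 1)| ≤ L * τ := by
  have hle : ∀ k : ℕ, y0 - (k + 1 : ℕ) * τ ≤ y0 - k * τ := by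
    intro k
    push_cast
    nlinarith
  have hc : ∀ k : ℕ, ∃ c : ℝ, ∀ x, (f x0 (y0 - k * τ) - f x0 (y0 - (k + 1 : ℕ) * τ))
      + c * (x - x0) ≤ f x (y0 - k * τ) - f x (y0 - (k + 1 : ℕ) * τ) :=
    fun k => subgrad (hm _ _ (hle k) (by
      have : (0 : ℝ) ≤ k * τ := by positivity
      linarith)) x0
  choose c hc using hc
  obtain ⟨κn, hκn⟩ := subgrad (hx (y0 - n * τ)) x0
  have hstep : ∀ k < n, (κn + ∑ l ∈ Ico k n, c l) - (κn + ∑ l ∈ Ico (k + 1) n, c l) = c k := by
    intro k hk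
    rw [Finset.sum_eq_sum_Ico_succ_bot hk]
    ring
  refine ⟨fun k => κn + ∑ l ∈ Ico k n, c l, ?_, ?_, ?_⟩
  · intro k hk x
    induction hk using Nat.decreasingInduction with
    | self => simpa using hκn x
    | of_succ k hk ih =>
      have h1 := hc k x
      have h2 := hstep k hk
      simp only at ih
      have e : (κn + ∑ l ∈ Ico k n, c l) = c k + (κn + ∑ l ∈ Ico (k + 1) n, c l) := by linarith
      beta_reduce
      rw [e, add_mul]
      linarith
  · intro k hk x
    simp only [hstep k hk]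
    exact hc k x
  · intro k hk
    simp only [hstep k hk]
    refine subgrad_abs (g := fun x => f x (y0 - k * τ) - f x (y0 - (k + 1 : ℕ) * τ)) (a := x0)
      (hc k) fun x y => ?_
    have h1 := hL y x (y0 - (k + 1 : ℕ) * τ) (y0 - k * τ)
    have e1 : |y0 - k * τ - (y0 - (k + 1 : ℕ) * τ)| = τ := by
      rw [show y0 - k * τ - (y0 - (k + 1 : ℕ) * τ) = τ by push_cast; ring, abs_of_pos hτ]
    rw [e1] at h1
    have e2 : f x (y0 - k * τ) - f x (y0 - (k + 1 : ℕ) * τ)
        - (f y (y0 - k * τ) - f y (y0 - (k + 1 : ℕ) * τ))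
        = f x (y0 - k * τ) - f x (y0 - (k + 1 : ℕ) * τ) - f y (y0 - k * τ)
          + f y (y0 - (k + 1 : ℕ) * τ) := by ring
    rw [e2]
    linarith

/-- two chains, general function of the differences -/
theorem Ch.psi_step {M : ℕ} [NeZero M] {τ : ℝ} {n : ℕ} {v v' : ZMod M → ℝ} (c : Ch τ n v)
    (c' : Ch τ n v') (hτ : 0 < τ) (γ : ℕ → ℝ) (hγ : ∀ k < n, |γ k| ≤ 1)
    {Ψ : ℝ → ℝ → ℝ}
    (hΨ : ∀ γ : ℝ, |γ| ≤ 1 → ∃ G : ℝ → ℝ → ℝ, (∀ e η d, Ψ e η + G e η * d ≤ Ψ (e + d) (η + γ * d)) ∧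
      ∀ e η a α, 0 ≤ a → |α| ≤ 1 → G e η ≤ G (e + a) (η + α * a))
    {k : ℕ} (hk1 : 1 ≤ k) (hk : k < n) :
    ∑ j, Ψ (c.w k j - c'.w k j) (∑ l ∈ range k, γ l * ((c.w (l + 1) j - c.w l j)
        - (c'.w (l + 1) j - c'.w l j)))
      ≤ ∑ j, Ψ (c.w (k + 1) j - c'.w (k + 1) j)
        (∑ l ∈ range (k + 1), γ l * ((c.w (l + 1) j - c.w l j) - (c'.w (l + 1) j - c'.w l j))) := by
  obtain ⟨G, hG1, hG2⟩ := hΨ (γ k) (hγ k hk)
  have hG3 : ∀ e η a b, |b| ≤ a → G e η ≤ G (e + a) (η + b) := by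
    intro e η a b hab
    have ha : 0 ≤ a := (abs_nonneg b).trans hab
    rcases eq_or_lt_of_le ha with h0 | h0
    · have hb : b = 0 := by
        rw [← h0] at hab
        exact abs_nonpos_iff.1 hab
      rw [← h0, hb]
      simp
    · have h1 : |b / a| ≤ 1 := by
        rw [abs_div, abs_of_pos h0]
        exact div_le_one_of_le₀ hab ha
      have := hG2 e η a (b / a) ha h1
      rwa [div_mul_cancel₀ _ h0.ne'] at this
  set δ : ℕ → ZMod M → ℝ := fun l j =>
    (c.w (l + 1) j - c.w l j) - (c'.w (l + 1) j - c'.w l j) with hδ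
  set y : ZMod M → ℝ := fun j => c.w k j - c'.w k j with hy
  set η : ZMod M → ℝ := fun j => ∑ l ∈ range k, γ l * δ l j with hη
  set g : ZMod M → ℝ := fun j => G (y j) (η j) with hg
  set ξ : ZMod M → ℝ := fun j => c.z k j - c'.z k j with hξ
  have hyδ : ∀ j, y j = ∑ l ∈ range k, δ l j := by
    intro j
    rw [hδ, hy]
    simp only
    rw [Finset.sum_sub_distrib, Finset.sum_range_sub (fun k => c.w k j),
      Finset.sum_range_sub (fun k => c'.w k j), c.w0, c'.w0]
    simp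
  have hd : ∀ j, δ k j = ξ (j + 1) - ξ j := by
    intro j
    have h1 := c.zd k hk1 hk j
    have h2 := c'.zd k hk1 hk j
    simp only [hδ, hξ]
    rw [h1, h2]
    ring
  -- the drops of the previous increments
  have hdrδ : ∀ l j, dr (δ l) j = dr (fun i => c.w (l + 1) i - c.w l i) j
      - dr (fun i => c'.w (l + 1) i - c'.w l i) j := by
    intro l j
    simp only [dr, hδ]
    ring
  have hpos : ∀ j, 0 < ξ j → ∀ l < k, 0 ≤ dr (δ l) j := by
    intro j hj l hl
    have hz : c.z k j ≠ 0 := by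
      intro h0
      have := c'.z0 k hk1 hk j
      simp only [hξ] at hj
      rw [h0] at hj
      linarith
    have h1 := c.zc k hk1 hk j hz
    have h2 := c.nest_le hτ (show l + 1 ≤ k from hl) hk.le h1
    have h3 := c.nest_le hτ hl.le hk.le h1
    have h4 := c'.inc_le hτ (show l < n by omega) j
    rw [hdrδ, Ch.dr_sub, h2, h3]
    push_cast
    linarith
  have hneg : ∀ j, ξ j < 0 → ∀ l < k, dr (δ l) j ≤ 0 := by
    intro j hj l hl
    have hz : c'.z k j ≠ 0 := by
      intro h0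
      have := c.z0 k hk1 hk j
      simp only [hξ] at hj
      rw [h0] at hj
      linarith
    have h1 := c'.zc k hk1 hk j hz
    have h2 := c'.nest_le hτ (show l + 1 ≤ k from hl) hk.le h1
    have h3 := c'.nest_le hτ hl.le hk.le h1
    have h4 := c.inc_le hτ (show l < n by omega) j
    rw [hdrδ, Ch.dr_sub (c'.w (l + 1)), h2, h3]
    push_cast
    linarith
  have hydr : ∀ j, dr y j = ∑ l ∈ range k, dr (δ l) j := by
    intro j
    simp only [dr, hyδ, ← Finset.sum_sub_distrib]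
  have hηdr : ∀ j, dr η j = ∑ l ∈ range k, γ l * dr (δ l) j := by
    intro j
    simp only [dr, hη, ← Finset.sum_sub_distrib]
    refine Finset.sum_congr rfl fun l _ => ?_
    ring
  have hdr : ∀ j, 0 ≤ ξ j * dr g j := by
    intro j
    rcases lt_trichotomy (ξ j) 0 with h | h | h
    · refine mul_nonneg_of_nonpos_of_nonpos h.le ?_
      have h1 : |(-dr η j)| ≤ -dr y j := by
        rw [hydr, hηdr, ← Finset.sum_neg_distrib, ← Finset.sum_neg_distrib]
        refine (Finset.abs_sum_le_sum_abs _ _).trans (Finset.sum_le_sum fun l hl => ?_)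
        have hl' := Finset.mem_range.1 hl
        have h2 := hneg j h l hl'
        rw [abs_neg, abs_mul, abs_of_nonpos h2]
        have h3 := hγ l (by omega)
        nlinarith
      have h2 := hG3 (y (j - 1)) (η (j - 1)) _ _ h1
      have e1 : y (j - 1) + -dr y j = y j := by unfold dr; ring
      have e2 : η (j - 1) + -dr η j = η j := by unfold dr; ring
      rw [e1, e2] at h2
      have : dr g j = G (y (j - 1)) (η (j - 1)) - G (y j) (η j) := rfl
      linarith
    · rw [h]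
      simp
    · refine mul_nonneg h.le ?_
      have h1 : |dr η j| ≤ dr y j := by
        rw [hydr, hηdr]
        refine (Finset.abs_sum_le_sum_abs _ _).trans (Finset.sum_le_sum fun l hl => ?_)
        have hl' := Finset.mem_range.1 hl
        have h2 := hpos j h l hl'
        rw [abs_mul, abs_of_nonneg h2]
        have h3 := hγ l (by omega)
        nlinarith
      have h2 := hG3 (y j) (η j) _ _ h1
      have e1 : y j + dr y j = y (j - 1) := by unfold dr; ring
      have e2 : η j + dr η j = η (j - 1) := by unfold dr; ring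
      rw [e1, e2] at h2
      have : dr g j = G (y (j - 1)) (η (j - 1)) - G (y j) (η j) := rfl
      linarith
  have hsum : 0 ≤ ∑ j, g j * δ k j := by
    have e : ∑ j, g j * δ k j = ∑ j, ξ j * dr g j := by
      rw [← sum_grad_mul]
      refine Finset.sum_congr rfl fun j _ => ?_
      rw [hd]
      ring
    rw [e]
    exact Finset.sum_nonneg fun j _ => hdr j
  have hstep : ∀ j, Ψ (y j) (η j) + g j * δ k j
      ≤ Ψ (c.w (k + 1) j - c'.w (k + 1) j) (∑ l ∈ range (k + 1), γ l * δ l j) := by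
    intro j
    have h1 := hG1 (y j) (η j) (δ k j)
    have e1 : y j + δ k j = c.w (k + 1) j - c'.w (k + 1) j := by
      simp only [hy, hδ]
      ring
    have e2 : η j + γ k * δ k j = ∑ l ∈ range (k + 1), γ l * δ l j := by
      rw [Finset.sum_range_succ]
    rw [e1, e2] at h1
    exact h1
  have h := Finset.sum_le_sum fun j (_ : j ∈ (Finset.univ : Finset (ZMod M))) => hstep j
  rw [Finset.sum_add_distrib] at h
  linarith

/-- two chains, all steps -/
theorem Ch.psi_all {M : ℕ} [NeZero M] {τ : ℝ} {n : ℕ} {v v' : ZMod M → ℝ} (c : Ch τ n v)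
    (c' : Ch τ n v') (hτ : 0 < τ) (γ : ℕ → ℝ) (hγ : ∀ k < n, |γ k| ≤ 1)
    {Ψ : ℝ → ℝ → ℝ}
    (hΨ : ∀ γ : ℝ, |γ| ≤ 1 → ∃ G : ℝ → ℝ → ℝ, (∀ e η d, Ψ e η + G e η * d ≤ Ψ (e + d) (η + γ * d)) ∧
      ∀ e η a α, 0 ≤ a → |α| ≤ 1 → G e η ≤ G (e + a) (η + α * a))
    {k : ℕ} (hk1 : 1 ≤ k) (hk : k ≤ n) :
    ∑ j, Ψ (c.w 1 j - c'.w 1 j) (γ 0 * (c.w 1 j - c'.w 1 j))
      ≤ ∑ j, Ψ (c.w k j - c'.w k j)
        (∑ l ∈ range k, γ l * ((c.w (l + 1) j - c.w l j) - (c'.w (l + 1) j - c'.w l j))) := by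
  induction k, hk1 using Nat.le_induction with
  | base =>
    refine le_of_eq (Finset.sum_congr rfl fun j _ => ?_)
    rw [Finset.sum_range_one]
    simp [c.w0, c'.w0]
  | succ k hk1 ih => exact (ih (by omega)).trans (Ch.psi_step c c' hτ γ hγ hΨ hk1 hk)

/-- The lower bound for the diagonal part, for `v` with values in a lattice. -/
theorem core {f : ℝ → ℝ → ℝ} {L : ℝ}
    (hx : ∀ y, ConvexOn ℝ Set.univ fun x => f x y)
    (hy : ∀ x, ConvexOn ℝ Set.univ (f x))
    (hL : ∀ x x' y y', |f x' y' - f x' y - f x y' + f x y| ≤ L * |x' - x| * |y' - y|)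
    (x0 y0 : ℝ) (hm : ∀ y y', y ≤ y' → y' ≤ y0 → ConvexOn ℝ Set.univ fun x => f x y' - f x y)
    {τ : ℝ} (hτ : 0 < τ) (u v : ZMod N → ZMod M → ℝ)
    (hlat : ∀ i j, ∃ a : ℤ, v i j = a * τ) :
    ∃ (n : ℕ) (c : ∀ i, Ch τ n (v i)) (γ : ℕ → ℝ), 1 ≤ n ∧ (∀ k < n, |γ k| ≤ 1) ∧
      ∑ _i : ZMod N, ∑ _j : ZMod M, f x0 y0
        + L * ∑ i, ∑ j, (∑ k ∈ range n, γ k * (((c (i + 1)).w (k + 1) j - (c (i + 1)).w k j)
          - ((c i).w (k + 1) j - (c i).w k j))) * (u i (j + 1) - u i j)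
      ≤ ∑ i, ∑ j, f (x0 + (u i j - u (i - 1) j)) (y0 + (v i j - v i (j - 1))) := by
  have hL0 : 0 ≤ L := by
    have h := hL 0 1 0 1
    simp only [sub_zero, abs_one, mul_one] at h
    exact (abs_nonneg _).trans h
  -- number of levels
  obtain ⟨n, hn1, hn⟩ : ∃ n : ℕ, 1 ≤ n ∧ ∀ i j, dr (v i) j ≤ n * τ := by
    obtain ⟨B, hB⟩ : ∃ B : ℝ, ∀ i j, dr (v i) j ≤ B := by
      refine ⟨∑ i, ∑ j, |dr (v i) j|, fun i j => ?_⟩
      refine (le_abs_self _).trans ?_
      refine (Finset.single_le_sum (f := fun j => |dr (v i) j|) (fun _ _ => abs_nonneg _)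
        (Finset.mem_univ j)).trans ?_
      exact Finset.single_le_sum (f := fun i => ∑ j, |dr (v i) j|)
        (fun _ _ => Finset.sum_nonneg fun _ _ => abs_nonneg _) (Finset.mem_univ i)
    obtain ⟨n, hn⟩ := exists_nat_ge (B / τ)
    refine ⟨n + 1, by omega, fun i j => (hB i j).trans ?_⟩
    rw [div_le_iff₀ hτ] at hn
    push_cast
    nlinarith
  have hch : ∀ i, Nonempty (Ch τ n (v i)) := fun i => exists_chain hτ n hn1 (v i) (hn i)
  have c : ∀ i, Ch τ n (v i) := fun i => Classical.choice (hch i)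
  obtain ⟨κ, hκ1, hκ2, hκ3⟩ := exists_kappa3 hx hL x0 y0 hm hτ n
  -- weights
  obtain ⟨γ, hγ1, hγ2⟩ : ∃ γ : ℕ → ℝ, (∀ k < n, |γ k| ≤ 1) ∧
      ∀ k < n, (κ k - κ (k + 1)) / τ = L * γ k := by
    refine ⟨fun k => (κ k - κ (k + 1)) / (L * τ), fun k hk => ?_, fun k hk => ?_⟩
    · have h := hκ3 k hk
      have h0 : 0 ≤ L * τ := by positivity
      simp only
      rw [abs_div, abs_of_nonneg h0]
      exact div_le_one_of_le₀ h h0
    · rcases eq_or_lt_of_le hL0 with h | h
      · have h1 := hκ3 k hk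
        rw [← h, zero_mul] at h1
        have h2 : κ k - κ (k + 1) = 0 := abs_nonpos_iff.1 h1
        rw [h2, ← h]
        simp
      · simp only
        field_simp
  set e : ℕ → ℝ := fun k => (f x0 (y0 - k * τ) - f x0 (y0 - (k + 1 : ℕ) * τ)) / τ with he
  set q : ZMod N → ZMod M → ℝ := fun i j =>
    ∑ k ∈ range n, γ k * ((c i).w (k + 1) j - (c i).w k j) with hq
  -- the pointwise inequality
  have hpt : ∀ i j, f x0 y0 + κ 0 * (u i j - u (i - 1) j)
      + ∑ k ∈ range n, e k * (((c i).w (k + 1) j - (c i).w (k + 1) (j - 1))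
          - ((c i).w k j - (c i).w k (j - 1)))
      + L * ((u i j - u (i - 1) j) * (q i j - q i (j - 1)))
      ≤ f (x0 + (u i j - u (i - 1) j)) (y0 + (v i j - v i (j - 1))) := by
    intro i j
    set X := x0 + (u i j - u (i - 1) j) with hX
    have h := edge (hy X) hτ y0 n (fun k => y0 - dr ((c i).w k) j)
      (fun k => f x0 (y0 - k * τ) + κ k * (X - x0)) ?_ ?_ ?_ ?_ ?_ ?_
    · have e1 : ∀ k ∈ range n, ((f x0 (y0 - (k : ℕ) * τ) + κ k * (X - x0))
            - (f x0 (y0 - (k + 1 : ℕ) * τ) + κ (k + 1) * (X - x0))) / τ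
            * ((y0 - dr ((c i).w (k + 1)) j) - (y0 - dr ((c i).w k) j))
          = e k * (((c i).w (k + 1) j - (c i).w (k + 1) (j - 1))
              - ((c i).w k j - (c i).w k (j - 1)))
            + L * (X - x0) * (γ k * (((c i).w (k + 1) j - (c i).w k j))
              - γ k * ((c i).w (k + 1) (j - 1) - (c i).w k (j - 1))) := by
        intro k hk
        have h1 : ((f x0 (y0 - (k : ℕ) * τ) + κ k * (X - x0))
            - (f x0 (y0 - (k + 1 : ℕ) * τ) + κ (k + 1) * (X - x0))) / τ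
            = e k + (κ k - κ (k + 1)) / τ * (X - x0) := by
          rw [he]
          ring
        rw [h1, hγ2 k (Finset.mem_range.1 hk)]
        unfold dr
        ring
      rw [Finset.sum_congr rfl e1, Finset.sum_add_distrib, ← Finset.mul_sum,
        Finset.sum_sub_distrib] at h
      have e2 : y0 - dr ((c i).w n) j = y0 + (v i j - v i (j - 1)) := by
        rw [(c i).wn]
        unfold dr
        ring
      rw [e2] at h
      have e3 : X - x0 = u i j - u (i - 1) j := by rw [hX]; ring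
      rw [e3] at h
      have e4 : y0 - ((0 : ℕ) : ℝ) * τ = y0 := by simp
      rw [e4] at h
      have e5 : (u i j - u (i - 1) j) * (q i j - q i (j - 1))
          = (u i j - u (i - 1) j) * (∑ k ∈ range n, γ k * ((c i).w (k + 1) j - (c i).w k j)
            - ∑ k ∈ range n, γ k * ((c i).w (k + 1) (j - 1) - (c i).w k (j - 1))) := rfl
      rw [e5]
      linarith
    · simp [(c i).w0, dr]
    · intro k hk
      have := (c i).dle k hk j
      linarith
    · intro k hk hlt
      have h1 : dr ((c i).w k) j < k * τ := by linarith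
      have h2 : 1 ≤ k := by
        by_contra hc
        have h3 : k = 0 := by omega
        subst h3
        simp [(c i).w0, dr] at h1
      linarith [(c i).mono h2 hk h1]
    · intro k hk
      exact hκ1 k hk X
    · intro k hk
      have := hκ2 k hk X
      linarith
    · intro k hk hlt
      simp only [(c i).wn] at hlt ⊢
      obtain ⟨a, ha⟩ := hlat i j
      obtain ⟨b, hb⟩ := hlat i (j - 1)
      have h1 : dr (v i) j = ((b - a : ℤ) : ℝ) * τ := by
        unfold dr
        rw [ha, hb]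
        push_cast
        ring
      rw [h1] at hlt ⊢
      have h2 : ((b - a : ℤ) : ℝ) < ((k + 1 : ℕ) : ℝ) := by
        have : ((b - a : ℤ) : ℝ) * τ < ((k + 1 : ℕ) : ℝ) * τ := by linarith
        exact lt_of_mul_lt_mul_right this hτ.le
      have h3 : b - a < (k : ℤ) + 1 := by exact_mod_cast h2
      have h4 : b - a ≤ (k : ℤ) := by omega
      have h5 : ((b - a : ℤ) : ℝ) ≤ k := by exact_mod_cast h4
      have := mul_le_mul_of_nonneg_right h5 hτ.le
      linarith
  -- sum up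
  have hsum := Finset.sum_le_sum fun i (_ : i ∈ (Finset.univ : Finset (ZMod N))) =>
    Finset.sum_le_sum fun j (_ : j ∈ (Finset.univ : Finset (ZMod M))) => hpt i j
  simp only [Finset.sum_add_distrib, ← Finset.mul_sum] at hsum
  have z1 : ∑ i, ∑ j, (u i j - u (i - 1) j) = 0 := by
    rw [Finset.sum_comm]
    exact Finset.sum_eq_zero fun j _ => sum_shift_sub fun i => u i j
  have z2 : ∑ i : ZMod N, ∑ j, ∑ k ∈ range n,
      e k * (((c i).w (k + 1) j - (c i).w (k + 1) (j - 1)) - ((c i).w k j - (c i).w k (j - 1)))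
      = 0 := by
    refine Finset.sum_eq_zero fun i _ => ?_
    rw [Finset.sum_comm]
    refine Finset.sum_eq_zero fun k _ => ?_
    rw [← Finset.mul_sum, Finset.sum_sub_distrib, sum_shift_sub ((c i).w (k + 1)),
      sum_shift_sub ((c i).w k)]
    simp
  rw [z1, z2, sum_by_parts] at hsum
  refine ⟨n, c, γ, hn1, hγ1, ?_⟩
  have hq3 : ∀ i j, (∑ k ∈ range n, γ k * (((c (i + 1)).w (k + 1) j - (c (i + 1)).w k j)
          - ((c i).w (k + 1) j - (c i).w k j))) = q (i + 1) j - q i j := by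
    intro i j
    simp only [hq, ← Finset.sum_sub_distrib]
    refine Finset.sum_congr rfl fun k _ => ?_
    ring
  simp only [hq3]
  linarith

/-- The discrete inequality, for `v` with values in a lattice. -/
theorem disc_lat3 {f q : ℝ → ℝ → ℝ} {L : ℝ}
    (hx : ∀ y, ConvexOn ℝ Set.univ fun x => f x y)
    (hy : ∀ x, ConvexOn ℝ Set.univ (f x))
    (hL : ∀ x x' y y', |f x' y' - f x' y - f x y' + f x y| ≤ L * |x' - x| * |y' - y|)
    (q1 : CV fun s t => q s t + L * (s * t)) (q2 : CV fun s t => q s t - L * (s * t))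
    (x0 y0 s0 t0 : ℝ)
    (hm : ∀ y y', y ≤ y' → y' ≤ y0 → ConvexOn ℝ Set.univ fun x => f x y' - f x y) {τ : ℝ} (hτ : 0 < τ) (u v : ZMod N → ZMod M → ℝ)
    (hlat : ∀ i j, ∃ a : ℤ, v i j = a * τ) :
    ∑ _i : ZMod N, ∑ _j : ZMod M, (f x0 y0 + q s0 t0)
      ≤ ∑ i, ∑ j, (f (x0 + (u i j - u (i - 1) j)) (y0 + (v i j - v i (j - 1)))
        + q (s0 + (u i (j + 1) - u i j)) (t0 + (v (i + 1) j - v i j))) := by
  obtain ⟨n, c, γ, hn1, hγ1, hcore⟩ := core hx hy hL x0 y0 hm hτ u v hlat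
  set Q : ℝ → ℝ → ℝ := fun s t => q (s0 + s) (t0 + t) with hQ
  have Q1 : CV fun s t => Q s t + L * (s * t) := by
    intro s t s' t' l hl0 hl1
    have := q1 (s0 + s) (t0 + t) (s0 + s') (t0 + t') l hl0 hl1
    rw [show (1 - l) * (s0 + s) + l * (s0 + s') = s0 + ((1 - l) * s + l * s') by ring,
      show (1 - l) * (t0 + t) + l * (t0 + t') = t0 + ((1 - l) * t + l * t') by ring] at this
    simp only [hQ]
    linarith
  have Q2 : CV fun s t => Q s t - L * (s * t) := by
    intro s t s' t' l hl0 hl1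
    have := q2 (s0 + s) (t0 + t) (s0 + s') (t0 + t') l hl0 hl1
    rw [show (1 - l) * (s0 + s) + l * (s0 + s') = s0 + ((1 - l) * s + l * s') by ring,
      show (1 - l) * (t0 + t) + l * (t0 + t') = t0 + ((1 - l) * t + l * t') by ring] at this
    simp only [hQ]
    linarith
  have Qb := CV.base Q1 Q2
  obtain ⟨p, hp⟩ := subgrad (Qb.conv_left 0) 0
  simp only [sub_zero] at hp
  -- the inequality for every `ε`
  have key : ∀ ε : ℝ, 0 < ε → ∑ _i : ZMod N, ∑ _j : ZMod M, Q 0 0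
      ≤ ∑ i, ∑ j, (Q (u i (j + 1) - u i j) (v (i + 1) j - v i j)
        + L * ((∑ k ∈ range n, γ k * (((c (i + 1)).w (k + 1) j - (c (i + 1)).w k j)
          - ((c i).w (k + 1) j - (c i).w k j))) * (u i (j + 1) - u i j))
        + ε * (u i (j + 1) - u i j) ^ 2) := by
    intro ε hε
    have hΨ : ∀ γ : ℝ, |γ| ≤ 1 → ∃ G : ℝ → ℝ → ℝ,
        (∀ e η d, Psi Q L ε p e η + G e η * d ≤ Psi Q L ε p (e + d) (η + γ * d)) ∧
        ∀ e η a α, 0 ≤ a → |α| ≤ 1 → G e η ≤ G (e + a) (η + α * a) :=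
      fun γ hγ => exists_slope Q1 Q2 hε hγ
    obtain ⟨G, hG1, -⟩ := hΨ (γ 0) (hγ1 0 (by omega))
    have h1 : ∀ i, ∑ j, (Psi Q L ε p 0 0 + G 0 0 * ((c (i + 1)).w 1 j - (c i).w 1 j))
        ≤ ∑ j, Psi Q L ε p (v (i + 1) j - v i j)
          (∑ k ∈ range n, γ k * (((c (i + 1)).w (k + 1) j - (c (i + 1)).w k j)
          - ((c i).w (k + 1) j - (c i).w k j))) := by
      intro i
      have h2 := Ch.psi_all (c (i + 1)) (c i) hτ γ hγ1 hΨ hn1 le_rfl
      simp only [(c (i + 1)).wn, (c i).wn] at h2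
      refine (Finset.sum_le_sum fun j _ => ?_).trans h2
      have h3 := hG1 0 0 ((c (i + 1)).w 1 j - (c i).w 1 j)
      rw [zero_add, zero_add] at h3
      exact h3
    have h2 := Finset.sum_le_sum fun i (_ : i ∈ (Finset.univ : Finset (ZMod N))) => h1 i
    have z1 : ∑ i : ZMod N, ∑ j : ZMod M, (G 0 0 * ((c (i + 1)).w 1 j - (c i).w 1 j)) = 0 := by
      rw [Finset.sum_comm]
      refine Finset.sum_eq_zero fun j _ => ?_
      rw [← Finset.mul_sum, Finset.sum_sub_distrib]
      have : ∑ i : ZMod N, (c (i + 1)).w 1 j = ∑ i, (c i).w 1 j :=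
        Equiv.sum_comp (Equiv.addRight (1 : ZMod N)) (fun i => (c i).w 1 j)
      rw [this]
      simp
    have z2 : ∑ i : ZMod N, ∑ j : ZMod M, p * (u i (j + 1) - u i j) = 0 := by
      refine Finset.sum_eq_zero fun i _ => ?_
      rw [← Finset.mul_sum, Finset.sum_sub_distrib]
      have : ∑ j : ZMod M, u i (j + 1) = ∑ j, u i j :=
        Equiv.sum_comp (Equiv.addRight (1 : ZMod M)) (fun j => u i j)
      rw [this]
      simp
    have h3 : ∀ i j, Psi Q L ε p (v (i + 1) j - v i j)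
          (∑ k ∈ range n, γ k * (((c (i + 1)).w (k + 1) j - (c (i + 1)).w k j)
          - ((c i).w (k + 1) j - (c i).w k j))) + p * (u i (j + 1) - u i j)
        ≤ Q (u i (j + 1) - u i j) (v (i + 1) j - v i j)
        + L * ((∑ k ∈ range n, γ k * (((c (i + 1)).w (k + 1) j - (c (i + 1)).w k j)
          - ((c i).w (k + 1) j - (c i).w k j))) * (u i (j + 1) - u i j))
        + ε * (u i (j + 1) - u i j) ^ 2 := by
      intro i j
      have := Psi_le (κ := L) (p := p) Qb hε (u i (j + 1) - u i j) (v (i + 1) j - v i j)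
        (∑ k ∈ range n, γ k * (((c (i + 1)).w (k + 1) j - (c (i + 1)).w k j)
          - ((c i).w (k + 1) j - (c i).w k j)))
      unfold th at this
      nlinarith
    refine le_trans ?_ (Finset.sum_le_sum fun i _ => Finset.sum_le_sum fun j _ => h3 i j)
    have h4 : Psi Q L ε p 0 0 = Q 0 0 := Psi_zero Qb hε hp
    simp only [Finset.sum_add_distrib] at h2 ⊢
    simp only [z1, z2, add_zero, h4] at h2 ⊢
    exact h2
  -- let `ε` tend to zero
  set A := ∑ i, ∑ j, (Q (u i (j + 1) - u i j) (v (i + 1) j - v i j)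
        + L * ((∑ k ∈ range n, γ k * (((c (i + 1)).w (k + 1) j - (c (i + 1)).w k j)
          - ((c i).w (k + 1) j - (c i).w k j))) * (u i (j + 1) - u i j))) with hA
  have key2 : ∑ _i : ZMod N, ∑ _j : ZMod M, Q 0 0 ≤ A := by
    refine le_of_forall_pos_le_add fun ε hε => ?_
    set B := ∑ i, ∑ j, (u i (j + 1) - u i j) ^ 2 with hB
    have hB0 : 0 ≤ B := Finset.sum_nonneg fun i _ => Finset.sum_nonneg fun j _ => sq_nonneg _
    have h1 := key (ε / (B + 1)) (by positivity)
    have e1 : ∑ i, ∑ j, (Q (u i (j + 1) - u i j) (v (i + 1) j - v i j)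
        + L * ((∑ k ∈ range n, γ k * (((c (i + 1)).w (k + 1) j - (c (i + 1)).w k j)
          - ((c i).w (k + 1) j - (c i).w k j))) * (u i (j + 1) - u i j))
        + ε / (B + 1) * (u i (j + 1) - u i j) ^ 2) = A + ε / (B + 1) * B := by
      rw [hA, hB, Finset.mul_sum, ← Finset.sum_add_distrib]
      refine Finset.sum_congr rfl fun i _ => ?_
      rw [Finset.mul_sum, ← Finset.sum_add_distrib]
    rw [e1] at h1
    have e2 : ε / (B + 1) * B ≤ ε := by
      rw [div_mul_eq_mul_div, div_le_iff₀ (by positivity)]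
      nlinarith
    linarith
  have e0 : Q 0 0 = q s0 t0 := by simp [hQ]
  have e3 : A = ∑ i, ∑ j, q (s0 + (u i (j + 1) - u i j)) (t0 + (v (i + 1) j - v i j))
      + L * ∑ i, ∑ j, (∑ k ∈ range n, γ k * (((c (i + 1)).w (k + 1) j - (c (i + 1)).w k j)
          - ((c i).w (k + 1) j - (c i).w k j))) * (u i (j + 1) - u i j) := by
    rw [hA, Finset.mul_sum, ← Finset.sum_add_distrib]
    refine Finset.sum_congr rfl fun i _ => ?_
    rw [Finset.mul_sum, ← Finset.sum_add_distrib]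
  rw [e0, e3] at key2
  simp only [Finset.sum_add_distrib] at hcore key2 ⊢
  linarith

end Pool.Agent.V5helper21.Mor
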