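import Pool.Agent.V5helper21.Mor.Slice
import Pool.Agent.V5helper21.Mor.Blow
import Pool.Agent.Helper188.Morrey.Basic
import Pool.Agent.N555.MQ.Fin2

/-!
# Rank-one convexity of `f(F₀₀, F₁₁) + q(F₀₁, F₁₀) + c det F`, `f₁₂` monotone on horizontal lines
-/

set_option autoImplicit false

open MeasureTheory Set Filter Topology Matrix
open Pool.Agent.W779.Morrey
open Pool.Agent.Helper188.Morrey (RankOneConvex)

namespace Pool.Agent.V5helper21.Mor

/-! ### Midpoint convexity -/

theorem mid_unit {ψ : ℝ → ℝ} (hc : Continuous ψ) (hm : ∀ x h, 2 * ψ x ≤ ψ (x + h) + ψ (x - h))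
    {l : ℝ} (h0 : 0 ≤ l) (h1 : l ≤ 1) : ψ l ≤ (1 - l) * ψ 0 + l * ψ 1 := by
  by_contra hcon
  push Not at hcon
  set g : ℝ → ℝ := fun l => ψ l - ((1 - l) * ψ 0 + l * ψ 1) with hg
  have hgc : Continuous g := by
    rw [hg]
    fun_prop
  have hgm : ∀ x h, 2 * g x ≤ g (x + h) + g (x - h) := by
    intro x h
    have := hm x h
    simp only [hg]
    linarith
  have hg0 : g 0 = 0 := by simp [hg]
  have hg1 : g 1 = 0 := by simp [hg]
  have hgl : 0 < g l := by simp only [hg]; linarith
  obtain ⟨l0, hl0, hmax⟩ := isCompact_Icc.exists_isMaxOn (⟨l, h0, h1⟩ : (Icc (0 : ℝ) 1).Nonempty)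
    hgc.continuousOn
  have hM : 0 < g l0 := lt_of_lt_of_le hgl (hmax ⟨h0, h1⟩)
  set S : Set ℝ := Icc 0 1 ∩ {z | g z = g l0} with hS
  have hSc : IsCompact S := isCompact_Icc.inter_right (isClosed_eq hgc continuous_const)
  have hSne : S.Nonempty := ⟨l0, hl0, rfl⟩
  have hl1 := hSc.sInf_mem hSne
  set l1 := sInf S with hl1d
  obtain ⟨⟨a1, a2⟩, a3⟩ := hl1
  have a3' : g l1 = g l0 := a3
  have b1 : 0 < l1 := by
    rcases eq_or_lt_of_le a1 with h | h
    · rw [← h, hg0] at a3'
      linarith
    · exact h
  have b2 : l1 < 1 := by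
    rcases eq_or_lt_of_le a2 with h | h
    · rw [h, hg1] at a3'
      linarith
    · exact h
  set h := min l1 (1 - l1) with hh
  have c1 : 0 < h := lt_min b1 (by linarith)
  have c2 : h ≤ l1 := min_le_left _ _
  have c3 : h ≤ 1 - l1 := min_le_right _ _
  have d1 : g (l1 + h) ≤ g l0 := hmax ⟨by linarith, by linarith⟩
  have d2 : g (l1 - h) ≤ g l0 := hmax ⟨by linarith, by linarith⟩
  have d3 : g (l1 - h) ≠ g l0 := by
    intro he
    have : l1 ≤ l1 - h := csInf_le hSc.bddBelow ⟨⟨by linarith, by linarith⟩, he⟩
    linarith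
  have d4 : g (l1 - h) < g l0 := lt_of_le_of_ne d2 d3
  have := hgm l1 h
  linarith

theorem CV.of_mid {Q : ℝ → ℝ → ℝ} (hc : Continuous fun z : ℝ × ℝ => Q z.1 z.2)
    (hm : ∀ s t c d, 2 * Q s t ≤ Q (s + c) (t + d) + Q (s - c) (t - d)) : CV Q := by
  intro s t s' t' l hl0 hl1
  set ψ : ℝ → ℝ := fun l => Q ((1 - l) * s + l * s') ((1 - l) * t + l * t') with hψ
  have hψc : Continuous ψ := by
    have : Continuous fun l : ℝ => (((1 - l) * s + l * s'), ((1 - l) * t + l * t')) := by fun_prop
    exact hc.comp this
  have := mid_unit hψc (fun x h => ?_) hl0 hl1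
  · simpa [hψ] using this
  · have := hm ((1 - x) * s + x * s') ((1 - x) * t + x * t') (h * (s' - s)) (h * (t' - t))
    simp only [hψ]
    rw [show (1 - (x + h)) * s + (x + h) * s' = (1 - x) * s + x * s' + h * (s' - s) by ring,
      show (1 - (x + h)) * t + (x + h) * t' = (1 - x) * t + x * t' + h * (t' - t) by ring,
      show (1 - (x - h)) * s + (x - h) * s' = (1 - x) * s + x * s' - h * (s' - s) by ring,
      show (1 - (x - h)) * t + (x - h) * t' = (1 - x) * t + x * t' - h * (t' - t) by ring]
    exact this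

/-! ### Linear growth -/

theorem exists_lim {g : ℝ → ℝ} (hg : ConvexOn ℝ Set.univ g) {C : ℝ}
    (hC : ∀ x, 0 ≤ x → g x ≤ C * (1 + |x|)) : ∃ G, Tendsto (fun x => g x / x) atTop (𝓝 G) := by
  set h : ℝ → ℝ := fun x => (g (max x 1) - g 0) / max x 1 with hh
  have hpos : ∀ x : ℝ, 0 < max x 1 := fun x => lt_of_lt_of_le one_pos (le_max_right _ _)
  have hmono : Monotone h := by
    intro x y hxy
    have := hg.secant_mono (a := 0) (x := max x 1) (y := max y 1) (mem_univ _) (mem_univ _)
      (mem_univ _) (hpos x).ne' (hpos y).ne' (max_le_max_right 1 hxy)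
    simpa [hh] using this
  have hbdd : BddAbove (range h) := by
    refine ⟨C + |C| + |g 0|, ?_⟩
    rintro _ ⟨x, rfl⟩
    simp only [hh]
    rw [div_le_iff₀ (hpos x)]
    have h1 := hC (max x 1) (hpos x).le
    rw [abs_of_pos (hpos x)] at h1
    have h2 : (1 : ℝ) ≤ max x 1 := le_max_right _ _
    have h3 := le_abs_self C
    have h4 := neg_abs_le (g 0)
    have h5 := abs_nonneg C
    have h6 := abs_nonneg (g 0)
    nlinarith
  have h1 := tendsto_atTop_ciSup hmono hbdd
  have h2 : Tendsto (fun x : ℝ => g 0 / x) atTop (𝓝 0) := tendsto_const_nhds.div_atTop tendsto_id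
  refine ⟨⨆ x, h x, ?_⟩
  have h3 := h1.add h2
  rw [add_zero] at h3
  refine h3.congr' ?_
  filter_upwards [eventually_ge_atTop 1] with x hx
  simp only [hh, max_eq_left hx]
  rw [← add_div]
  congr 1
  ring

/-! ### Second differences -/

/-- nonnegativity of the second differences of `f(F₀₀, F₁₁) + q(F₀₁, F₁₀)` in rank-one
directions -/
def SD (f q : ℝ → ℝ → ℝ) : Prop := ∀ x y s t a b c d : ℝ, a * b = c * d →
  2 * (f x y + q s t)
    ≤ f (x + a) (y + b) + f (x - a) (y - b) + (q (s + c) (t + d) + q (s - c) (t - d))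

theorem SD.neg_right {f q : ℝ → ℝ → ℝ} (h : SD f q) :
    SD (fun x y => f x (-y)) fun s t => q s (-t) := by
  intro x y s t a b c d hab
  have := h x (-y) s (-t) a (-b) c (-d) (by linarith)
  rw [show -y + -b = -(y + b) by ring, show -y - -b = -(y - b) by ring,
    show -t + -d = -(t + d) by ring, show -t - -d = -(t - d) by ring] at this
  exact this

theorem SD.neg_left {f q : ℝ → ℝ → ℝ} (h : SD f q) :
    SD (fun x y => f (-x) y) fun s t => q (-s) t := by
  intro x y s t a b c d hab
  have := h (-x) y (-s) t (-a) b (-c) d (by linarith)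
  rw [show -x + -a = -(x + a) by ring, show -x - -a = -(x - a) by ring,
    show -s + -c = -(s + c) by ring, show -s - -c = -(s - c) by ring] at this
  exact this

theorem SD.swap {f q : ℝ → ℝ → ℝ} (h : SD f q) :
    SD (fun x y => f y x) fun s t => q t s := by
  intro x y s t a b c d hab
  exact h y x t s b a d c (by linarith)

section

variable {f q : ℝ → ℝ → ℝ}
  (hx : ∀ y, ConvexOn ℝ Set.univ fun x => f x y)
  (hy : ∀ x, ConvexOn ℝ Set.univ (f x))
  (hq : Continuous fun z : ℝ × ℝ => q z.1 z.2)
  (hSD : SD f q)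
include hx hy hq hSD

/-- convexity of `q + κ s t` for the slopes `κ` of the recession function -/
theorem cv_slope {A : ℝ → ℝ} (hA : ∀ y, Tendsto (fun x => f x y / x) atTop (𝓝 (A y)))
    {y y' κ : ℝ} (hyy : y < y') (hκ : κ * (y' - y) = A y' - A y) :
    CV fun s t => q s t + κ * (s * t) := by
  have hr : 0 < y' - y := by linarith
  refine CV.of_mid ?_ fun s t c d => ?_
  · exact hq.add (by fun_prop)
  have hgoal : 0 ≤ q (s + c) (t + d) + q (s - c) (t - d) - 2 * q s t + 2 * κ * (c * d) → 
      2 * (q s t + κ * (s * t)) ≤ q (s + c) (t + d) + κ * ((s + c) * (t + d))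
        + (q (s - c) (t - d) + κ * ((s - c) * (t - d))) := by
    intro h
    nlinarith
  apply hgoal
  rcases lt_trichotomy 0 (c * d) with h | h | h
  · have := blow hx hy hA h (θ := 2 * q s t - q (s + c) (t + d) - q (s - c) (t - d))
      (fun x y a β _ _ hab => by
        have := hSD x y s t a β c d hab
        linarith) hyy
    rw [← hκ] at this
    have h2 : (2 * q s t - q (s + c) (t + d) - q (s - c) (t - d) - 2 * (c * d) * κ) * (y' - y) ≤ 0 := by
      linarith
    have h3 := nonpos_of_mul_nonpos_left h2 hr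
    linarith
  · have := hSD 0 0 s t 0 0 c d (by linarith)
    simp only [add_zero, sub_zero] at this
    rw [← h]
    linarith
  · have h' : 0 < c * (-d) := by linarith
    have rx : ∀ y, ConvexOn ℝ Set.univ fun x => f x (-y) := fun y => hx (-y)
    have ry : ∀ x, ConvexOn ℝ Set.univ fun y => f x (-y) := fun x => convexOn_comp_neg (hy x)
    have := blow rx ry (A := fun y => A (-y)) (fun y => hA (-y)) h'
      (θ := 2 * q s t - q (s + c) (t + d) - q (s - c) (t - d))
      (fun x y a β _ _ hab => by
        have := hSD x (-y) s t a (-β) c d (by linarith)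
        rw [show -y + -β = -(y + β) by ring, show -y - -β = -(y - β) by ring] at this
        linarith) (neg_lt_neg hyy)
    simp only [neg_neg] at this
    have e : A y - A y' = -(κ * (y' - y)) := by linarith
    rw [e] at this
    have h2 : (2 * q s t - q (s + c) (t + d) - q (s - c) (t - d) - 2 * (c * d) * κ) * (y' - y) ≤ 0 := by
      nlinarith
    have h3 := nonpos_of_mul_nonpos_left h2 hr
    linarith

/-- The admissible range of the constants. -/
theorem exists_range (hg : ∀ y, ∃ C, ∀ x, |f x y| ≤ C * (1 + |x|)) (hM : MonoSlices f) :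
    ∃ k₁ k₂ : ℝ, (CV fun s t => q s t + k₁ * (s * t)) ∧ (CV fun s t => q s t + k₂ * (s * t)) ∧
      ∀ x x' y y', x ≤ x' → y ≤ y' →
        k₁ * ((x' - x) * (y' - y)) ≤ f x' y' - f x' y - f x y' + f x y ∧
        f x' y' - f x' y - f x y' + f x y ≤ k₂ * ((x' - x) * (y' - y)) := by
  -- the recession functions
  have hA1 : ∀ y, ∃ G, Tendsto (fun x => f x y / x) atTop (𝓝 G) := fun y => by
    obtain ⟨C, hC⟩ := hg y
    exact exists_lim (hx y) fun x _ => (le_abs_self _).trans (hC x)
  choose A hA using hA1
  have rx : ∀ y, ConvexOn ℝ Set.univ fun x => f (-x) y := fun y => convexOn_comp_neg (hx y)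
  have hB1 : ∀ y, ∃ G, Tendsto (fun x => f (-x) y / x) atTop (𝓝 G) := fun y => by
    obtain ⟨C, hC⟩ := hg y
    exact exists_lim (rx y) fun x _ => by
      have := (le_abs_self _).trans (hC (-x))
      rwa [abs_neg] at this
  choose B hB using hB1
  set S : Set ℝ := {κ | CV fun s t => q s t + κ * (s * t)} with hS
  have hSA : ∀ y y', y < y' → (A y' - A y) / (y' - y) ∈ S := by
    intro y y' h
    have : y' - y ≠ 0 := by linarith
    exact cv_slope hx hy hq hSD hA h (div_mul_cancel₀ _ this)
  have hSB : ∀ y y', y < y' → -((B y' - B y) / (y' - y)) ∈ S := by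
    intro y y' h
    have h0 : y' - y ≠ 0 := by linarith
    have hq' : Continuous fun z : ℝ × ℝ => q (-z.1) z.2 :=
      hq.comp (f := fun z : ℝ × ℝ => (-z.1, z.2)) (by fun_prop)
    have h1 := cv_slope (f := fun x y => f (-x) y) (q := fun s t => q (-s) t) rx
      (fun x => hy (-x)) hq' hSD.neg_left hB h (div_mul_cancel₀ _ h0)
    have h2 := h1.neg_left
    have e : (fun s t : ℝ => q (- -s) t + (B y' - B y) / (y' - y) * (-s * t))
        = fun s t => q s t + -((B y' - B y) / (y' - y)) * (s * t) := by
      funext s t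
      rw [neg_neg]
      ring
    rw [e] at h2
    exact h2
  have hne : S.Nonempty := ⟨_, hSA 0 1 one_pos⟩
  have hup : BddAbove S := by
    refine ⟨(q 1 (-1) + q (-1) 1 - 2 * q 0 0) / 2, fun κ hκ => ?_⟩
    have h1 := hκ 1 (-1) (-1) 1 (1 / 2) (by norm_num) (by norm_num)
    norm_num at h1
    linarith
  have hlo : BddBelow S := by
    refine ⟨-((q 1 1 + q (-1) (-1) - 2 * q 0 0) / 2), fun κ hκ => ?_⟩
    have h1 := hκ 1 1 (-1) (-1) (1 / 2) (by norm_num) (by norm_num)
    norm_num at h1
    linarith
  have hcl : IsClosed S := by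
    have : S = ⋂ (s : ℝ) (t : ℝ) (s' : ℝ) (t' : ℝ) (l : ℝ) (_ : 0 ≤ l) (_ : l ≤ 1),
        {κ : ℝ | q ((1 - l) * s + l * s') ((1 - l) * t + l * t')
            + κ * (((1 - l) * s + l * s') * ((1 - l) * t + l * t'))
          ≤ (1 - l) * (q s t + κ * (s * t)) + l * (q s' t' + κ * (s' * t'))} := by
      ext κ
      simp only [hS, CV, mem_ofPred_eq, mem_iInter]
    rw [this]
    refine isClosed_iInter fun s => isClosed_iInter fun t => isClosed_iInter fun s' =>
      isClosed_iInter fun t' => isClosed_iInter fun l => isClosed_iInter fun _ =>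
      isClosed_iInter fun _ => ?_
    exact isClosed_le (by fun_prop) (by fun_prop)
  set k₁ := sInf S with hk₁
  set k₂ := sSup S with hk₂
  have m1 : k₁ ∈ S := hcl.csInf_mem hne hlo
  have m2 : k₂ ∈ S := hcl.csSup_mem hne hup
  have l1 : ∀ κ ∈ S, k₁ ≤ κ := fun κ h => csInf_le hlo h
  have l2 : ∀ κ ∈ S, κ ≤ k₂ := fun κ h => le_csSup hup h
  refine ⟨k₁, k₂, m1, m2, ?_⟩
  -- limits of difference quotients
  have limA : ∀ (x c : ℝ) (y y' : ℝ), Tendsto (fun X => ((f X y' - f X y) / (y' - y) - c) / (X - x))
      atTop (𝓝 ((A y' - A y) / (y' - y))) := by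
    intro x c y y'
    have a1 := ((hA y').sub (hA y)).div_const (y' - y)
    have a2 : Tendsto (fun X : ℝ => c / X) atTop (𝓝 0) := tendsto_const_nhds.div_atTop tendsto_id
    have a3 : Tendsto (fun X : ℝ => x / X) atTop (𝓝 0) := tendsto_const_nhds.div_atTop tendsto_id
    have a4 := (a1.sub a2).div (tendsto_const_nhds.sub a3 : Tendsto (fun X : ℝ => 1 - x / X)
        atTop (𝓝 (1 - 0))) (by norm_num)
    rw [sub_zero, sub_zero, div_one] at a4
    refine a4.congr' ?_
    filter_upwards [eventually_gt_atTop 0, eventually_gt_atTop x] with X hX hX'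
    have h1 : X - x ≠ 0 := by linarith
    have h2 : 1 - x / X ≠ 0 := by
      rw [Ne, sub_eq_zero]
      intro h
      rw [eq_div_iff hX.ne'] at h
      linarith
    simp only [Pi.div_apply]
    rw [div_eq_div_iff h2 h1]
    field_simp
  have limB : ∀ (x c : ℝ) (y y' : ℝ),
      Tendsto (fun X => (c - (f (-X) y' - f (-X) y) / (y' - y)) / (X + x))
      atTop (𝓝 (-((B y' - B y) / (y' - y)))) := by
    intro x c y y'
    have a1 := ((hB y').sub (hB y)).div_const (y' - y)
    have a2 : Tendsto (fun X : ℝ => c / X) atTop (𝓝 0) := tendsto_const_nhds.div_atTop tendsto_id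
    have a3 : Tendsto (fun X : ℝ => x / X) atTop (𝓝 0) := tendsto_const_nhds.div_atTop tendsto_id
    have a4 := (a2.sub a1).div (tendsto_const_nhds.add a3 : Tendsto (fun X : ℝ => 1 + x / X)
        atTop (𝓝 (1 + 0))) (by norm_num)
    rw [zero_sub, add_zero, div_one] at a4
    refine a4.congr' ?_
    filter_upwards [eventually_gt_atTop 0, eventually_gt_atTop (-x)] with X hX hX'
    have h1 : X + x ≠ 0 := by linarith
    have h2 : 1 + x / X ≠ 0 := by
      intro h
      have : (1 + x / X) * X = 0 := by rw [h, zero_mul]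
      rw [add_mul, div_mul_cancel₀ _ hX.ne'] at this
      linarith
    simp only [Pi.div_apply]
    rw [div_eq_div_iff h2 h1]
    field_simp
  -- the slopes of the right derivatives
  have hRD : ∀ x x' y, x < x' → k₁ * (x' - x) ≤ RD f x' y - RD f x y ∧
      RD f x' y - RD f x y ≤ k₂ * (x' - x) := by
    intro x x' y hxx
    have hxx' : 0 < x' - x := by linarith
    have bA1 := l2 _ (hSA y (y + 1) (by linarith))
    have bA2 := l1 _ (hSA (y - 1) y (by linarith))
    have bB1 := l1 _ (hSB y (y + 1) (by linarith))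
    have bB2 := l2 _ (hSB (y - 1) y (by linarith))
    rcases hM y with hcv | hcc
    · constructor
      · -- slope at `-∞`
        have key : k₁ ≤ (RD f x' y - RD f x y) / (x' - x) := by
          refine bB1.trans ?_
          refine le_of_tendsto (limB x (RD f x y) y (y + 1)) ?_
          filter_upwards [eventually_gt_atTop (-x), eventually_gt_atTop 0] with X hX hX0
          have hX1 : 0 < X + x := by linarith
          have s1 := hcv.slope_mono_adjacent (mem_univ (-X)) (mem_univ x')
            (show -X < x by linarith) hxx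
          have s2 := RD_le_quot hy (-X) y one_pos
          refine le_trans ?_ s1
          rw [show x - -X = X + x by ring, div_le_div_iff_of_pos_right hX1]
          rw [add_sub_cancel_left]
          linarith
        rwa [le_div_iff₀ hxx'] at key
      · have key : (RD f x' y - RD f x y) / (x' - x) ≤ k₂ := by
          refine le_trans ?_ bA1
          refine ge_of_tendsto (limA x (RD f x y) y (y + 1)) ?_
          filter_upwards [eventually_gt_atTop x'] with X hX
          have hX1 : 0 < X - x := by linarith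
          have s1 := hcv.secant_mono (a := x) (x := x') (y := X) (mem_univ _) (mem_univ _)
            (mem_univ _) hxx.ne' (by linarith) hX.le
          have s2 := RD_le_quot hy X y one_pos
          refine s1.trans ?_
          rw [div_le_div_iff_of_pos_right hX1, add_sub_cancel_left]
          linarith
        rwa [div_le_iff₀ hxx'] at key
    · constructor
      · have key : k₁ ≤ (RD f x' y - RD f x y) / (x' - x) := by
          refine bA2.trans ?_
          refine le_of_tendsto (limA x (RD f x y) (y - 1) y) ?_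
          filter_upwards [eventually_gt_atTop x'] with X hX
          have hX1 : 0 < X - x := by linarith
          have s1 := hcc.neg.secant_mono (a := x) (x := x') (y := X) (mem_univ _) (mem_univ _)
            (mem_univ _) hxx.ne' (by linarith) hX.le
          simp only [Pi.neg_apply] at s1
          have s2 := quot_le_RD hy X y one_pos
          rw [div_le_div_iff₀ hxx' hX1] at s1
          rw [div_le_div_iff₀ hX1 hxx', sub_sub_cancel]
          have s3 := mul_le_mul_of_nonneg_right s2 hxx'.le
          nlinarith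
        rwa [le_div_iff₀ hxx'] at key
      · have key : (RD f x' y - RD f x y) / (x' - x) ≤ k₂ := by
          refine le_trans ?_ bB2
          refine ge_of_tendsto (limB x (RD f x y) (y - 1) y) ?_
          filter_upwards [eventually_gt_atTop (-x), eventually_gt_atTop 0] with X hX hX0
          have hX1 : 0 < X + x := by linarith
          have s1 := hcc.slope_anti_adjacent (mem_univ (-X)) (mem_univ x')
            (show -X < x by linarith) hxx
          have s2 := quot_le_RD hy (-X) y one_pos
          refine s1.trans ?_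
          rw [show x - -X = X + x by ring, div_le_div_iff_of_pos_right hX1]
          rw [sub_sub_cancel]
          linarith
        rwa [div_le_iff₀ hxx'] at key
  -- integration
  intro x x' y y' hxx hyy
  rcases eq_or_lt_of_le hxx with he | hlt
  · rw [he]
    constructor <;> simp
  have hi : ∀ y : ℝ, y ∈ interior (Set.univ : Set ℝ) := fun y => by simp
  have hd : ∀ z y, HasDerivWithinAt (f z) (RD f z y) (Ici y) y := fun z y =>
    ((hy z).hasDerivWithinAt_rightDeriv_of_mem_interior (hi y)).Ici_of_Ioi
  have hlin : ∀ (k : ℝ) (η : ℝ), HasDerivWithinAt (fun η => k * (x' - x) * η) (k * (x' - x))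
      (Ici η) η := fun k η => by
    simpa using (hasDerivWithinAt_id η (Ici η)).const_mul (k * (x' - x))
  constructor
  · have := image_le_of_deriv_right_le_deriv_boundary (a := y) (b := y')
      (f := fun η => k₁ * (x' - x) * η) (f' := fun _ => k₁ * (x' - x))
      (B := fun η => f x' η - f x η + (k₁ * (x' - x) * y - (f x' y - f x y)))
      (B' := fun η => RD f x' η - RD f x η)
      (by fun_prop) (fun η _ => hlin k₁ η) (by simp)
      (((cont_snd hy x').sub (cont_snd hy x)).add continuous_const).continuousOn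
      (fun η _ => ((hd x' η).sub (hd x η)).add_const _)
      (fun η _ => (hRD x x' η hlt).1) (right_mem_Icc.2 hyy)
    linarith
  · have := image_le_of_deriv_right_le_deriv_boundary (a := y) (b := y')
      (f := fun η => f x' η - f x η) (f' := fun η => RD f x' η - RD f x η)
      (B := fun η => k₂ * (x' - x) * η + (f x' y - f x y - k₂ * (x' - x) * y))
      (B' := fun _ => k₂ * (x' - x))
      ((cont_snd hy x').sub (cont_snd hy x)).continuousOn
      (fun η _ => (hd x' η).sub (hd x η)) (by simp)
      (by fun_prop) (fun η _ => (hlin k₂ η).add_const _)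
      (fun η _ => (hRD x x' η hlt).2) (right_mem_Icc.2 hyy)
    linarith

end

end Pool.Agent.V5helper21.Mor
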