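import Pool.Agent.V5helper21.Mor.Grid2
import Pool.Agent.V5helper21.Mor.Disc2
import Pool.Agent.N555.MQ.Fin2

/-!
# Functions of the diagonal plus the square of the off-diagonal part
-/

set_option autoImplicit false

open MeasureTheory Set Filter Topology
open Pool.Agent.W779.Morrey

namespace Pool.Agent.V5helper21.Mor

/-- the function `f(F₀₀, F₁₁) + K (F₀₁² + F₁₀²)` -/
def Wf (f : ℝ → ℝ → ℝ) (K : ℝ) (F : E) : ℝ := f (F 0 0) (F 1 1) + K * (F 0 1 ^ 2 + F 1 0 ^ 2)

theorem DQ_mono {f : ℝ → ℝ → ℝ} {K : ℝ}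
    (hx : ∀ y, ConvexOn ℝ Set.univ fun x => f x y)
    (hy : ∀ x, ConvexOn ℝ Set.univ (f x))
    (hm : ∀ y y', y ≤ y' → ConvexOn ℝ Set.univ fun x => f x y' - f x y)
    (hL : ∀ x x' y y', |f x' y' - f x' y - f x y' + f x y| ≤ 2 * K * |x' - x| * |y' - y|) :
    DQ (Wf f K) := by
  intro n _ F₀ u v
  have h := disc hx hy hm hL (F₀ 0 0) (F₀ 1 1) u v
  have s1 : ∑ i : ZMod n, ∑ j : ZMod n, (u i (j + 1) - u i j) = 0 := by
    refine Finset.sum_eq_zero fun i _ => ?_
    rw [Finset.sum_sub_distrib, sub_eq_zero]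
    exact Equiv.sum_comp (Equiv.addRight (1 : ZMod n)) (fun j => u i j)
  have s2 : ∑ i : ZMod n, ∑ j : ZMod n, (v (i + 1) j - v i j) = 0 := by
    rw [Finset.sum_comm]
    refine Finset.sum_eq_zero fun j _ => ?_
    rw [Finset.sum_sub_distrib, sub_eq_zero]
    exact Equiv.sum_comp (Equiv.addRight (1 : ZMod n)) (fun i => v i j)
  have e : ∀ i j : ZMod n, Wf f K (F₀ + Dm u v i j)
      = f (F₀ 0 0 + (u i j - u (i - 1) j)) (F₀ 1 1 + (v i j - v i (j - 1)))
        + K * ((u i (j + 1) - u i j) ^ 2 + (v (i + 1) j - v i j) ^ 2)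
        + (K * (F₀ 0 1 ^ 2 + F₀ 1 0 ^ 2) + 2 * K * F₀ 0 1 * (u i (j + 1) - u i j)
          + 2 * K * F₀ 1 0 * (v (i + 1) j - v i j)) := by
    intro i j
    simp only [Wf, Dm, Pi.add_apply, Matrix.cons_val_zero, Matrix.cons_val_one]
    ring
  simp only [e]
  simp only [Finset.sum_add_distrib, ← Finset.mul_sum] at h ⊢
  rw [s1, s2]
  simp only [Wf, mul_zero, add_zero, Finset.sum_add_distrib, mul_add, ← Finset.mul_sum] at h ⊢
  have e2 : 2 * K / 2 = K := by ring
  rw [e2] at h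
  linarith

theorem DQ_neg {f : ℝ → ℝ → ℝ} {K : ℝ} (h : DQ (Wf (fun x y => f x (-y)) K)) : DQ (Wf f K) := by
  intro n _ F₀ u v
  have h1 := h n ![![F₀ 0 0, F₀ 0 1], ![-F₀ 1 0, -F₀ 1 1]] u (fun i j => -v i j)
  refine (le_of_eq ?_).trans (h1.trans (le_of_eq ?_))
  · refine Finset.sum_congr rfl fun i _ => Finset.sum_congr rfl fun j _ => ?_
    simp [Wf]
  · refine Finset.sum_congr rfl fun i _ => Finset.sum_congr rfl fun j _ => ?_
    simp only [Wf, Dm, Pi.add_apply, Matrix.cons_val_zero, Matrix.cons_val_one]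
    have e : -(-F₀ 1 1 + (-v i j - -v i (j - 1))) = F₀ 1 1 + (v i j - v i (j - 1)) := by ring
    rw [e]
    ring

theorem DQ_swap {f : ℝ → ℝ → ℝ} {K : ℝ} (h : DQ (Wf (fun x y => f y x) K)) : DQ (Wf f K) := by
  intro n _ F₀ u v
  have h1 := h n ![![F₀ 1 1, F₀ 1 0], ![F₀ 0 1, F₀ 0 0]] (fun i j => v j i) (fun i j => u j i)
  refine (le_of_eq ?_).trans (h1.trans (le_of_eq ?_))
  · refine Finset.sum_congr rfl fun i _ => Finset.sum_congr rfl fun j _ => ?_
    simp only [Wf, Matrix.cons_val_zero, Matrix.cons_val_one]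
    ring
  · rw [Finset.sum_comm]
    refine Finset.sum_congr rfl fun i _ => Finset.sum_congr rfl fun j _ => ?_
    simp only [Wf, Dm, Pi.add_apply, Matrix.cons_val_zero, Matrix.cons_val_one]
    ring

/-- `f₁₂` is monotone in one of the two variables. -/
def MonoMixed (f : ℝ → ℝ → ℝ) : Prop :=
  (∀ y y', y ≤ y' → ConvexOn ℝ Set.univ fun x => f x y' - f x y) ∨
  (∀ y y', y ≤ y' → ConcaveOn ℝ Set.univ fun x => f x y' - f x y) ∨
  (∀ x x', x ≤ x' → ConvexOn ℝ Set.univ fun y => f x' y - f x y) ∨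
  (∀ x x', x ≤ x' → ConcaveOn ℝ Set.univ fun y => f x' y - f x y)

theorem convexOn_comp_neg {g : ℝ → ℝ} (h : ConvexOn ℝ Set.univ g) :
    ConvexOn ℝ Set.univ fun x => g (-x) := by
  refine ⟨convex_univ, fun x _ y _ a b ha hb hab => ?_⟩
  have := h.2 (mem_univ (-x)) (mem_univ (-y)) ha hb hab
  have e : -(a • x + b • y) = a • (-x) + b • (-y) := by simp; ring
  show g (-(a • x + b • y)) ≤ _
  rw [e]
  exact this

theorem DQ_all {f : ℝ → ℝ → ℝ} {K : ℝ}
    (hx : ∀ y, ConvexOn ℝ Set.univ fun x => f x y)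
    (hy : ∀ x, ConvexOn ℝ Set.univ (f x))
    (hL : ∀ x x' y y', |f x' y' - f x' y - f x y' + f x y| ≤ 2 * K * |x' - x| * |y' - y|)
    (hm : MonoMixed f) : DQ (Wf f K) := by
  have key : ∀ f : ℝ → ℝ → ℝ, (∀ y, ConvexOn ℝ Set.univ fun x => f x y) →
      (∀ x, ConvexOn ℝ Set.univ (f x)) →
      (∀ x x' y y', |f x' y' - f x' y - f x y' + f x y| ≤ 2 * K * |x' - x| * |y' - y|) →
      ((∀ y y', y ≤ y' → ConvexOn ℝ Set.univ fun x => f x y' - f x y) ∨
        (∀ y y', y ≤ y' → ConcaveOn ℝ Set.univ fun x => f x y' - f x y)) → DQ (Wf f K) := by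
    intro f hx hy hL hm
    rcases hm with hm | hm
    · exact DQ_mono hx hy hm hL
    · refine DQ_neg (DQ_mono (fun y => hx (-y)) (fun x => convexOn_comp_neg (hy x)) ?_ ?_)
      · intro y y' hyy
        have := (hm (-y') (-y) (neg_le_neg hyy)).neg
        refine this.congr fun x _ => ?_
        simp
      · intro x x' y y'
        have := hL x x' (-y) (-y')
        rwa [show |(-y') - (-y)| = |y' - y| by rw [← abs_neg]; ring_nf] at this
  rcases hm with hm | hm | hm | hm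
  · exact key f hx hy hL (Or.inl hm)
  · exact key f hx hy hL (Or.inr hm)
  · refine DQ_swap (key _ hy hx ?_ (Or.inl fun y y' h => hm y y' h))
    intro x x' y y'
    have := hL y y' x x'
    rw [show f y' x' - f y x' - f y' x + f y x = f y' x' - f y' x - f y x' + f y x by ring]
    rwa [mul_right_comm] at this
  · refine DQ_swap (key _ hy hx ?_ (Or.inr fun y y' h => hm y y' h))
    intro x x' y y'
    have := hL y y' x x'
    rw [show f y' x' - f y x' - f y' x + f y x = f y' x' - f y' x - f y x' + f y x by ring]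
    rwa [mul_right_comm] at this

theorem continuous_of_quad {f : ℝ → ℝ → ℝ} {L : ℝ}
    (hx : ∀ y, ConvexOn ℝ Set.univ fun x => f x y)
    (hy : ∀ x, ConvexOn ℝ Set.univ (f x))
    (hL : ∀ x x' y y', |f x' y' - f x' y - f x y' + f x y| ≤ L * |x' - x| * |y' - y|) :
    Continuous fun z : ℝ × ℝ => f z.1 z.2 := by
  have hcx : ∀ y, Continuous fun x => f x y := fun y =>
    continuousOn_univ.1 ((hx y).continuousOn isOpen_univ)
  have hcy : ∀ x, Continuous (f x) := fun x =>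
    continuousOn_univ.1 ((hy x).continuousOn isOpen_univ)
  rw [continuous_iff_continuousAt]
  rintro ⟨x0, y0⟩
  have h1 : Tendsto (fun z : ℝ × ℝ => f z.1 z.2 - f z.1 y0 - f x0 z.2 + f x0 y0) (𝓝 (x0, y0))
      (𝓝 0) := by
    have h2 : Tendsto (fun z : ℝ × ℝ => L * |z.1 - x0| * |z.2 - y0|) (𝓝 (x0, y0)) (𝓝 0) := by
      have : Continuous (fun z : ℝ × ℝ => L * |z.1 - x0| * |z.2 - y0|) := by fun_prop
      have := this.tendsto (x0, y0)
      simpa using this
    refine squeeze_zero_norm (fun z => ?_) h2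
    exact hL x0 z.1 y0 z.2
  have h3 : Tendsto (fun z : ℝ × ℝ => f z.1 y0 + f x0 z.2 - f x0 y0) (𝓝 (x0, y0))
      (𝓝 (f x0 y0)) := by
    have : Continuous (fun z : ℝ × ℝ => f z.1 y0 + f x0 z.2 - f x0 y0) :=
      (((hcx y0).comp continuous_fst).add ((hcy x0).comp continuous_snd)).sub continuous_const
    have := this.tendsto (x0, y0)
    simpa using this
  have h4 := h1.add h3
  rw [zero_add] at h4
  refine h4.congr fun z => ?_
  ring

/-- **The theorem for matrices.** -/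
theorem main {f : ℝ → ℝ → ℝ} {K : ℝ} (c : ℝ)
    (hx : ∀ y, ConvexOn ℝ Set.univ fun x => f x y)
    (hy : ∀ x, ConvexOn ℝ Set.univ (f x))
    (hL : ∀ x x' y y', |f x' y' - f x' y - f x y' + f x y| ≤ 2 * K * |x' - x| * |y' - y|)
    (hm : MonoMixed f) :
    N555.MQ.QC fun F => f (F 0 0) (F 1 1) + K * (F 0 1 ^ 2 + F 1 0 ^ 2) + c * F.det := by
  have hfc := continuous_of_quad hx hy hL
  have hcW : Continuous (Wf f K) := by
    unfold Wf
    exact (hfc.comp (f := fun F : E => (F 0 0, F 1 1)) (by fun_prop)).add (by fun_prop)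
  have hc2 : Continuous (fun F : E => c * N555.MQ.dt F) := continuous_const.mul N555.MQ.continuous_dt
  have e : (fun F : E => f ((Matrix.of F) 0 0) ((Matrix.of F) 1 1)
      + K * ((Matrix.of F) 0 1 ^ 2 + (Matrix.of F) 1 0 ^ 2)
      + c * (Matrix.of F).det) = fun F : E => Wf f K F + c * N555.MQ.dt F := by
    funext F
    rw [N555.MQ.det_of]
    rfl
  refine N555.MQ.QC_of_trig ?_ ?_
  · rw [e]
    exact hcW.add hc2
  · rw [e]
    exact (trig_of_DQ hcW (DQ_all hx hy hL hm)).add (N555.MQ.QCtrig_dt c) hcW hc2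

end Pool.Agent.V5helper21.Mor
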