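import Pool.Agent.V5helper21.Mor.Grid

/-!
# From the inequality on grids to the inequality of quasiconvexity, part 2
-/

set_option autoImplicit false

open MeasureTheory Set Filter Topology
open Pool.Agent.W779.Morrey

namespace Pool.Agent.V5helper21.Mor

/-- the discrete gradient of the pair `u`, `v` of functions on the torus grid -/
def Dm {n : ℕ} (u v : ZMod n → ZMod n → ℝ) (i j : ZMod n) : E :=
  ![![u i j - u (i - 1) j, u i (j + 1) - u i j], ![v (i + 1) j - v i j, v i j - v i (j - 1)]]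

/-- the inequality of quasiconvexity on all torus grids -/
def DQ (W : E → ℝ) : Prop :=
  ∀ (n : ℕ) [NeZero n] (F₀ : E) (u v : ZMod n → ZMod n → ℝ),
    ∑ _i : ZMod n, ∑ _j : ZMod n, W F₀ ≤ ∑ i, ∑ j, W (F₀ + Dm u v i j)

/-- the grid point -/
noncomputable def gp (n : ℕ) (z : V) (a b : ℤ) : V :=
  z + ((a : ℝ) / n) • e0 + ((b : ℝ) / n) • e1

theorem gp_per {p : V → ℝ} (h0 : ∀ x, p (x + e0) = p x) (h1 : ∀ x, p (x + e1) = p x)
    (n : ℕ) [NeZero n] (z : V) (a b : ℤ) :
    p (gp n z a b) = p (gp n z (((a : ZMod n).val : ℕ) : ℤ) (((b : ZMod n).val : ℕ) : ℤ)) := by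
  have hn : (n : ℝ) ≠ 0 := by exact_mod_cast NeZero.ne n
  have P0 : Function.Periodic p e0 := h0
  have P1 : Function.Periodic p e1 := h1
  have ea : (a : ℝ) / n = (((a : ZMod n).val : ℕ) : ℝ) / n + ((a / (n : ℤ) : ℤ) : ℝ) := by
    have h2 : (((a : ZMod n).val : ℕ) : ℤ) + (n : ℤ) * (a / (n : ℤ)) = a := by
      rw [ZMod.val_intCast]
      exact Int.emod_add_mul_ediv a n
    have h3 : (((a : ZMod n).val : ℕ) : ℝ) + (n : ℝ) * ((a / (n : ℤ) : ℤ) : ℝ) = a := by
      exact_mod_cast congrArg (fun t : ℤ => (t : ℝ)) h2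
    field_simp
    linarith
  have eb : (b : ℝ) / n = (((b : ZMod n).val : ℕ) : ℝ) / n + ((b / (n : ℤ) : ℤ) : ℝ) := by
    have h2 : (((b : ZMod n).val : ℕ) : ℤ) + (n : ℤ) * (b / (n : ℤ)) = b := by
      rw [ZMod.val_intCast]
      exact Int.emod_add_mul_ediv b n
    have h3 : (((b : ZMod n).val : ℕ) : ℝ) + (n : ℝ) * ((b / (n : ℤ) : ℤ) : ℝ) = b := by
      exact_mod_cast congrArg (fun t : ℤ => (t : ℝ)) h2
    field_simp
    linarith
  have e : gp n z a b = gp n z (((a : ZMod n).val : ℕ) : ℤ) (((b : ZMod n).val : ℕ) : ℤ)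
      + (a / (n : ℤ)) • e0 + (b / (n : ℤ)) • e1 := by
    unfold gp
    rw [ea, eb, add_smul, add_smul, Int.cast_smul_eq_zsmul ℝ, Int.cast_smul_eq_zsmul ℝ]
    push_cast
    abel
  rw [e, (P1.zsmul (b / (n : ℤ))), (P0.zsmul (a / (n : ℤ)))]

theorem Dq_grid {p : Fin 2 → V → ℝ} (h0 : ∀ r x, p r (x + e0) = p r x)
    (h1 : ∀ r x, p r (x + e1) = p r x) (n : ℕ) [NeZero n] (z : V) (i j : ZMod n) :
    Dq p (1 / (n : ℝ)) (gp n z (i.val : ℤ) (j.val : ℤ))
      = Dm (fun i j => n * p 0 (gp n z (i.val : ℤ) (j.val : ℤ)))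
        (fun i j => n * p 1 (gp n z (i.val : ℤ) (j.val : ℤ))) i j := by
  have hn : (n : ℝ) ≠ 0 := by exact_mod_cast NeZero.ne n
  have hi : ((i.val : ℤ) : ZMod n) = i := by simp
  have hj : ((j.val : ℤ) : ZMod n) = j := by simp
  have a1 : ∀ r, p r (gp n z ((i - 1).val : ℤ) (j.val : ℤ))
      = p r (gp n z (i.val : ℤ) (j.val : ℤ) - (1 / (n : ℝ)) • e0) := by
    intro r
    have := gp_per (h0 r) (h1 r) n z ((i.val : ℤ) - 1) (j.val : ℤ)
    rw [Int.cast_sub, hi, hj, Int.cast_one] at this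
    rw [← this]
    congr 1
    unfold gp
    push_cast
    rw [sub_div, sub_smul]
    abel
  have a2 : ∀ r, p r (gp n z ((i + 1).val : ℤ) (j.val : ℤ))
      = p r (gp n z (i.val : ℤ) (j.val : ℤ) + (1 / (n : ℝ)) • e0) := by
    intro r
    have := gp_per (h0 r) (h1 r) n z ((i.val : ℤ) + 1) (j.val : ℤ)
    rw [Int.cast_add, hi, hj, Int.cast_one] at this
    rw [← this]
    congr 1
    unfold gp
    push_cast
    rw [add_div, add_smul]
    abel
  have b1 : ∀ r, p r (gp n z (i.val : ℤ) ((j - 1).val : ℤ))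
      = p r (gp n z (i.val : ℤ) (j.val : ℤ) - (1 / (n : ℝ)) • e1) := by
    intro r
    have := gp_per (h0 r) (h1 r) n z (i.val : ℤ) ((j.val : ℤ) - 1)
    rw [Int.cast_sub, hi, hj, Int.cast_one] at this
    rw [← this]
    congr 1
    unfold gp
    push_cast
    rw [sub_div, sub_smul]
    abel
  have b2 : ∀ r, p r (gp n z (i.val : ℤ) ((j + 1).val : ℤ))
      = p r (gp n z (i.val : ℤ) (j.val : ℤ) + (1 / (n : ℝ)) • e1) := by
    intro r
    have := gp_per (h0 r) (h1 r) n z (i.val : ℤ) ((j.val : ℤ) + 1)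
    rw [Int.cast_add, hi, hj, Int.cast_one] at this
    rw [← this]
    congr 1
    unfold gp
    push_cast
    rw [add_div, add_smul]
    abel
  unfold Dq Dm
  rw [← a1 0, ← b2 0, ← a2 1, ← b1 1]
  funext r l
  fin_cases r <;> fin_cases l <;> simp <;> ring

theorem Dq_periodic {p : Fin 2 → V → ℝ} {c : V} (h : ∀ r x, p r (x + c) = p r x)
    (t : ℝ) (z : V) : Dq p t (z + c) = Dq p t z := by
  have h1 : ∀ r (w : V), p r (z + c + w) = p r (z + w) := by
    intro r w
    rw [add_right_comm, h]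
  have h2 : ∀ r (w : V), p r (z + c - w) = p r (z - w) := by
    intro r w
    rw [sub_eq_add_neg, h1, ← sub_eq_add_neg]
  unfold Dq
  rw [h1, h1, h2, h2, h, h]

/-- The averaged inequality for the difference quotients. -/
theorem int_Dq {W : E → ℝ} (hW : Continuous W) (hD : DQ W) (F₀ : E) {p : Fin 2 → V → ℝ}
    (hp : ∀ r, Continuous (p r)) (h0 : ∀ r x, p r (x + e0) = p r x)
    (h1 : ∀ r x, p r (x + e1) = p r x) (n : ℕ) [NeZero n] :
    W F₀ ≤ ∫ z in Icc (0 : V) 1, W (F₀ + Dq p (1 / (n : ℝ)) z) := by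
  set H : V → ℝ := fun z => W (F₀ + Dq p (1 / (n : ℝ)) z) with hH
  have hHc : Continuous H := hW.comp (continuous_const.add (Dq_continuous hp _))
  have hH0 : ∀ x, H (x + e0) = H x := fun x => by rw [hH]; simp only [Dq_periodic h0]
  have hH1 : ∀ x, H (x + e1) = H x := fun x => by rw [hH]; simp only [Dq_periodic h1]
  have hn : (0 : ℝ) < n := by exact_mod_cast Nat.pos_of_ne_zero (NeZero.ne n)
  have hsh : ∀ i j : ZMod n, ∫ z in Icc (0 : V) 1, H (gp n z (i.val : ℤ) (j.val : ℤ))
      = ∫ z in Icc (0 : V) 1, H z := by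
    intro i j
    rw [← int_shift hHc hH0 hH1
      ((((i.val : ℤ) : ℝ) / n) • e0 + (((j.val : ℤ) : ℝ) / n) • e1)]
    refine setIntegral_congr_fun measurableSet_Icc fun z _ => ?_
    simp only [gp, add_assoc]
  have hcont : ∀ i j : ZMod n, Continuous fun z : V => H (gp n z (i.val : ℤ) (j.val : ℤ)) := by
    intro i j
    refine hHc.comp ?_
    unfold gp
    fun_prop
  have hsum : ∫ z in Icc (0 : V) 1, (∑ i : ZMod n, ∑ j : ZMod n,
      H (gp n z (i.val : ℤ) (j.val : ℤ))) = (n : ℝ) * (n * ∫ z in Icc (0 : V) 1, H z) := by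
    rw [integral_finsetSum _ fun i _ => ?_]
    · have : ∀ i : ZMod n, ∫ z in Icc (0 : V) 1, (∑ j : ZMod n,
          H (gp n z (i.val : ℤ) (j.val : ℤ))) = n * ∫ z in Icc (0 : V) 1, H z := by
        intro i
        rw [integral_finsetSum _ fun j _ => (hcont i j).integrableOn_Icc]
        simp only [hsh]
        simp
      simp only [this]
      simp
    · exact (continuous_finsetSum _ fun j _ => hcont i j).integrableOn_Icc
  have hlow : (n : ℝ) * (n * W F₀) ≤ ∫ z in Icc (0 : V) 1, (∑ i : ZMod n, ∑ j : ZMod n,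
      H (gp n z (i.val : ℤ) (j.val : ℤ))) := by
    have hvol : (volume (Icc (0 : V) 1)).toReal = 1 := by
      rw [Real.volume_Icc_pi_toReal zero_le_one]
      simp
    have e : (n : ℝ) * (n * W F₀) = ∫ z in Icc (0 : V) 1, (n : ℝ) * (n * W F₀) := by
      rw [setIntegral_const, Measure.real, hvol, one_smul]
    rw [e]
    refine setIntegral_mono_on (continuous_const.integrableOn_Icc) ?_ measurableSet_Icc
      fun z _ => ?_
    · exact (continuous_finsetSum _ fun i _ => continuous_finsetSum _ fun j _ =>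
        hcont i j).integrableOn_Icc
    · have h2 := hD n F₀ (fun i j => n * p 0 (gp n z (i.val : ℤ) (j.val : ℤ)))
        (fun i j => n * p 1 (gp n z (i.val : ℤ) (j.val : ℤ)))
      have e1 : ∑ _i : ZMod n, ∑ _j : ZMod n, W F₀ = (n : ℝ) * (n * W F₀) := by simp
      rw [e1] at h2
      refine h2.trans (le_of_eq ?_)
      refine Finset.sum_congr rfl fun i _ => Finset.sum_congr rfl fun j _ => ?_
      rw [← Dq_grid h0 h1 n z i j]
  rw [hsum] at hlow
  have h3 := le_of_mul_le_mul_left hlow hn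
  exact le_of_mul_le_mul_left h3 hn

/-- **The inequality on grids implies the inequality for trigonometric polynomials.** -/
theorem trig_of_DQ {W : E → ℝ} (hW : Continuous W) (hD : DQ W) : QCtrig W := by
  intro ι _ F₀ k c d
  set p : Fin 2 → V → ℝ := fun r => pot k c d r with hp
  have hpc : ∀ r, Continuous (p r) := fun r => pot_continuous k c d r
  have h0 : ∀ r x, p r (x + e0) = p r x := fun r x => pot_periodic k c d r 0 x
  have h1 : ∀ r x, p r (x + e1) = p r x := fun r x => pot_periodic k c d r 1 x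
  set C : ℝ := ∑ r, ∑ l, ∑ i, (|grk k c i r l| + |grk k d i r l|) with hC
  have hder : ∀ (r l : Fin 2) (z : V) (t : ℝ),
      HasDerivAt (fun t : ℝ => p r (z + t • (Pi.single l 1 : V)))
        (Fam k (grk k c) (grk k d) 1 (z + t • (Pi.single l 1 : V)) r l) t :=
    fun r l z t => pot_hasDerivAt k c d r l z t
  have hFb : ∀ (r l : Fin 2) (x : V), |Fam k (grk k c) (grk k d) 1 x r l| ≤ C :=
    fun r l x => Fam_bound k (grk k c) (grk k d) x r l
  -- forward quotients
  have fw_b : ∀ (r l : Fin 2) (z : V) (h : ℝ), 0 < h →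
      |(p r (z + h • (Pi.single l 1 : V)) - p r z) / h| ≤ C := by
    intro r l z h hh
    have := quot_bound (hder r l z) (fun t => hFb r l _) h hh
    simpa using this
  have bw_b : ∀ (r l : Fin 2) (z : V) (h : ℝ), 0 < h →
      |(p r z - p r (z - h • (Pi.single l 1 : V))) / h| ≤ C := by
    intro r l z h hh
    have := fw_b r l (z - h • (Pi.single l 1 : V)) h hh
    rwa [sub_add_cancel] at this
  have fw_t : ∀ (r l : Fin 2) (z : V), Tendsto (fun n : ℕ =>
      (p r (z + (1 / ((n : ℝ) + 1)) • (Pi.single l 1 : V)) - p r z) / (1 / ((n : ℝ) + 1))) atTop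
      (𝓝 (Fam k (grk k c) (grk k d) 1 z r l)) := by
    intro r l z
    have h2 := hder r l z 0
    rw [zero_smul, add_zero] at h2
    have := quot_tendsto h2
    simpa using this
  have bw_t : ∀ (r l : Fin 2) (z : V), Tendsto (fun n : ℕ =>
      (p r z - p r (z - (1 / ((n : ℝ) + 1)) • (Pi.single l 1 : V))) / (1 / ((n : ℝ) + 1))) atTop
      (𝓝 (Fam k (grk k c) (grk k d) 1 z r l)) := by
    intro r l z
    have h2 := hder r l z 0
    rw [zero_smul, add_zero] at h2
    have h3 : HasDerivAt (fun t : ℝ => -p r (z + (-t) • (Pi.single l 1 : V)))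
        (Fam k (grk k c) (grk k d) 1 z r l) 0 := by
      have h4 : HasDerivAt (fun t : ℝ => p r (z + t • (Pi.single l 1 : V)))
        (Fam k (grk k c) (grk k d) 1 z r l) (-0) := by rwa [neg_zero]
      have h5 := (h4.comp (0 : ℝ) (hasDerivAt_neg' (0 : ℝ))).fun_neg
      have h6 : -(Fam k (grk k c) (grk k d) 1 z r l * -1)
          = Fam k (grk k c) (grk k d) 1 z r l := by ring
      rw [h6] at h5
      exact h5
    have := quot_tendsto h3
    refine this.congr fun n => ?_
    simp [sub_eq_add_neg, add_comm]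
  have hbound : ∀ (n : ℕ) (z : V) (r l : Fin 2), |Dq p (1 / ((n : ℝ) + 1)) z r l| ≤ C := by
    intro n z r l
    have hh : (0 : ℝ) < 1 / ((n : ℝ) + 1) := by positivity
    fin_cases r <;> fin_cases l
    · exact bw_b 0 0 z _ hh
    · exact fw_b 0 1 z _ hh
    · exact fw_b 1 0 z _ hh
    · exact bw_b 1 1 z _ hh
  have hlim : ∀ z : V, Tendsto (fun n : ℕ => Dq p (1 / ((n : ℝ) + 1)) z) atTop
      (𝓝 (Fam k (grk k c) (grk k d) 1 z)) := by
    intro z
    refine tendsto_pi_nhds.2 fun r => tendsto_pi_nhds.2 fun l => ?_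
    fin_cases r <;> fin_cases l
    · exact bw_t 0 0 z
    · exact fw_t 0 1 z
    · exact fw_t 1 0 z
    · exact bw_t 1 1 z
  obtain ⟨B, hB⟩ := W_bound hW F₀ C
  have hT : Tendsto (fun n : ℕ => ∫ x in Icc (0 : V) 1, W (F₀ + Dq p (1 / ((n : ℝ) + 1)) x)) atTop
      (𝓝 (∫ x in Icc (0 : V) 1, W (F₀ + Fam k (grk k c) (grk k d) 1 x))) := by
    refine tendsto_integral_of_dominated_convergence (fun _ => B) ?_ ?_ ?_ ?_
    · intro n
      exact (hW.comp (continuous_const.add (Dq_continuous hpc _))).aestronglyMeasurable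
    · exact continuous_const.integrableOn_Icc
    · intro n
      exact Eventually.of_forall fun x => hB _ fun r l => hbound n x r l
    · refine Eventually.of_forall fun x => ?_
      exact ((hW.comp (continuous_const.add continuous_id)).tendsto _).comp (hlim x)
  refine ge_of_tendsto' hT fun n => ?_
  have := int_Dq hW hD F₀ hpc h0 h1 (n + 1)
  push_cast at this
  exact this

end Pool.Agent.V5helper21.Mor
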