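import Pool.Agent.V5helper21.Mor.Exact
import Pool.Agent.V5helper21.Mor.Grid2

/-!
# Functions `f(F₀₀, F₁₁) + q(F₀₁, F₁₀) + c det F` with `f₁₂` monotone on horizontal lines
-/

set_option autoImplicit false

open MeasureTheory Set Filter Topology Matrix
open Pool.Agent.W779.Morrey
open Pool.Agent.Helper188.Morrey (RankOneConvex)

namespace Pool.Agent.V5helper21.Mor

/-- the function `f(F₀₀, F₁₁) + q(F₀₁, F₁₀)` -/
def Wq (f q : ℝ → ℝ → ℝ) (F : E) : ℝ := f (F 0 0) (F 1 1) + q (F 0 1) (F 1 0)

/-- the energy as a function of matrices -/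
def E4 (f q : ℝ → ℝ → ℝ) (c : ℝ) (F : Matrix (Fin 2) (Fin 2) ℝ) : ℝ :=
  f (F 0 0) (F 1 1) + q (F 0 1) (F 1 0) + c * F.det

theorem DQ_of_Pt {f q : ℝ → ℝ → ℝ} (h : ∀ x0 y0, Pt f q x0 y0) : DQ (Wq f q) := by
  intro n _ F₀ u v
  exact h (F₀ 0 0) (F₀ 1 1) n (F₀ 0 1) (F₀ 1 0) u v

theorem CV.swap_add {q : ℝ → ℝ → ℝ} {k : ℝ} (h : CV fun s t => q s t + k * (s * t)) :
    CV fun s t => q t s + k * (s * t) := by
  have := h.swap
  have e : (fun s t : ℝ => q t s + k * (t * s)) = fun s t => q t s + k * (s * t) := by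
    funext s t
    ring
  rwa [e] at this

theorem CV.swap_sub {q : ℝ → ℝ → ℝ} {k : ℝ} (h : CV fun s t => q s t - k * (s * t)) :
    CV fun s t => q t s - k * (s * t) := by
  have := h.swap
  have e : (fun s t : ℝ => q t s - k * (t * s)) = fun s t => q t s - k * (s * t) := by
    funext s t
    ring
  rwa [e] at this

/-- **The criterion.** -/
theorem main4 {f q : ℝ → ℝ → ℝ} {L : ℝ} (c : ℝ)
    (hx : ∀ y, ConvexOn ℝ Set.univ fun x => f x y)
    (hy : ∀ x, ConvexOn ℝ Set.univ (f x))
    (hL : ∀ x x' y y', |f x' y' - f x' y - f x y' + f x y| ≤ L * |x' - x| * |y' - y|)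
    (hM : MonoSlices f ∨ MonoSlices fun x y => f y x)
    (q1 : CV fun s t => q s t + L * (s * t)) (q2 : CV fun s t => q s t - L * (s * t)) :
    N555.MQ.QC (E4 f q c) := by
  have hfc := continuous_of_quad hx hy hL
  have hqc := (CV.base q1 q2).continuous
  have hcW : Continuous (Wq f q) := by
    unfold Wq
    exact (hfc.comp (f := fun F : E => (F 0 0, F 1 1)) (by fun_prop)).add
      (hqc.comp (f := fun F : E => (F 0 1, F 1 0)) (by fun_prop))
  have hc2 : Continuous (fun F : E => c * N555.MQ.dt F) := continuous_const.mul N555.MQ.continuous_dt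
  have e : (fun F : E => E4 f q c (Matrix.of F)) = fun F : E => Wq f q F + c * N555.MQ.dt F := by
    funext F
    unfold E4
    rw [N555.MQ.det_of]
    rfl
  have hD : DQ (Wq f q) := by
    refine DQ_of_Pt fun x0 y0 => ?_
    rcases hM with hM | hM
    · exact Pt.slices hx hy hL q1 q2 hM x0 y0
    · refine Pt.swap (Pt.slices (L := L) hy hx ?_ q1.swap_add q2.swap_sub hM y0 x0)
      intro x x' y y'
      have := hL y y' x x'
      rw [show f y' x' - f y x' - f y' x + f y x = f y' x' - f y' x - f y x' + f y x by ring]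
      rwa [mul_right_comm] at this
  refine N555.MQ.QC_of_trig ?_ ?_
  · rw [e]
    exact hcW.add hc2
  · rw [e]
    exact (trig_of_DQ hcW hD).add (N555.MQ.QCtrig_dt c) hcW hc2

/-- the criterion with an unsymmetric range of `f₁₂` -/
theorem main5 {f q : ℝ → ℝ → ℝ} {k₁ k₂ : ℝ} (c : ℝ)
    (hx : ∀ y, ConvexOn ℝ Set.univ fun x => f x y)
    (hy : ∀ x, ConvexOn ℝ Set.univ (f x))
    (hk : ∀ x x' y y', x ≤ x' → y ≤ y' →
        k₁ * ((x' - x) * (y' - y)) ≤ f x' y' - f x' y - f x y' + f x y ∧
        f x' y' - f x' y - f x y' + f x y ≤ k₂ * ((x' - x) * (y' - y)))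
    (hM : MonoSlices f ∨ MonoSlices fun x y => f y x)
    (q1 : CV fun s t => q s t + k₁ * (s * t)) (q2 : CV fun s t => q s t + k₂ * (s * t)) :
    N555.MQ.QC (E4 f q c) := by
  set κ : ℝ := (k₁ + k₂) / 2 with hκ
  set L : ℝ := (k₂ - k₁) / 2 with hL
  set f' : ℝ → ℝ → ℝ := fun x y => f x y - κ * (x * y) with hf'
  set q' : ℝ → ℝ → ℝ := fun s t => q s t + κ * (s * t) with hq'
  have haff1 : ∀ c : ℝ, ConvexOn ℝ Set.univ fun x : ℝ => c * x := by
    intro c
    refine ⟨convex_univ, fun x _ y _ a b ha hb hab => le_of_eq ?_⟩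
    simp only [smul_eq_mul]
    ring
  have hx' : ∀ y, ConvexOn ℝ Set.univ fun x => f' x y := by
    intro y
    refine ((hx y).add (haff1 (-(κ * y)))).congr fun x _ => ?_
    simp only [Pi.add_apply, hf']
    ring
  have hy' : ∀ x, ConvexOn ℝ Set.univ (f' x) := by
    intro x
    refine ((hy x).add (haff1 (-(κ * x)))).congr fun y _ => ?_
    simp only [Pi.add_apply, hf']
    ring
  have hL' : ∀ x x' y y', |f' x' y' - f' x' y - f' x y' + f' x y| ≤ L * |x' - x| * |y' - y| := by
    have key : ∀ x x' y y', x ≤ x' → y ≤ y' →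
        |f' x' y' - f' x' y - f' x y' + f' x y| ≤ L * |x' - x| * |y' - y| := by
      intro x x' y y' h1 h2
      obtain ⟨a1, a2⟩ := hk x x' y y' h1 h2
      rw [abs_of_nonneg (sub_nonneg.2 h1), abs_of_nonneg (sub_nonneg.2 h2), abs_le]
      simp only [hf', hL, hκ]
      constructor <;> nlinarith
    intro x x' y y'
    rcases le_total x x' with h1 | h1 <;> rcases le_total y y' with h2 | h2
    · exact key x x' y y' h1 h2
    · have := key x x' y' y h1 h2
      rw [abs_sub_comm y y'] at this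
      rwa [show f' x' y' - f' x' y - f' x y' + f' x y
        = -(f' x' y - f' x' y' - f' x y + f' x y') by ring, abs_neg]
    · have := key x' x y y' h1 h2
      rw [abs_sub_comm x x'] at this
      rwa [show f' x' y' - f' x' y - f' x y' + f' x y
        = -(f' x y' - f' x y - f' x' y' + f' x' y) by ring, abs_neg]
    · have := key x' x y' y h1 h2
      rw [abs_sub_comm x x', abs_sub_comm y y'] at this
      rwa [show f' x' y' - f' x' y - f' x y' + f' x y
        = f' x y - f' x y' - f' x' y + f' x' y' by ring]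
  have hmono : ∀ g : ℝ → ℝ → ℝ, (∀ x, ConvexOn ℝ Set.univ (g x)) → MonoSlices g →
      MonoSlices fun x y => g x y - κ * (x * y) := by
    intro g hg hM y
    have hRD : ∀ x, RD (fun x y => g x y - κ * (x * y)) x y = RD g x y - κ * x := by
      intro x
      have hi : y ∈ interior (Set.univ : Set ℝ) := by simp
      have h1 := (hg x).hasDerivWithinAt_rightDeriv_of_mem_interior hi
      have h2 : HasDerivWithinAt (fun y => κ * (x * y)) (κ * x) (Ioi y) y := by
        have := ((hasDerivWithinAt_id y (Ioi y)).const_mul x).const_mul κ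
        simpa using this
      exact (h1.sub h2).derivWithin (uniqueDiffWithinAt_Ioi y)
    simp only [hRD]
    rcases hM y with h | h
    · left
      refine (h.add (haff1 (-κ))).congr fun x _ => ?_
      simp only [Pi.add_apply]
      ring
    · right
      refine (h.sub (haff1 κ)).congr fun x _ => ?_
      simp only [Pi.sub_apply]
  have hM' : MonoSlices f' ∨ MonoSlices fun x y => f' y x := by
    rcases hM with h | h
    · exact Or.inl (hmono f hy h)
    · right
      have := hmono (fun x y => f y x) hx h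
      have e : (fun x y : ℝ => (fun x y => f y x) x y - κ * (x * y)) = fun x y => f' y x := by
        funext x y
        simp only [hf']
        ring
      rwa [e] at this
  have r1 : CV fun s t => q' s t + L * (s * t) := by
    have e : (fun s t : ℝ => q' s t + L * (s * t)) = fun s t => q s t + k₂ * (s * t) := by
      funext s t
      simp only [hq', hκ, hL]
      ring
    rwa [e]
  have r2 : CV fun s t => q' s t - L * (s * t) := by
    have e : (fun s t : ℝ => q' s t - L * (s * t)) = fun s t => q s t + k₁ * (s * t) := by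
      funext s t
      simp only [hq', hκ, hL]
      ring
    rwa [e]
  have hQ := main4 (c + κ) hx' hy' hL' hM' r1 r2
  have e : E4 f' q' (c + κ) = E4 f q c := by
    funext F
    simp only [E4, hf', hq', Matrix.det_fin_two]
    ring
  rwa [e] at hQ

/-! ### Consequences of rank-one convexity -/

theorem E4_apply (f q : ℝ → ℝ → ℝ) (c x s t y : ℝ) :
    E4 f q c !![x, s; t, y] = f x y + q s t + c * (x * y - s * t) := by
  simp [E4, Matrix.det_fin_two]

section
variable {f q : ℝ → ℝ → ℝ} {c : ℝ} (hroc : RankOneConvex (E4 f q c))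
include hroc

theorem roc4_x (y : ℝ) : ConvexOn ℝ univ fun x => f x y := by
  have h := hroc.line !![0, 0; 0, y] !![1, 0; 0, 0] (by simp [Matrix.det_fin_two])
  have e : (fun t : ℝ => E4 f q c (!![0, 0; 0, y] + t • !![1, 0; 0, 0]))
      = fun t => f t y + (q 0 0 + c * y * t) := by
    funext t
    have : (!![0, 0; 0, y] + t • !![1, 0; 0, 0] : Matrix (Fin 2) (Fin 2) ℝ) = !![t, 0; 0, y] := by
      ext i j
      fin_cases i <;> fin_cases j <;> simp
    rw [this, E4_apply]
    ring
  rw [e] at h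
  have h2 : ConvexOn ℝ univ fun t : ℝ => -(q 0 0 + c * y * t) := by
    refine ⟨convex_univ, fun x _ z _ a b ha hb hab => le_of_eq ?_⟩
    simp only [smul_eq_mul]
    have : a = 1 - b := by linarith
    rw [this]
    ring
  refine (h.add h2).congr fun t _ => ?_
  simp only [Pi.add_apply]
  ring

theorem roc4_y (x : ℝ) : ConvexOn ℝ univ (f x) := by
  have h := hroc.line !![x, 0; 0, 0] !![0, 0; 0, 1] (by simp [Matrix.det_fin_two])
  have e : (fun t : ℝ => E4 f q c (!![x, 0; 0, 0] + t • !![0, 0; 0, 1]))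
      = fun t => f x t + (q 0 0 + c * x * t) := by
    funext t
    have : (!![x, 0; 0, 0] + t • !![0, 0; 0, 1] : Matrix (Fin 2) (Fin 2) ℝ) = !![x, 0; 0, t] := by
      ext i j
      fin_cases i <;> fin_cases j <;> simp
    rw [this, E4_apply]
    ring
  rw [e] at h
  have h2 : ConvexOn ℝ univ fun t : ℝ => -(q 0 0 + c * x * t) := by
    refine ⟨convex_univ, fun x _ z _ a b ha hb hab => le_of_eq ?_⟩
    simp only [smul_eq_mul]
    have : a = 1 - b := by linarith
    rw [this]
    ring
  refine (h.add h2).congr fun t _ => ?_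
  simp only [Pi.add_apply]
  ring

theorem roc4_qc : Continuous fun z : ℝ × ℝ => q z.1 z.2 := by
  have hc := hroc.continuous
  have h1 : Continuous fun z : ℝ × ℝ => (!![0, z.1; z.2, 0] : Matrix (Fin 2) (Fin 2) ℝ) := by
    refine continuous_matrix fun i j => ?_
    fin_cases i <;> fin_cases j <;> simp <;> fun_prop
  have h2 := hc.comp h1
  have e : (fun z : ℝ × ℝ => q z.1 z.2) = fun z : ℝ × ℝ =>
      (E4 f q c ∘ fun z : ℝ × ℝ => !![0, z.1; z.2, 0]) z - (f 0 0 - c * (z.1 * z.2)) := by
    funext z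
    simp only [Function.comp]
    rw [E4_apply]
    ring
  rw [e]
  exact h2.sub (by fun_prop)

theorem roc4_SD : SD f q := by
  intro x y s t a b p d hab
  have hd : (!![2 * a, 2 * p; 2 * d, 2 * b] : Matrix (Fin 2) (Fin 2) ℝ).det = 0 := by
    rw [Matrix.det_fin_two]
    simp
    linarith
  have h := hroc.seg !![x - a, s - p; t - d, y - b] !![2 * a, 2 * p; 2 * d, 2 * b] hd
    (t := 1 / 2) (by norm_num) (by norm_num)
  have e1 : (!![x - a, s - p; t - d, y - b] : Matrix (Fin 2) (Fin 2) ℝ)
      + (1 / 2 : ℝ) • !![2 * a, 2 * p; 2 * d, 2 * b] = !![x, s; t, y] := by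
    ext i j
    fin_cases i <;> fin_cases j <;> simp
  have e2 : (!![x - a, s - p; t - d, y - b] : Matrix (Fin 2) (Fin 2) ℝ)
      + !![2 * a, 2 * p; 2 * d, 2 * b] = !![x + a, s + p; t + d, y + b] := by
    ext i j
    fin_cases i <;> fin_cases j <;> simp <;> ring
  rw [e1, e2, E4_apply, E4_apply, E4_apply] at h
  have hc : c * (a * b) = c * (p * d) := by rw [hab]
  nlinarith [hc]

end

/-- **The theorem on rank-one convex functions.** -/
theorem main6 {f q : ℝ → ℝ → ℝ} {c : ℝ} (hroc : RankOneConvex (E4 f q c))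
    (hM : (MonoSlices f ∧ ∀ y, ∃ C, ∀ x, |f x y| ≤ C * (1 + |x|)) ∨
      (MonoSlices (fun x y => f y x) ∧ ∀ x, ∃ C, ∀ y, |f x y| ≤ C * (1 + |y|))) :
    N555.MQ.QC (E4 f q c) := by
  have hx := roc4_x hroc
  have hy := roc4_y hroc
  have hq := roc4_qc hroc
  have hSD := roc4_SD hroc
  rcases hM with ⟨hM, hg⟩ | ⟨hM, hg⟩
  · obtain ⟨k₁, k₂, c1, c2, hk⟩ := exists_range hx hy hq hSD hg hM
    exact main5 c hx hy hk (Or.inl hM) c1 c2
  · have hq' : Continuous fun z : ℝ × ℝ => q z.2 z.1 :=
      hq.comp (f := fun z : ℝ × ℝ => (z.2, z.1)) (by fun_prop)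
    obtain ⟨k₁, k₂, c1, c2, hk⟩ := exists_range (f := fun x y => f y x) (q := fun s t => q t s)
      hy hx hq' hSD.swap hg hM
    refine main5 (k₁ := k₁) (k₂ := k₂) c hx hy (fun x x' y y' h1 h2 => ?_) (Or.inr hM)
      c1.swap_add c2.swap_add
    obtain ⟨a1, a2⟩ := hk y y' x x' h2 h1
    constructor <;> nlinarith

end Pool.Agent.V5helper21.Mor
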