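import Pool.Agent.W779.Morrey.Scale

/-!
# From the inequality on grids to the inequality of quasiconvexity
-/

set_option autoImplicit false

open MeasureTheory Set Filter Topology
open Pool.Agent.W779.Morrey

namespace Pool.Agent.V5helper21.Mor

/-- the first unit vector -/
abbrev e0 : V := Pi.single 0 1
/-- the second unit vector -/
abbrev e1 : V := Pi.single 1 1

theorem int_iter {H : V → ℝ} (hH : Continuous H) :
    ∫ z in Icc (0 : V) 1, H z = ∫ x in (0 : ℝ)..1, ∫ y in (0 : ℝ)..1, H ![x, y] := by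
  have h := (volume_preserving_finTwoArrow ℝ).symm
  have h1 : ∫ z in Icc (0 : V) 1, H z
      = ∫ p in Icc (0 : ℝ) 1 ×ˢ Icc (0 : ℝ) 1, H ![p.1, p.2] := by
    have h2 := h.setIntegral_preimage_emb (MeasurableEquiv.measurableEmbedding _) H (Icc 0 1)
    rw [← h2]
    have hs : (MeasurableEquiv.finTwoArrow : (Fin 2 → ℝ) ≃ᵐ ℝ × ℝ).symm ⁻¹' (Icc (0 : V) 1)
        = Icc (0 : ℝ) 1 ×ˢ Icc (0 : ℝ) 1 := by
      ext p
      simp only [mem_preimage, mem_Icc, mem_prod, Pi.le_def, Fin.forall_fin_two]
      simp [MeasurableEquiv.finTwoArrow]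
      tauto
    rw [hs]
    rfl
  have hc : Continuous fun p : ℝ × ℝ => H ![p.1, p.2] := by
    refine hH.comp ?_
    refine continuous_pi fun i => ?_
    fin_cases i
    · exact continuous_fst
    · exact continuous_snd
  rw [h1]
  have hint : IntegrableOn (fun p : ℝ × ℝ => H ![p.1, p.2]) (Icc (0 : ℝ) 1 ×ˢ Icc (0 : ℝ) 1)
      (volume.prod volume) := by
    have := hc.continuousOn.integrableOn_compact (μ := volume)
      (isCompact_Icc.prod (isCompact_Icc (a := (0 : ℝ)) (b := 1)) : IsCompact
        (Icc (0 : ℝ) 1 ×ˢ Icc (0 : ℝ) 1))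
    exact this
  have h3 := setIntegral_prod (fun p : ℝ × ℝ => H ![p.1, p.2]) hint
  rw [← Measure.volume_eq_prod] at h3
  rw [h3, intervalIntegral.integral_of_le zero_le_one, integral_Icc_eq_integral_Ioc]
  refine setIntegral_congr_fun measurableSet_Ioc fun x _ => ?_
  simp only
  rw [intervalIntegral.integral_of_le zero_le_one, integral_Icc_eq_integral_Ioc]

theorem vec_add (a b c d : ℝ) : (![a, b] : V) + ![c, d] = ![a + c, b + d] := by
  ext i
  fin_cases i <;> simp

theorem int_shift {H : V → ℝ} (hH : Continuous H) (h0 : ∀ x, H (x + e0) = H x)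
    (h1 : ∀ x, H (x + e1) = H x) (a : V) :
    ∫ z in Icc (0 : V) 1, H (z + a) = ∫ z in Icc (0 : V) 1, H z := by
  rw [int_iter hH, int_iter (H := fun z => H (z + a)) (hH.comp (continuous_id.add continuous_const))]
  have ea : a = ![a 0, a 1] := by
    ext i
    fin_cases i <;> simp
  have hy : ∀ x : ℝ, ∫ y in (0 : ℝ)..1, H (![x, y] + a) = ∫ y in (0 : ℝ)..1, H ![x + a 0, y] := by
    intro x
    have hper : Function.Periodic (fun y : ℝ => H ![x + a 0, y]) 1 := by
      intro y
      have := h1 ![x + a 0, y]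
      beta_reduce
      rw [← this]
      congr 1
      ext i
      fin_cases i <;> simp
    have e : (fun y : ℝ => H (![x, y] + a)) = fun y => (fun y : ℝ => H ![x + a 0, y]) (y + a 1) := by
      funext y
      congr 1
      ext i
      fin_cases i <;> simp
    rw [e, intervalIntegral.integral_comp_add_right (fun y : ℝ => H ![x + a 0, y])]
    have := hper.intervalIntegral_add_eq (0 + a 1) 0
    rw [zero_add] at this ⊢
    rw [zero_add] at this
    rw [add_comm (1 : ℝ)]
    exact this
  have hx : ∫ x in (0 : ℝ)..1, (∫ y in (0 : ℝ)..1, H ![x + a 0, y])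
      = ∫ x in (0 : ℝ)..1, ∫ y in (0 : ℝ)..1, H ![x, y] := by
    have hper : Function.Periodic (fun x : ℝ => ∫ y in (0 : ℝ)..1, H ![x, y]) 1 := by
      intro x
      refine intervalIntegral.integral_congr fun y _ => ?_
      have := h0 ![x, y]
      rw [← this]
      congr 1
      ext i
      fin_cases i <;> simp
    rw [intervalIntegral.integral_comp_add_right (fun x : ℝ => ∫ y in (0 : ℝ)..1, H ![x, y])]
    have := hper.intervalIntegral_add_eq (0 + a 0) 0
    rw [zero_add] at this ⊢
    rw [zero_add] at this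
    rw [add_comm (1 : ℝ)]
    exact this
  rw [← hx]
  exact intervalIntegral.integral_congr fun x _ => hy x

/-! ### Potentials of trigonometric gradients -/

section pot

variable {ι : Type} [Fintype ι]

/-- the potential of the trigonometric gradient -/
noncomputable def pot (k : ι → Fin 2 → ℤ) (c d : ι → V) (r : Fin 2) (x : V) : ℝ :=
  ∑ i, (2 * Real.pi)⁻¹ * (Real.sin (ph (k i) x) * c i r - Real.cos (ph (k i) x) * d i r)

theorem ph_line (k : Fin 2 → ℤ) (z : V) (l : Fin 2) (t : ℝ) :
    ph k (z + t • (Pi.single l 1 : V)) = ph k z + 2 * Real.pi * k l * t := by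
  fin_cases l <;> simp [ph] <;> ring

theorem pot_hasDerivAt (k : ι → Fin 2 → ℤ) (c d : ι → V) (r l : Fin 2) (z : V) (t : ℝ) :
    HasDerivAt (fun t : ℝ => pot k c d r (z + t • (Pi.single l 1 : V)))
      (Fam k (grk k c) (grk k d) 1 (z + t • (Pi.single l 1 : V)) r l) t := by
  have h : ∀ i : ι, HasDerivAt (fun t : ℝ => (2 * Real.pi)⁻¹ *
      (Real.sin (ph (k i) (z + t • (Pi.single l 1 : V))) * c i r
        - Real.cos (ph (k i) (z + t • (Pi.single l 1 : V))) * d i r))
      ((2 * Real.pi)⁻¹ * (Real.cos (ph (k i) (z + t • (Pi.single l 1 : V)))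
          * (2 * Real.pi * k i l) * c i r
        - -(Real.sin (ph (k i) (z + t • (Pi.single l 1 : V))) * (2 * Real.pi * k i l)) * d i r))
      t := by
    intro i
    simp only [ph_line]
    have h0 : HasDerivAt (fun t : ℝ => ph (k i) z + 2 * Real.pi * k i l * t)
        (2 * Real.pi * k i l) t := by
      simpa using ((hasDerivAt_id t).const_mul (2 * Real.pi * (k i l : ℝ))).const_add (ph (k i) z)
    have hs := (h0.sin.mul_const (c i r)).sub (h0.cos.mul_const (d i r))
    refine (hs.const_mul (2 * Real.pi)⁻¹).congr_deriv ?_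
    ring
  have hsum := HasDerivAt.fun_sum (u := Finset.univ) fun (i : ι) _ => h i
  refine hsum.congr_deriv ?_
  simp only [Fam, grk, tm, one_pow, one_smul, Finset.sum_apply, Pi.add_apply, Pi.smul_apply,
    smul_eq_mul]
  refine Finset.sum_congr rfl fun i _ => ?_
  have hpi : (2 * Real.pi) ≠ 0 := by positivity
  field_simp
  ring

theorem pot_periodic (k : ι → Fin 2 → ℤ) (c d : ι → V) (r j : Fin 2) (x : V) :
    pot k c d r (x + Pi.single j 1) = pot k c d r x := by
  unfold pot
  simp only [ph_add_single, Real.cos_add_int_mul_two_pi, Real.sin_add_int_mul_two_pi]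

theorem pot_continuous (k : ι → Fin 2 → ℤ) (c d : ι → V) (r : Fin 2) :
    Continuous (pot k c d r) := by
  unfold pot
  refine continuous_finsetSum _ fun i _ => ?_
  have := continuous_ph (k i)
  fun_prop

theorem Fam_bound (k : ι → Fin 2 → ℤ) (A B : ι → E) (x : V) (r l : Fin 2) :
    |Fam k A B 1 x r l| ≤ ∑ r, ∑ l, ∑ i, (|A i r l| + |B i r l|) := by
  have h1 : |Fam k A B 1 x r l| ≤ ∑ i, (|A i r l| + |B i r l|) := by
    simp only [Fam, tm, one_pow, one_smul, Finset.sum_apply, Pi.add_apply, Pi.smul_apply,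
      smul_eq_mul]
    refine (Finset.abs_sum_le_sum_abs _ _).trans (Finset.sum_le_sum fun i _ => ?_)
    refine (abs_add_le _ _).trans (add_le_add ?_ ?_)
    · rw [abs_mul]
      exact mul_le_of_le_one_left (abs_nonneg _) (Real.abs_cos_le_one _)
    · rw [abs_mul]
      exact mul_le_of_le_one_left (abs_nonneg _) (Real.abs_sin_le_one _)
  refine h1.trans ?_
  refine (Finset.single_le_sum (f := fun l => ∑ i, (|A i r l| + |B i r l|))
    (fun _ _ => Finset.sum_nonneg fun _ _ => by positivity) (Finset.mem_univ l)).trans ?_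
  exact Finset.single_le_sum (f := fun r => ∑ l, ∑ i, (|A i r l| + |B i r l|))
    (fun _ _ => Finset.sum_nonneg fun _ _ => Finset.sum_nonneg fun _ _ => by positivity)
    (Finset.mem_univ r)

end pot

/-! ### Difference quotients -/

/-- the matrix of difference quotients of the two functions `p 0`, `p 1` with step `h` -/
noncomputable def Dq (p : Fin 2 → V → ℝ) (h : ℝ) (z : V) : E :=
  ![![(p 0 z - p 0 (z - h • e0)) / h, (p 0 (z + h • e1) - p 0 z) / h],
    ![(p 1 (z + h • e0) - p 1 z) / h, (p 1 z - p 1 (z - h • e1)) / h]]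

theorem Dq_continuous {p : Fin 2 → V → ℝ} (hp : ∀ r, Continuous (p r)) (h : ℝ) :
    Continuous (Dq p h) := by
  have h0 := hp 0
  have h1 := hp 1
  refine continuous_pi fun r => continuous_pi fun l => ?_
  fin_cases r <;> fin_cases l <;> simp only [Dq] <;>
    simp <;> fun_prop

/-- bound and limit of the difference quotients -/
theorem quot_bound {g g' : ℝ → ℝ} (hg : ∀ t, HasDerivAt g (g' t) t) {C : ℝ}
    (hC : ∀ t, |g' t| ≤ C) (h : ℝ) (hh : 0 < h) : |(g h - g 0) / h| ≤ C := by
  have h1 := Convex.norm_image_sub_le_of_norm_hasDerivWithin_le (f := g) (f' := g') (s := univ)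
    (x := 0) (y := h) (C := C) (fun t _ => (hg t).hasDerivWithinAt) (fun t _ => hC t) convex_univ
    (mem_univ _) (mem_univ _)
  rw [abs_div, abs_of_pos hh, div_le_iff₀ hh]
  simpa [abs_of_pos hh] using h1

theorem quot_tendsto {g : ℝ → ℝ} {g0 : ℝ} (hg : HasDerivAt g g0 0) :
    Tendsto (fun n : ℕ => (g (1 / ((n : ℝ) + 1)) - g 0) / (1 / ((n : ℝ) + 1))) atTop (𝓝 g0) := by
  have h1 := hg.tendsto_slope
  have h2 : Tendsto (fun n : ℕ => 1 / ((n : ℝ) + 1)) atTop (𝓝[≠] (0 : ℝ)) := by
    refine tendsto_nhdsWithin_iff.2 ⟨tendsto_one_div_add_atTop_nhds_zero_nat, ?_⟩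
    refine Eventually.of_forall fun n => ?_
    have : (0 : ℝ) < 1 / ((n : ℝ) + 1) := by positivity
    exact this.ne'
  refine (h1.comp h2).congr fun n => ?_
  simp [slope_def_field]

end Pool.Agent.V5helper21.Mor
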