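import Pool.Agent.V5helper21.Mor.Disc

/-!
# Growth of convex functions, and log-convexity
-/

set_option autoImplicit false

open Set Filter Topology

namespace Pool.Agent.V5helper21.Mor

/-- convex functions of superlinear growth at `+ ∞` -/
def SupLin (g : ℝ → ℝ) : Prop := ∀ S : ℝ, ∃ x > 0, S ≤ (g x - g 0) / x

theorem conv_cont {g : ℝ → ℝ} (hg : ConvexOn ℝ univ g) : Continuous g :=
  continuousOn_univ.1 (hg.continuousOn isOpen_univ)

theorem slope_far {g : ℝ → ℝ} (hg : ConvexOn ℝ univ g) {X S : ℝ} (hX : 0 < X)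
    (hS : S ≤ (g X - g 0) / X) {s t : ℝ} (hs : X ≤ s) (hst : s ≤ t) :
    g s + S * (t - s) ≤ g t := by
  rcases eq_or_lt_of_le hst with h | h
  · subst h
    simp
  have h1 : (g X - g 0) / (X - 0) ≤ (g t - g s) / (t - s) := by
    rcases eq_or_lt_of_le hs with h' | h'
    · subst h'
      exact hg.slope_mono_adjacent (mem_univ 0) (mem_univ t) hX h
    · exact (hg.slope_mono_adjacent (mem_univ 0) (mem_univ s) hX h').trans
        (hg.slope_mono_adjacent (mem_univ X) (mem_univ t) h' h)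
  rw [sub_zero] at h1
  have h2 := hS.trans h1
  rw [le_div_iff₀ (by linarith)] at h2
  linarith

theorem growth {g : ℝ → ℝ} (hg : ConvexOn ℝ univ g) (hg0 : ∀ x, 0 ≤ g x) (hs : SupLin g)
    {ρ η ε : ℝ} (hρ : 1 < ρ) (hη : 0 < η) (hε : 0 < ε) :
    ∃ x a : ℝ, 0 < a ∧ 0 < g x ∧ g (x - a) = g x / ρ ∧ g (x + a) ≤ (1 + η) * ρ * g x ∧
      a ≤ ε * g x := by
  have hc := conv_cont hg
  set S : ℝ := 1 / ε with hSdef
  have hS0 : 0 < S := by positivity
  obtain ⟨X, hX, hXS⟩ := hs S
  have far : ∀ s t, X ≤ s → s ≤ t → g s + S * (t - s) ≤ g t := fun s t h1 h2 =>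
    slope_far hg hX hXS h1 h2
  have gX : 0 < g X := by
    rw [le_div_iff₀ hX] at hXS
    have := hg0 0
    nlinarith
  have gpos : ∀ s, X ≤ s → 0 < g s := by
    intro s h
    have := far X s le_rfl h
    have h2 : 0 ≤ S * (s - X) := mul_nonneg hS0.le (by linarith)
    linarith
  have gmono : ∀ s t, X ≤ s → s ≤ t → g s ≤ g t := by
    intro s t h1 h2
    have := far s t h1 h2
    have h3 : 0 ≤ S * (t - s) := mul_nonneg hS0.le (by linarith)
    linarith
  -- the next point
  have next : ∀ x, X ≤ x → ∃ x', x < x' ∧ g x' = ρ * g x := by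
    intro x hx
    have hgx := gpos x hx
    set m : ℝ := (ρ - 1) * g x / S with hm
    have hm0 : 0 ≤ m := by
      have : 0 ≤ ρ - 1 := by linarith
      positivity
    have h1 := far x (x + m) hx (by linarith)
    have h2 : S * (x + m - x) = (ρ - 1) * g x := by
      rw [hm]
      field_simp
      ring
    rw [h2] at h1
    have h3 : ρ * g x ∈ Icc (g x) (g (x + m)) := ⟨by nlinarith, by linarith⟩
    obtain ⟨x', hx', hgx'⟩ := intermediate_value_Icc (show x ≤ x + m by linarith)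
      hc.continuousOn h3
    refine ⟨x', lt_of_le_of_ne hx'.1 ?_, hgx'⟩
    rintro rfl
    nlinarith
  choose! T hT1 hT2 using next
  obtain ⟨xs, xs0, xsS⟩ : ∃ xs : ℕ → ℝ, xs 0 = X ∧ ∀ n, xs (n + 1) = T (xs n) :=
    ⟨fun n => Nat.rec X (fun _ x => T x) n, rfl, fun _ => rfl⟩
  have xsX : ∀ n, X ≤ xs n := by
    intro n
    induction n with
    | zero => exact xs0.ge
    | succ n ih =>
      rw [xsS]
      exact ih.trans (hT1 _ ih).le
  have xlt : ∀ n, xs n < xs (n + 1) := fun n => by rw [xsS]; exact hT1 _ (xsX n)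
  have xg : ∀ n, g (xs (n + 1)) = ρ * g (xs n) := fun n => by rw [xsS]; exact hT2 _ (xsX n)
  by_contra hcon
  push Not at hcon
  have hbad : ∀ n, (1 + η) * g (xs (n + 2)) < g (xs (n + 1) + (xs (n + 1) - xs n)) := by
    intro n
    by_contra hle
    push Not at hle
    have h1 := hcon (xs (n + 1)) (xs (n + 1) - xs n) (by linarith [xlt n])
      (gpos _ (xsX (n + 1))) (by
        rw [show xs (n + 1) - (xs (n + 1) - xs n) = xs n by ring, xg n]
        field_simp) (by
        refine hle.trans (le_of_eq ?_)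
        rw [xg (n + 1)]
        ring)
    have h2 := far (xs n) (xs (n + 1)) (xsX n) (xlt n).le
    have h3 : 0 ≤ g (xs n) := hg0 _
    have h4 : S * (xs (n + 1) - xs n) ≤ g (xs (n + 1)) := by linarith
    rw [hSdef, div_mul_eq_mul_div, one_mul, div_le_iff₀ hε] at h4
    linarith
  set θ : ℝ := min 1 (η / (ρ - 1)) with hθ
  have hρ1 : 0 < ρ - 1 := by linarith
  have hθ0 : 0 < θ := lt_min one_pos (by positivity)
  have hθ1 : θ ≤ 1 := min_le_left _ _
  have hθ2 : (ρ - 1) * θ ≤ η := by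
    have : θ ≤ η / (ρ - 1) := min_le_right _ _
    rw [le_div_iff₀ hρ1] at this
    linarith
  have hdec : ∀ n, (xs (n + 2) - xs (n + 1)) + θ * (xs (n + 3) - xs (n + 2))
      ≤ xs (n + 1) - xs n := by
    intro n
    by_contra hlt
    push Not at hlt
    set z := xs (n + 1) + (xs (n + 1) - xs n) with hz
    have hb := hbad n
    have hg2 := gpos _ (xsX (n + 2))
    have hzX : X ≤ z := by linarith [xsX (n + 1), xlt n]
    have h23 := xlt (n + 2)
    rcases le_or_gt z (xs (n + 2)) with hle | hgt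
    · have := gmono z (xs (n + 2)) hzX hle
      nlinarith
    · set l : ℝ := (z - xs (n + 2)) / (xs (n + 3) - xs (n + 2)) with hl
      have hden : 0 < xs (n + 3) - xs (n + 2) := by linarith
      have hl0 : 0 ≤ l := div_nonneg (by linarith) hden.le
      have hlθ : l ≤ θ := by
        rw [hl, div_le_iff₀ hden]
        linarith
      have hconv := hg.2 (mem_univ (xs (n + 2))) (mem_univ (xs (n + 3)))
        (show 0 ≤ 1 - l by linarith) hl0 (by ring)
      have e : (1 - l) • xs (n + 2) + l • xs (n + 3) = z := by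
        simp only [smul_eq_mul]
        have : l * (xs (n + 3) - xs (n + 2)) = z - xs (n + 2) := div_mul_cancel₀ _ hden.ne'
        linarith
      rw [e] at hconv
      simp only [smul_eq_mul] at hconv
      have hx3 := xg (n + 2)
      rw [hx3] at hconv
      have h5 : (ρ - 1) * l ≤ η := (mul_le_mul_of_nonneg_left hlθ hρ1.le).trans hθ2
      have h6 : (1 - l) * g (xs (n + 2)) + l * (ρ * g (xs (n + 2)))
          = (1 + (ρ - 1) * l) * g (xs (n + 2)) := by ring
      rw [h6] at hconv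
      have h7 : (1 + (ρ - 1) * l) * g (xs (n + 2)) ≤ (1 + η) * g (xs (n + 2)) :=
        mul_le_mul_of_nonneg_right (by linarith) hg2.le
      linarith
  have hsum : ∀ m, θ * (xs (m + 2) - xs 2) ≤ (xs 1 - xs 0) - (xs (m + 1) - xs m) := by
    intro m
    induction m with
    | zero => simp
    | succ m ih =>
      have := hdec m
      have e : xs (m + 1 + 2) = xs (m + 3) := rfl
      have e2 : xs (m + 1 + 1) = xs (m + 2) := rfl
      rw [e, e2]
      linarith
  set Y : ℝ := xs 2 + (xs 1 - xs 0) / θ with hY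
  have hbd : ∀ m, xs (m + 2) ≤ Y := by
    intro m
    have h1 := hsum m
    have h2 := xlt m
    have h3 : θ * (xs (m + 2) - xs 2) ≤ xs 1 - xs 0 := by linarith
    have h4 : xs (m + 2) - xs 2 ≤ (xs 1 - xs 0) / θ := by
      rw [le_div_iff₀ hθ0]
      linarith
    linarith
  have hpow : ∀ n, g (xs n) = ρ ^ n * g X := by
    intro n
    induction n with
    | zero => simp [xs0]
    | succ n ih =>
      rw [xg, ih, pow_succ]
      ring
  obtain ⟨m, hm⟩ := pow_unbounded_of_one_lt (g Y / g X) hρ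
  have h1 := gmono _ _ (xsX (m + 2)) (hbd m)
  rw [hpow] at h1
  rw [div_lt_iff₀ gX] at hm
  have h2 : ρ ^ m ≤ ρ ^ (m + 2) := pow_le_pow_right₀ hρ.le (by omega)
  have h3 := mul_le_mul_of_nonneg_right h2 gX.le
  linarith

/-- the second difference inequality -/
def RR (f : ℝ → ℝ → ℝ) (K : ℝ) : Prop :=
  ∀ x y a b, -(4 * K * |a * b|) ≤ f (x + a) (y + b) + f (x - a) (y - b) - 2 * f x y

theorem le_of_eps {A B C : ℝ} (h : ∀ ε : ℝ, 0 < ε → A ≤ B + ε * C) : A ≤ B := by
  by_contra hlt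
  push Not at hlt
  have hC : 0 < |C| + 1 := by positivity
  have h1 := h ((A - B) / (2 * (|C| + 1))) (div_pos (by linarith) (by positivity))
  have h2 : (A - B) / (2 * (|C| + 1)) * C ≤ (A - B) / 2 := by
    rw [div_mul_eq_mul_div, div_le_div_iff₀ (by positivity) (by norm_num)]
    have : C ≤ |C| := le_abs_self C
    nlinarith
  linarith

theorem logconv {g h : ℝ → ℝ} {K : ℝ} (hK : 0 ≤ K) (hg : ConvexOn ℝ univ g)
    (hg0 : ∀ x, 0 ≤ g x) (hs : SupLin g) (hh0 : ∀ y, 0 ≤ h y)
    (hR : RR (fun x y => g x * h y) K) (y b : ℝ) : h y ^ 2 ≤ h (y + b) * h (y - b) := by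
  have key : ∀ b : ℝ, ∀ ρ : ℝ, 1 < ρ → 2 * h y ≤ ρ * h (y + b) + h (y - b) / ρ := by
    intro b ρ hρ
    refine le_of_eps (C := ρ * h (y + b) + 4 * K * |b|) fun ε hε => ?_
    obtain ⟨x, a, ha, hgx, h1, h2, h3⟩ := growth hg hg0 hs hρ hε hε
    have h4 := hR x y a b
    simp only at h4
    have hP := hh0 (y + b)
    have hρ0 : 0 < ρ := by linarith
    rw [h1, abs_mul, abs_of_pos ha] at h4
    have h5 : g (x + a) * h (y + b) ≤ (1 + ε) * ρ * g x * h (y + b) :=
      mul_le_mul_of_nonneg_right h2 hP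
    have h6 : 4 * K * (a * |b|) ≤ 4 * K * (ε * g x * |b|) := by
      have : a * |b| ≤ ε * g x * |b| := mul_le_mul_of_nonneg_right h3 (abs_nonneg _)
      exact mul_le_mul_of_nonneg_left this (by positivity)
    have h7 : g x * (2 * h y) ≤ g x * (ρ * h (y + b) + h (y - b) / ρ
        + ε * (ρ * h (y + b) + 4 * K * |b|)) := by
      have e : g x / ρ * h (y - b) = g x * (h (y - b) / ρ) := by ring
      rw [e] at h4
      linarith
    exact le_of_mul_le_mul_left h7 hgx
  set P := h (y + b) with hP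
  set Q := h (y - b) with hQ
  set H := h y with hH
  have hP0 : 0 ≤ P := hh0 _
  have hQ0 : 0 ≤ Q := hh0 _
  have hH0 : 0 ≤ H := hh0 _
  have k1 : ∀ ρ : ℝ, 1 < ρ → 2 * H * ρ ≤ ρ ^ 2 * P + Q := by
    intro ρ hρ
    have h1 := key b ρ hρ
    have hρ0 : 0 < ρ := by linarith
    have h2 := mul_le_mul_of_nonneg_right h1 hρ0.le
    rw [add_mul, div_mul_cancel₀ _ hρ0.ne'] at h2
    linarith
  have k2 : ∀ ρ : ℝ, 1 < ρ → 2 * H * ρ ≤ ρ ^ 2 * Q + P := by
    intro ρ hρ
    have h1 := key (-b) ρ hρ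
    rw [← sub_eq_add_neg, sub_neg_eq_add] at h1
    have hρ0 : 0 < ρ := by linarith
    have h2 := mul_le_mul_of_nonneg_right h1 hρ0.le
    rw [add_mul, div_mul_cancel₀ _ hρ0.ne'] at h2
    linarith
  have kc : 2 * H ≤ P + Q := by
    refine le_of_eps (C := 3 * P + 1) fun ε hε => ?_
    by_cases h1 : ε ≤ 1
    · have := k1 (1 + ε) (by linarith)
      nlinarith
    · push Not at h1
      have := k1 2 (by norm_num)
      nlinarith
  have k3 : ∀ ρ : ℝ, 0 < ρ → 2 * H * ρ ≤ ρ ^ 2 * P + Q := by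
    intro ρ hρ
    rcases lt_trichotomy ρ 1 with h1 | h1 | h1
    · have h2 := k2 (1 / ρ) (by rw [lt_div_iff₀ hρ]; linarith)
      have h3 := mul_le_mul_of_nonneg_left h2 (show 0 ≤ ρ ^ 2 by positivity)
      have e1 : ρ ^ 2 * (2 * H * (1 / ρ)) = 2 * H * ρ := by field_simp
      have e2 : ρ ^ 2 * ((1 / ρ) ^ 2 * Q + P) = Q + ρ ^ 2 * P := by field_simp
      rw [e1, e2] at h3
      linarith
    · subst h1
      linarith
    · exact k1 ρ h1
  rcases eq_or_lt_of_le hH0 with h0 | h0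
  · rw [← h0]
    have := mul_nonneg hP0 hQ0
    simpa using this
  rcases eq_or_lt_of_le hP0 with hp | hp
  · exfalso
    have h1 := k3 ((Q + 1) / (2 * H)) (by positivity)
    rw [← hp] at h1
    have e : 2 * H * ((Q + 1) / (2 * H)) = Q + 1 := by field_simp
    rw [e] at h1
    linarith
  · have h1 := k3 (H / P) (by positivity)
    have h2 := mul_le_mul_of_nonneg_left h1 hp.le
    have e1 : P * (2 * H * (H / P)) = 2 * H ^ 2 := by field_simp
    have e2 : P * ((H / P) ^ 2 * P + Q) = H ^ 2 + P * Q := by field_simp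
    rw [e1, e2] at h2
    linarith

/-- the case of linear growth -/
theorem lincase {g h : ℝ → ℝ} {K : ℝ} (hg : ConvexOn ℝ univ g) (hs : ¬ SupLin g)
    (hR : RR (fun x y => g x * h y) K) {x0 y0 α β : ℝ}
    (hα : ∀ x, g x0 + α * (x - x0) ≤ g x) (hβ : ∀ y, h y0 + β * (y - y0) ≤ h y) (hα0 : 0 < α) :
    α * |β| ≤ 2 * K := by
  unfold SupLin at hs
  push Not at hs
  obtain ⟨S, hS⟩ := hs
  set σ : ℕ → ℝ := fun n => (g (2 ^ n) - g 0) / 2 ^ n with hσ
  have hp : ∀ n : ℕ, (0 : ℝ) < 2 ^ n := fun n => by positivity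
  have hmono : Monotone σ := by
    refine monotone_nat_of_le_succ fun n => ?_
    have h1 := hg.2 (mem_univ 0) (mem_univ ((2 : ℝ) ^ (n + 1)))
      (show (0 : ℝ) ≤ 1 / 2 by norm_num) (show (0 : ℝ) ≤ 1 / 2 by norm_num) (by norm_num)
    have e : (1 / 2 : ℝ) • (0 : ℝ) + (1 / 2 : ℝ) • (2 : ℝ) ^ (n + 1) = 2 ^ n := by
      simp only [smul_eq_mul]
      rw [pow_succ]
      ring
    rw [e] at h1
    simp only [smul_eq_mul] at h1
    simp only [hσ]
    rw [div_le_div_iff₀ (hp n) (hp (n + 1)), pow_succ]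
    rw [pow_succ] at h1
    have := hp n
    nlinarith
  have hbdd : BddAbove (range σ) := ⟨S, by
    rintro _ ⟨n, rfl⟩
    exact (hS _ (hp n)).le⟩
  set A : ℝ := ⨆ n, σ n with hA
  have hT : Tendsto σ atTop (𝓝 A) := tendsto_atTop_ciSup hmono hbdd
  have hinv : Tendsto (fun n : ℕ => (1 : ℝ) / 2 ^ n) atTop (𝓝 0) := by
    have := tendsto_pow_atTop_nhds_zero_of_lt_one (r := (1 / 2 : ℝ)) (by norm_num) (by norm_num)
    refine this.congr fun n => ?_
    rw [div_pow, one_pow]
  have hαA : α ≤ A := by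
    have h1 : Tendsto (fun n : ℕ => α + (g x0 - α * x0 - g 0) * (1 / 2 ^ n)) atTop
        (𝓝 (α + (g x0 - α * x0 - g 0) * 0)) :=
      tendsto_const_nhds.add (tendsto_const_nhds.mul hinv)
    rw [mul_zero, add_zero] at h1
    refine le_of_tendsto_of_tendsto' h1 hT fun n => ?_
    have h2 := hα (2 ^ n)
    have h3 := hp n
    simp only [hσ]
    rw [le_div_iff₀ h3]
    have e : (α + (g x0 - α * x0 - g 0) * (1 / 2 ^ n)) * 2 ^ n
        = α * 2 ^ n + (g x0 - α * x0 - g 0) := by field_simp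
    rw [e]
    linarith
  have hmain : ∀ y b, A * (h y - h (y + b)) ≤ 2 * K * |b| := by
    intro y b
    have h1 : Tendsto (fun n : ℕ => 2 * σ (n + 1) * h (y + b) - 2 * σ n * h y
        + (g 0 * (h (y + b) + h (y - b) - 2 * h y)) * (1 / 2 ^ n)) atTop
        (𝓝 (2 * A * h (y + b) - 2 * A * h y
        + (g 0 * (h (y + b) + h (y - b) - 2 * h y)) * 0)) := by
      have hT1 : Tendsto (fun n => σ (n + 1)) atTop (𝓝 A) := hT.comp (tendsto_add_atTop_nat 1)
      exact (((hT1.const_mul 2).mul_const _).sub ((hT.const_mul 2).mul_const _)).add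
        (tendsto_const_nhds.mul hinv)
    rw [mul_zero, add_zero] at h1
    have h2 : -(4 * K * |b|) ≤ 2 * A * h (y + b) - 2 * A * h y := by
      refine ge_of_tendsto' h1 fun n => ?_
      have h3 := hR (2 ^ n) y (2 ^ n) b
      simp only [sub_self] at h3
      have h4 := hp n
      have e1 : (2 : ℝ) ^ n + 2 ^ n = 2 ^ (n + 1) := by rw [pow_succ]; ring
      rw [e1, abs_mul, abs_of_pos h4] at h3
      have s1 : g (2 ^ (n + 1)) = g 0 + 2 ^ (n + 1) * σ (n + 1) := by
        simp only [hσ]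
        field_simp
        ring
      have s2 : g (2 ^ n) = g 0 + 2 ^ n * σ n := by
        simp only [hσ]
        field_simp
        ring
      rw [s1, s2, pow_succ] at h3
      have h5 : 2 ^ n * (-(4 * K * |b|)) ≤ 2 ^ n * (2 * σ (n + 1) * h (y + b) - 2 * σ n * h y
          + (g 0 * (h (y + b) + h (y - b) - 2 * h y)) * (1 / 2 ^ n)) := by
        have e2 : (2 : ℝ) ^ n * (2 * σ (n + 1) * h (y + b) - 2 * σ n * h y
          + (g 0 * (h (y + b) + h (y - b) - 2 * h y)) * (1 / 2 ^ n))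
          = 2 ^ n * (2 * σ (n + 1) * h (y + b) - 2 * σ n * h y)
            + g 0 * (h (y + b) + h (y - b) - 2 * h y) := by field_simp
        rw [e2]
        linarith
      exact le_of_mul_le_mul_left h5 h4
    linarith
  have hA0 : 0 < A := by linarith
  have h1 := hmain (y0 + 1) (-1)
  have h2 := hmain (y0 - 1) 1
  have b1 := hβ (y0 + 1)
  have b2 := hβ (y0 - 1)
  rw [add_neg_cancel_right] at h1
  rw [sub_add_cancel] at h2
  simp only [abs_neg, abs_one, mul_one] at h1 h2
  have c1 : A * β ≤ 2 * K := by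
    have : A * β ≤ A * (h (y0 + 1) - h y0) := mul_le_mul_of_nonneg_left (by linarith) hA0.le
    linarith
  have c2 : A * (-β) ≤ 2 * K := by
    have : A * (-β) ≤ A * (h (y0 - 1) - h y0) := mul_le_mul_of_nonneg_left (by linarith) hA0.le
    linarith
  have c3 : A * |β| ≤ 2 * K := by
    rcases abs_cases β with ⟨h, _⟩ | ⟨h, _⟩
    · rw [h]; exact c1
    · rw [h]; exact c2
  exact (mul_le_mul_of_nonneg_right hαA (abs_nonneg β)).trans c3

end Pool.Agent.V5helper21.Mor
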