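import Pool.Agent.V5helper21.Mor.Fin
import Pool.Agent.V5helper21.Mor.Growth

/-!
# Products of functions of the two diagonal entries
-/

set_option autoImplicit false

open MeasureTheory Set Filter Topology
open Pool.Agent.W779.Morrey

namespace Pool.Agent.V5helper21.Mor

theorem DQ_of_minorant {W : E → ℝ}
    (h : ∀ F₀ : E, ∃ W' : E → ℝ, DQ W' ∧ (∀ F, W' F ≤ W F) ∧ W' F₀ = W F₀) : DQ W := by
  intro n _ F₀ u v
  obtain ⟨W', h1, h2, h3⟩ := h F₀
  refine (le_of_eq ?_).trans ((h1 n F₀ u v).trans ?_)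
  · simp only [h3]
  · exact Finset.sum_le_sum fun i _ => Finset.sum_le_sum fun j _ => h2 _

/-- the class of the first theorem -/
def Cl (f : ℝ → ℝ → ℝ) (K : ℝ) : Prop :=
  (∀ y, ConvexOn ℝ univ fun x => f x y) ∧ (∀ x, ConvexOn ℝ univ (f x)) ∧
  (∀ x x' y y', |f x' y' - f x' y - f x y' + f x y| ≤ 2 * K * |x' - x| * |y' - y|) ∧ MonoMixed f

theorem Cl.dq {f : ℝ → ℝ → ℝ} {K : ℝ} (h : Cl f K) : DQ (Wf f K) :=
  DQ_all h.1 h.2.1 h.2.2.1 h.2.2.2

/-- `f` has a minorant in the class at each point. -/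
def Mi (f : ℝ → ℝ → ℝ) (K : ℝ) : Prop :=
  ∀ x0 y0, ∃ k : ℝ → ℝ → ℝ, Cl k K ∧ (∀ x y, k x y ≤ f x y) ∧ k x0 y0 = f x0 y0

theorem Mi.dq {f : ℝ → ℝ → ℝ} {K : ℝ} (h : Mi f K) : DQ (Wf f K) := by
  refine DQ_of_minorant fun F₀ => ?_
  obtain ⟨k, h1, h2, h3⟩ := h (F₀ 0 0) (F₀ 1 1)
  refine ⟨Wf k K, h1.dq, fun F => ?_, ?_⟩
  · unfold Wf
    have := h2 (F 0 0) (F 1 1)
    linarith
  · unfold Wf
    rw [h3]

theorem Cl.mi {f : ℝ → ℝ → ℝ} {K : ℝ} (h : Cl f K) : Mi f K :=
  fun _ _ => ⟨f, h, fun _ _ => le_rfl, rfl⟩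

/-- positive part of an affine function -/
noncomputable def pa (c α t0 t : ℝ) : ℝ := max (c + α * (t - t0)) 0

theorem pa_nonneg (c α t0 t : ℝ) : 0 ≤ pa c α t0 t := le_max_right _ _

theorem pa_convex (c α t0 : ℝ) : ConvexOn ℝ univ (pa c α t0) := by
  have h1 : ConvexOn ℝ univ fun t : ℝ => c + α * (t - t0) := by
    refine ⟨convex_univ, fun x _ y _ a b ha hb hab => le_of_eq ?_⟩
    simp only [smul_eq_mul]
    have : a = 1 - b := by linarith
    rw [this]
    ring
  exact h1.sup (convexOn_const 0 convex_univ)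

theorem pa_lip (c α t0 s t : ℝ) : |pa c α t0 t - pa c α t0 s| ≤ |α| * |t - s| := by
  have h := abs_max_sub_max_le_abs (c + α * (t - t0)) (c + α * (s - t0)) 0
  have e : c + α * (t - t0) - (c + α * (s - t0)) = α * (t - s) := by ring
  rw [e, abs_mul] at h
  exact h

theorem pa_mono {c α t0 s t : ℝ} (hα : 0 ≤ α) (hst : s ≤ t) : pa c α t0 s ≤ pa c α t0 t :=
  max_le_max_right 0 (by nlinarith)

theorem pa_anti {c α t0 s t : ℝ} (hα : α ≤ 0) (hst : s ≤ t) : pa c α t0 t ≤ pa c α t0 s :=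
  max_le_max_right 0 (by nlinarith)

theorem Cl_pp {K g0 α x0 h0 β y0 : ℝ} (hK : |α * β| ≤ 2 * K) :
    Cl (fun x y => pa g0 α x0 x * pa h0 β y0 y) K := by
  refine ⟨fun y => ?_, fun x => ?_, fun x x' y y' => ?_, ?_⟩
  · refine ((pa_convex g0 α x0).smul (pa_nonneg h0 β y0 y)).congr fun x _ => ?_
    simp only [smul_eq_mul]
    ring
  · exact (pa_convex h0 β y0).smul (pa_nonneg g0 α x0 x)
  · have e : pa g0 α x0 x' * pa h0 β y0 y' - pa g0 α x0 x' * pa h0 β y0 y
        - pa g0 α x0 x * pa h0 β y0 y' + pa g0 α x0 x * pa h0 β y0 y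
        = (pa g0 α x0 x' - pa g0 α x0 x) * (pa h0 β y0 y' - pa h0 β y0 y) := by ring
    rw [e, abs_mul]
    have h1 := pa_lip g0 α x0 x x'
    have h2 := pa_lip h0 β y0 y y'
    have h3 := mul_le_mul h1 h2 (abs_nonneg _) (by positivity)
    have h4 : |α| * |x' - x| * (|β| * |y' - y|) = |α * β| * (|x' - x| * |y' - y|) := by
      rw [abs_mul]
      ring
    rw [h4] at h3
    have h5 : |α * β| * (|x' - x| * |y' - y|) ≤ 2 * K * (|x' - x| * |y' - y|) :=
      mul_le_mul_of_nonneg_right hK (by positivity)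
    linarith
  · rcases le_total 0 β with hβ | hβ
    · refine Or.inl fun y y' hy => ?_
      refine ((pa_convex g0 α x0).smul (sub_nonneg.2 (pa_mono (c := h0) (t0 := y0) hβ hy))).congr
        fun x _ => ?_
      simp only [smul_eq_mul]
      ring
    · refine Or.inr (Or.inl fun y y' hy => ?_)
      have := ((pa_convex g0 α x0).smul (sub_nonneg.2 (pa_anti (c := h0) (t0 := y0) hβ hy))).neg
      refine this.congr fun x _ => ?_
      simp only [Pi.neg_apply, smul_eq_mul]
      ring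

theorem Cl_aff {K : ℝ} (hK : 0 ≤ K) (c a b : ℝ) :
    Cl (fun x y => c + a * x + b * y) K := by
  have haff : ∀ p q : ℝ, ConvexOn ℝ univ fun t : ℝ => p + q * t := by
    intro p q
    refine ⟨convex_univ, fun x _ y _ s t hs ht hst => le_of_eq ?_⟩
    simp only [smul_eq_mul]
    have : s = 1 - t := by linarith
    rw [this]
    ring
  refine ⟨fun y => ?_, fun x => ?_, fun x x' y y' => ?_, Or.inl fun y y' _ => ?_⟩
  · refine (haff (c + b * y) a).congr fun x _ => ?_
    ring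
  · refine (haff (c + a * x) b).congr fun x _ => ?_
    ring
  · have e : (c + a * x' + b * y') - (c + a * x' + b * y) - (c + a * x + b * y')
        + (c + a * x + b * y) = 0 := by ring
    rw [e, abs_zero]
    positivity
  · refine (haff (b * (y' - y)) 0).congr fun x _ => ?_
    ring

theorem RR_swap {g h : ℝ → ℝ} {K : ℝ} (hR : RR (fun x y => g x * h y) K) :
    RR (fun x y => h x * g y) K := by
  intro x y a b
  have := hR y x b a
  rw [mul_comm b a] at this
  simp only at this ⊢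
  linarith

theorem RR_refl {g h : ℝ → ℝ} {K : ℝ} (hR : RR (fun x y => g x * h y) K) :
    RR (fun x y => g (-x) * h y) K := by
  intro x y a b
  have := hR (-x) y (-a) b
  have e1 : -x + -a = -(x + a) := by ring
  have e2 : -x - -a = -(x - a) := by ring
  rw [e1, e2, neg_mul, abs_neg] at this
  exact this

/-- If the slopes are too large then the other factor is log-convex. -/
theorem dich {g h : ℝ → ℝ} {K : ℝ} (hK : 0 ≤ K) (hg : ConvexOn ℝ univ g)
    (hg0 : ∀ x, 0 ≤ g x) (hh0 : ∀ y, 0 ≤ h y)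
    (hR : RR (fun x y => g x * h y) K) {x0 y0 α β : ℝ}
    (hα : ∀ x, g x0 + α * (x - x0) ≤ g x) (hβ : ∀ y, h y0 + β * (y - y0) ≤ h y)
    (hbad : 2 * K < |α * β|) (y b : ℝ) : h y ^ 2 ≤ h (y + b) * h (y - b) := by
  rw [abs_mul] at hbad
  rcases lt_trichotomy α 0 with h0 | h0 | h0
  · have hs : SupLin fun x => g (-x) := by
      by_contra hcon
      have hα' : ∀ x, (fun x => g (-x)) (-x0) + (-α) * (x - (-x0)) ≤ (fun x => g (-x)) x := by
        intro x
        simp only [neg_neg]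
        have := hα (-x)
        linarith
      have := lincase (convexOn_comp_neg hg) hcon (RR_refl hR) hα' hβ (by linarith)
      rw [abs_of_neg h0] at hbad
      linarith
    exact logconv hK (convexOn_comp_neg hg) (fun x => hg0 _) hs hh0 (RR_refl hR) y b
  · subst h0
    simp at hbad
    linarith
  · have hs : SupLin g := by
      by_contra hcon
      have := lincase hg hcon hR hα hβ h0
      rw [abs_of_pos h0] at hbad
      linarith
    exact logconv hK hg hg0 hs hh0 hR y b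

theorem logconv_pos {g : ℝ → ℝ} (hg0 : ∀ x, 0 ≤ g x)
    (hl : ∀ y b, g y ^ 2 ≤ g (y + b) * g (y - b)) {x0 α : ℝ} (hα0 : α ≠ 0)
    (hα : ∀ x, g x0 + α * (x - x0) ≤ g x) : 0 < g x0 := by
  rcases eq_or_lt_of_le (hg0 x0) with h | h
  · exfalso
    have h1 := hl (x0 + α) (-α)
    rw [add_neg_cancel_right, ← h, zero_mul] at h1
    have h2 := hα (x0 + α)
    rw [← h, add_sub_cancel_left, zero_add] at h2
    have h3 : 0 < α * α := mul_self_pos.2 hα0
    have h4 : 0 < g (x0 + α) := by linarith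
    have h5 : 0 < g (x0 + α) ^ 2 := by positivity
    linarith
  · exact h

/-- the supporting plane of a product of log-convex functions -/
theorem plane {g h : ℝ → ℝ} (hg0 : ∀ x, 0 ≤ g x) (hh0 : ∀ y, 0 ≤ h y)
    (hlg : ∀ y b, g y ^ 2 ≤ g (y + b) * g (y - b))
    (hlh : ∀ y b, h y ^ 2 ≤ h (y + b) * h (y - b)) {x0 y0 α β : ℝ}
    (hα : ∀ x, g x0 + α * (x - x0) ≤ g x) (hβ : ∀ y, h y0 + β * (y - y0) ≤ h y)
    (hgp : 0 < g x0) (hhp : 0 < h y0) (x y : ℝ) :
    g x0 * h y0 + α * h y0 * (x - x0) + β * g x0 * (y - y0) ≤ g x * h y := by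
  set a := x - x0 with ha
  set b := y - y0 with hb
  set F : ℝ → ℝ := fun s => g (x0 + s * a) * h (y0 + s * b) with hF
  have hF0 : F 0 = g x0 * h y0 := by simp [hF]
  have hF1 : F 1 = g x * h y := by
    simp only [hF, one_mul, ha, hb]
    rw [add_sub_cancel, add_sub_cancel]
  have hmid : ∀ s, 2 * (F s - F 0) ≤ F (2 * s) - F 0 := by
    intro s
    have h1 := hlg (x0 + s * a) (s * a)
    have h2 := hlh (y0 + s * b) (s * b)
    rw [add_sub_cancel_right, show x0 + s * a + s * a = x0 + 2 * s * a by ring] at h1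
    rw [add_sub_cancel_right, show y0 + s * b + s * b = y0 + 2 * s * b by ring] at h2
    have h3 := mul_le_mul h1 h2 (by positivity) (mul_nonneg (hg0 _) (hg0 _))
    have e1 : g (x0 + s * a) ^ 2 * h (y0 + s * b) ^ 2 = F s ^ 2 := by
      simp only [hF]
      ring
    have e2 : g (x0 + 2 * s * a) * g x0 * (h (y0 + 2 * s * b) * h y0) = F (2 * s) * F 0 := by
      rw [hF0]
      simp only [hF]
      ring
    rw [e1, e2] at h3
    have hFs : 0 ≤ F s := mul_nonneg (hg0 _) (hh0 _)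
    have hF2 : 0 ≤ F (2 * s) := mul_nonneg (hg0 _) (hh0 _)
    have hF00 : 0 ≤ F 0 := mul_nonneg (hg0 _) (hh0 _)
    have h4 : (2 * F s) ^ 2 ≤ (F (2 * s) + F 0) ^ 2 := by
      nlinarith [sq_nonneg (F (2 * s) - F 0)]
    have h5 : 2 * F s ≤ F (2 * s) + F 0 := by
      exact (pow_le_pow_iff_left₀ (by positivity) (by positivity) two_ne_zero).1 h4
    linarith
  have hit : ∀ n : ℕ, 2 ^ n * (F (1 / 2 ^ n) - F 0) ≤ F 1 - F 0 := by
    intro n
    induction n with
    | zero => simp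
    | succ n ih =>
      refine le_trans ?_ ih
      have h1 := hmid (1 / 2 ^ (n + 1))
      have e : 2 * (1 / (2 : ℝ) ^ (n + 1)) = 1 / 2 ^ n := by
        rw [pow_succ]
        field_simp
      rw [e] at h1
      have h2 := mul_le_mul_of_nonneg_left h1 (show (0 : ℝ) ≤ 2 ^ n by positivity)
      rw [pow_succ]
      rw [pow_succ] at h2
      linarith
  -- pass to the limit
  have hinv : Tendsto (fun n : ℕ => (1 : ℝ) / 2 ^ n) atTop (𝓝 0) := by
    have := tendsto_pow_atTop_nhds_zero_of_lt_one (r := (1 / 2 : ℝ)) (by norm_num) (by norm_num)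
    refine this.congr fun n => ?_
    rw [div_pow, one_pow]
  have hlim : Tendsto (fun n : ℕ => α * a * h y0 + β * b * g x0 + α * a * (β * b) * (1 / 2 ^ n))
      atTop (𝓝 (α * a * h y0 + β * b * g x0 + α * a * (β * b) * 0)) :=
    tendsto_const_nhds.add (tendsto_const_nhds.mul hinv)
  rw [mul_zero, add_zero] at hlim
  have hev : ∀ᶠ n : ℕ in atTop, α * a * h y0 + β * b * g x0 + α * a * (β * b) * (1 / 2 ^ n)
      ≤ F 1 - F 0 := by
    have t1 : Tendsto (fun n : ℕ => g x0 + α * a * (1 / 2 ^ n)) atTop (𝓝 (g x0 + α * a * 0)) :=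
      tendsto_const_nhds.add (tendsto_const_nhds.mul hinv)
    have t2 : Tendsto (fun n : ℕ => h y0 + β * b * (1 / 2 ^ n)) atTop (𝓝 (h y0 + β * b * 0)) :=
      tendsto_const_nhds.add (tendsto_const_nhds.mul hinv)
    rw [mul_zero, add_zero] at t1 t2
    filter_upwards [t1.eventually (lt_mem_nhds hgp), t2.eventually (lt_mem_nhds hhp)] with n h1 h2
    refine le_trans ?_ (hit n)
    have h3 := hα (x0 + 1 / 2 ^ n * a)
    have h4 := hβ (y0 + 1 / 2 ^ n * b)
    rw [add_sub_cancel_left] at h3 h4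
    have h5 : (g x0 + α * a * (1 / 2 ^ n)) * (h y0 + β * b * (1 / 2 ^ n)) ≤ F (1 / 2 ^ n) := by
      refine mul_le_mul (by linarith) (by linarith) h2.le (hg0 _)
    rw [hF0]
    have hp : (0 : ℝ) < 2 ^ n := by positivity
    have h6 := mul_le_mul_of_nonneg_left h5 hp.le
    have e : (2 : ℝ) ^ n * ((g x0 + α * a * (1 / 2 ^ n)) * (h y0 + β * b * (1 / 2 ^ n)))
        = 2 ^ n * (g x0 * h y0) + (α * a * h y0 + β * b * g x0
          + α * a * (β * b) * (1 / 2 ^ n)) := by
      field_simp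
      ring
    rw [e] at h6
    linarith
  have hfin := le_of_tendsto hlim hev
  rw [hF0, hF1] at hfin
  linarith

/-- **The base lemma**: nonnegative convex factors. -/
theorem Mi_prod {g h : ℝ → ℝ} {K : ℝ} (hK : 0 ≤ K) (hg : ConvexOn ℝ univ g)
    (hh : ConvexOn ℝ univ h) (hg0 : ∀ x, 0 ≤ g x) (hh0 : ∀ y, 0 ≤ h y)
    (hR : RR (fun x y => g x * h y) K) : Mi (fun x y => g x * h y) K := by
  intro x0 y0
  obtain ⟨α, hα⟩ := subgrad hg x0
  obtain ⟨β, hβ⟩ := subgrad hh y0
  rcases le_or_gt |α * β| (2 * K) with hle | hgt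
  · refine ⟨_, Cl_pp (g0 := g x0) (x0 := x0) (h0 := h y0) (y0 := y0) hle, fun x y => ?_, ?_⟩
    · exact mul_le_mul (max_le (hα x) (hg0 x)) (max_le (hβ y) (hh0 y)) (pa_nonneg _ _ _ _)
        (hg0 x)
    · simp only [pa, sub_self, mul_zero, add_zero]
      rw [max_eq_left (hg0 _), max_eq_left (hh0 _)]
  · have hlh := dich hK hg hg0 hh0 hR hα hβ hgt
    have hlg := dich hK hh hh0 hg0 (RR_swap hR) hβ hα (by rw [mul_comm β α]; exact hgt)
    have hne : α * β ≠ 0 := by
      intro h0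
      rw [h0, abs_zero] at hgt
      linarith
    have hα0 : α ≠ 0 := left_ne_zero_of_mul hne
    have hβ0 : β ≠ 0 := right_ne_zero_of_mul hne
    have hgp := logconv_pos hg0 hlg hα0 hα
    have hhp := logconv_pos hh0 hlh hβ0 hβ
    have hpl := plane hg0 hh0 hlg hlh hα hβ hgp hhp
    refine ⟨_, Cl_aff hK (g x0 * h y0 - α * h y0 * x0 - β * g x0 * y0) (α * h y0) (β * g x0),
      fun x y => ?_, ?_⟩
    · have := hpl x y
      linarith
    · ring

end Pool.Agent.V5helper21.Mor
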