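import Pool.Agent.V5helper21.Mor.Prod

/-!
# Products of arbitrary functions of the two diagonal entries
-/

set_option autoImplicit false

open MeasureTheory Set Filter Topology Matrix
open Pool.Agent.W779.Morrey
open Pool.Agent.Helper188.Morrey (RankOneConvex)

namespace Pool.Agent.V5helper21.Mor

/-- the energy as a function of matrices -/
def En (f : ℝ → ℝ → ℝ) (K c : ℝ) (F : Matrix (Fin 2) (Fin 2) ℝ) : ℝ :=
  f (F 0 0) (F 1 1) + K * (F 0 1 ^ 2 + F 1 0 ^ 2) + c * F.det

theorem En_apply (f : ℝ → ℝ → ℝ) (K c p q r s : ℝ) :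
    En f K c !![p, q; r, s] = f p s + K * (q ^ 2 + r ^ 2) + c * (p * s - q * r) := by
  simp [En, Matrix.det_fin_two]

section
variable {f : ℝ → ℝ → ℝ} {K c : ℝ} (hroc : RankOneConvex (En f K c))
include hroc

theorem roc_K : 0 ≤ K := by
  have hd : (!![0, 1; 0, 0] : Matrix (Fin 2) (Fin 2) ℝ).det = 0 := by
    simp [Matrix.det_fin_two]
  have h := hroc.seg !![0, 0; 0, 0] !![0, 1; 0, 0] hd (t := 1 / 2) (by norm_num) (by norm_num)
  have e1 : (!![0, 0; 0, 0] : Matrix (Fin 2) (Fin 2) ℝ) + (1 / 2 : ℝ) • !![0, 1; 0, 0]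
      = !![0, 1 / 2; 0, 0] := by
    ext i j
    fin_cases i <;> fin_cases j <;> simp
  have e2 : (!![0, 0; 0, 0] : Matrix (Fin 2) (Fin 2) ℝ) + !![0, 1; 0, 0]
      = !![0, 1; 0, 0] := by
    ext i j
    fin_cases i <;> fin_cases j <;> simp
  rw [e1, e2, En_apply, En_apply, En_apply] at h
  linarith

theorem roc_x (y : ℝ) : ConvexOn ℝ univ fun x => f x y := by
  refine ⟨convex_univ, fun s _ u _ a b ha hb hab => ?_⟩
  have hd : (!![u - s, 0; 0, 0] : Matrix (Fin 2) (Fin 2) ℝ).det = 0 := by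
    simp [Matrix.det_fin_two]
  have h := hroc.seg !![s, 0; 0, y] !![u - s, 0; 0, 0] hd (t := b) hb (by linarith)
  have e1 : (!![s, 0; 0, y] : Matrix (Fin 2) (Fin 2) ℝ) + b • !![u - s, 0; 0, 0]
      = !![s + b * (u - s), 0; 0, y] := by
    ext i j
    fin_cases i <;> fin_cases j <;> simp
  have e2 : (!![s, 0; 0, y] : Matrix (Fin 2) (Fin 2) ℝ) + !![u - s, 0; 0, 0]
      = !![u, 0; 0, y] := by
    ext i j
    fin_cases i <;> fin_cases j <;> simp
  rw [e1, e2, En_apply, En_apply, En_apply] at h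
  have ha' : a = 1 - b := by linarith
  have e3 : a • s + b • u = s + b * (u - s) := by
    simp only [smul_eq_mul]
    rw [ha']
    ring
  show f (a • s + b • u) y ≤ a • f s y + b • f u y
  rw [e3, ha']
  simp only [smul_eq_mul]
  linarith

theorem roc_y (x : ℝ) : ConvexOn ℝ univ (f x) := by
  refine ⟨convex_univ, fun s _ u _ a b ha hb hab => ?_⟩
  have hd : (!![0, 0; 0, u - s] : Matrix (Fin 2) (Fin 2) ℝ).det = 0 := by
    simp [Matrix.det_fin_two]
  have h := hroc.seg !![x, 0; 0, s] !![0, 0; 0, u - s] hd (t := b) hb (by linarith)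
  have e1 : (!![x, 0; 0, s] : Matrix (Fin 2) (Fin 2) ℝ) + b • !![0, 0; 0, u - s]
      = !![x, 0; 0, s + b * (u - s)] := by
    ext i j
    fin_cases i <;> fin_cases j <;> simp
  have e2 : (!![x, 0; 0, s] : Matrix (Fin 2) (Fin 2) ℝ) + !![0, 0; 0, u - s]
      = !![x, 0; 0, u] := by
    ext i j
    fin_cases i <;> fin_cases j <;> simp
  rw [e1, e2, En_apply, En_apply, En_apply] at h
  have ha' : a = 1 - b := by linarith
  have e3 : a • s + b • u = s + b * (u - s) := by
    simp only [smul_eq_mul]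
    rw [ha']
    ring
  rw [e3, ha']
  simp only [smul_eq_mul]
  linarith

theorem roc_RR : RR f K := by
  intro x y a b
  obtain ⟨p, q, hpq, hs⟩ : ∃ p q : ℝ, p * q = a * b ∧ p ^ 2 + q ^ 2 = 2 * |a * b| := by
    have hsq : √|a * b| * √|a * b| = |a * b| := Real.mul_self_sqrt (abs_nonneg _)
    rcases le_total 0 (a * b) with h | h
    · refine ⟨√|a * b|, √|a * b|, ?_, ?_⟩
      · rw [hsq, abs_of_nonneg h]
      · nlinarith
    · refine ⟨√|a * b|, -√|a * b|, ?_, ?_⟩
      · rw [mul_neg, hsq, abs_of_nonpos h, neg_neg]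
      · nlinarith
  have hd : (!![2 * a, 2 * p; 2 * q, 2 * b] : Matrix (Fin 2) (Fin 2) ℝ).det = 0 := by
    rw [Matrix.det_fin_two]
    simp
    linarith
  have h := hroc.seg !![x - a, -p; -q, y - b] !![2 * a, 2 * p; 2 * q, 2 * b] hd
    (t := 1 / 2) (by norm_num) (by norm_num)
  have e1 : (!![x - a, -p; -q, y - b] : Matrix (Fin 2) (Fin 2) ℝ)
      + (1 / 2 : ℝ) • !![2 * a, 2 * p; 2 * q, 2 * b] = !![x, 0; 0, y] := by
    ext i j
    fin_cases i <;> fin_cases j <;> simp
  have e2 : (!![x - a, -p; -q, y - b] : Matrix (Fin 2) (Fin 2) ℝ)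
      + !![2 * a, 2 * p; 2 * q, 2 * b] = !![x + a, p; q, y + b] := by
    ext i j
    fin_cases i <;> fin_cases j <;> simp <;> ring
  rw [e1, e2, En_apply, En_apply, En_apply] at h
  have e3 : K * (p ^ 2 + q ^ 2) = 2 * K * |a * b| := by rw [hs]; ring
  have e4 : c * (p * q) = c * (a * b) := by rw [hpq]
  have h2 : f x y + c * (x * y) ≤ (1 / 2) * (f (x - a) (y - b) + K * (p ^ 2 + q ^ 2)
      + c * ((x - a) * (y - b)) - c * (p * q)) + (1 / 2) * (f (x + a) (y + b)
      + K * (p ^ 2 + q ^ 2) + c * ((x + a) * (y + b)) - c * (p * q)) := by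
    refine le_of_eq_of_le ?_ (h.trans (le_of_eq ?_))
    · ring
    · ring
  rw [e3, e4] at h2
  linarith

end

theorem aff_of {g : ℝ → ℝ} (h1 : ConvexOn ℝ univ g) (h2 : ConvexOn ℝ univ fun x => -g x) :
    ∃ α β : ℝ, ∀ x, g x = α * x + β := by
  obtain ⟨c, hc⟩ := subgrad h1 0
  obtain ⟨c', hc'⟩ := subgrad h2 0
  simp only [sub_zero] at hc hc'
  have a1 := hc 1
  have a2 := hc' 1
  have a3 := hc (-1)
  have a4 := hc' (-1)
  have h : c' = -c := by linarith
  refine ⟨c, g 0, fun x => ?_⟩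
  have b1 := hc x
  have b2 := hc' x
  rw [h] at b2
  linarith

theorem const_of {g : ℝ → ℝ} (h1 : ConvexOn ℝ univ g) {B : ℝ} (h2 : ∀ x, g x ≤ B) (x y : ℝ) :
    g x = g y := by
  have key : ∀ a x, g a ≤ g x := by
    intro a x
    obtain ⟨c, hc⟩ := subgrad h1 a
    have hc0 : c = 0 := by
      by_contra hne
      have h3 := hc (a + (B - g a + 1) / c)
      rw [add_sub_cancel_left, mul_div_cancel₀ _ hne] at h3
      have h4 := h2 (a + (B - g a + 1) / c)
      linarith
    have h3 := hc x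
    rw [hc0] at h3
    linarith
  exact le_antisymm (key x y) (key y x)

theorem conv_of_pos {g : ℝ → ℝ} {k : ℝ} (hk : 0 < k) (h : ConvexOn ℝ univ fun x => g x * k) :
    ConvexOn ℝ univ g := by
  refine (h.smul (inv_nonneg.2 hk.le)).congr fun x _ => ?_
  simp only [smul_eq_mul]
  field_simp

theorem conv_of_neg {g : ℝ → ℝ} {k : ℝ} (hk : k < 0) (h : ConvexOn ℝ univ fun x => g x * k) :
    ConvexOn ℝ univ fun x => -g x := by
  refine conv_of_pos (k := -k) (by linarith) (h.congr fun x _ => ?_)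
  ring

section
variable {g h : ℝ → ℝ} {K : ℝ}

theorem Mi_const_left (hK : 0 ≤ K) (hX : ∀ y, ConvexOn ℝ univ fun x => g x * h y)
    (hY : ∀ x, ConvexOn ℝ univ fun y => g x * h y) (hc : ∀ x x', g x = g x') :
    Mi (fun x y => g x * h y) K := by
  refine Cl.mi ⟨hX, hY, fun x x' y y' => ?_, Or.inl fun y y' _ => ?_⟩
  · have e : g x' * h y' - g x' * h y - g x * h y' + g x * h y = 0 := by
      rw [hc x' x]
      ring
    simp only [e, abs_zero]
    positivity
  · refine (convexOn_const (g 0 * h y' - g 0 * h y) convex_univ).congr fun x _ => ?_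
    simp only [hc x 0]

theorem Mi_const_right (hK : 0 ≤ K) (hX : ∀ y, ConvexOn ℝ univ fun x => g x * h y)
    (hY : ∀ x, ConvexOn ℝ univ fun y => g x * h y) (hc : ∀ y y', h y = h y') :
    Mi (fun x y => g x * h y) K := by
  refine Cl.mi ⟨hX, hY, fun x x' y y' => ?_, Or.inl fun y y' _ => ?_⟩
  · have e : g x' * h y' - g x' * h y - g x * h y' + g x * h y = 0 := by
      rw [hc y' y]
      ring
    simp only [e, abs_zero]
    positivity
  · refine (convexOn_const 0 convex_univ).congr fun x _ => ?_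
    simp only [hc y' y, sub_self]

theorem Mi_bilin (hX : ∀ y, ConvexOn ℝ univ fun x => g x * h y)
    (hY : ∀ x, ConvexOn ℝ univ fun y => g x * h y) (hR : RR (fun x y => g x * h y) K)
    {α β γ δ : ℝ} (h1 : ∀ x, g x = α * x + β) (h2 : ∀ y, h y = γ * y + δ) :
    Mi (fun x y => g x * h y) K := by
  have hle : |α * γ| ≤ 2 * K := by
    have r1 := hR 0 0 1 1
    have r2 := hR 0 0 1 (-1)
    simp only [h1, h2] at r1 r2
    norm_num at r1 r2
    rw [abs_le]
    constructor <;> linarith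
  refine Cl.mi ⟨hX, hY, fun x x' y y' => ?_, Or.inl fun y y' _ => ?_⟩
  · simp only [h1, h2]
    have e : (α * x' + β) * (γ * y' + δ) - (α * x' + β) * (γ * y + δ)
        - (α * x + β) * (γ * y' + δ) + (α * x + β) * (γ * y + δ)
        = α * γ * ((x' - x) * (y' - y)) := by ring
    rw [e, abs_mul, abs_mul (x' - x)]
    have := mul_le_mul_of_nonneg_right hle (show 0 ≤ |x' - x| * |y' - y| by positivity)
    linarith
  · refine ⟨convex_univ, fun s _ t _ a b ha hb hab => le_of_eq ?_⟩
    simp only [h1, h2, smul_eq_mul]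
    have : a = 1 - b := by linarith
    rw [this]
    ring

theorem Mi_all (hK : 0 ≤ K) (hX : ∀ y, ConvexOn ℝ univ fun x => g x * h y)
    (hY : ∀ x, ConvexOn ℝ univ fun y => g x * h y) (hR : RR (fun x y => g x * h y) K) :
    Mi (fun x y => g x * h y) K := by
  have hY' : ∀ x, ConvexOn ℝ univ fun y => h y * g x := fun x =>
    (hY x).congr fun y _ => mul_comm _ _
  have gp : (∃ y, 0 < h y) → ConvexOn ℝ univ g := fun ⟨y, hy⟩ => conv_of_pos hy (hX y)
  have gn : (∃ y, h y < 0) → ConvexOn ℝ univ fun x => -g x := fun ⟨y, hy⟩ => conv_of_neg hy (hX y)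
  have hp : (∃ x, 0 < g x) → ConvexOn ℝ univ h := fun ⟨x, hx⟩ => conv_of_pos hx (hY' x)
  have hn : (∃ x, g x < 0) → ConvexOn ℝ univ fun y => -h y := fun ⟨x, hx⟩ =>
    conv_of_neg hx (hY' x)
  have signs : ∀ {α β : ℝ} {f : ℝ → ℝ}, α ≠ 0 → (∀ x, f x = α * x + β) →
      (∃ x, 0 < f x) ∧ ∃ x, f x < 0 := by
    intro α β f hα hf
    refine ⟨⟨(1 - β) / α, ?_⟩, ⟨(-1 - β) / α, ?_⟩⟩
    · rw [hf, mul_div_cancel₀ _ hα]
      linarith
    · rw [hf, mul_div_cancel₀ _ hα]
      linarith
  by_cases P1 : ∃ y, 0 < h y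
  · by_cases P2 : ∃ y, h y < 0
    · obtain ⟨α, β, hg⟩ := aff_of (gp P1) (gn P2)
      by_cases hα : α = 0
      · refine Mi_const_left hK hX hY fun x x' => ?_
        rw [hg, hg, hα]
        ring
      · obtain ⟨Q1, Q2⟩ := signs hα hg
        obtain ⟨γ, δ, hh⟩ := aff_of (hp Q1) (hn Q2)
        exact Mi_bilin hX hY hR hg hh
    · push Not at P2
      by_cases Q2 : ∃ x, g x < 0
      · by_cases Q1 : ∃ x, 0 < g x
        · obtain ⟨γ, δ, hh⟩ := aff_of (hp Q1) (hn Q2)
          by_cases hγ : γ = 0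
          · refine Mi_const_right hK hX hY fun y y' => ?_
            rw [hh, hh, hγ]
            ring
          · obtain ⟨_, ⟨y, hy⟩⟩ := signs hγ hh
            exact absurd hy (not_lt.2 (P2 y))
        · push Not at Q1
          exact Mi_const_left hK hX hY (const_of (gp P1) Q1)
      · push Not at Q2
        by_cases Q1 : ∃ x, 0 < g x
        · exact Mi_prod hK (gp P1) (hp Q1) Q2 P2 hR
        · push Not at Q1
          refine Mi_const_left hK hX hY fun x x' => ?_
          rw [le_antisymm (Q1 x) (Q2 x), le_antisymm (Q1 x') (Q2 x')]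
  · push Not at P1
    by_cases P2 : ∃ y, h y < 0
    · by_cases Q2 : ∃ x, g x < 0
      · by_cases Q1 : ∃ x, 0 < g x
        · obtain ⟨γ, δ, hh⟩ := aff_of (hp Q1) (hn Q2)
          by_cases hγ : γ = 0
          · refine Mi_const_right hK hX hY fun y y' => ?_
            rw [hh, hh, hγ]
            ring
          · obtain ⟨⟨y, hy⟩, _⟩ := signs hγ hh
            exact absurd hy (not_lt.2 (P1 y))
        · push Not at Q1
          have hR' : RR (fun x y => -g x * -h y) K := by
            intro x y a b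
            have := hR x y a b
            simp only [neg_mul_neg] at this ⊢
            exact this
          have := Mi_prod hK (gn P2) (hn Q2) (fun x => by linarith [Q1 x])
            (fun y => by linarith [P1 y]) hR'
          simpa only [neg_mul_neg] using this
      · push Not at Q2
        by_cases Q1 : ∃ x, 0 < g x
        · exact Mi_const_right hK hX hY (const_of (hp Q1) P1)
        · push Not at Q1
          refine Mi_const_left hK hX hY fun x x' => ?_
          rw [le_antisymm (Q1 x) (Q2 x), le_antisymm (Q1 x') (Q2 x')]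
    · push Not at P2
      refine Mi_const_right hK hX hY fun y y' => ?_
      rw [le_antisymm (P1 y) (P2 y), le_antisymm (P1 y') (P2 y')]

end

theorem QC_of_DQ {f : ℝ → ℝ → ℝ} {K : ℝ} (c : ℝ)
    (hfc : Continuous fun z : ℝ × ℝ => f z.1 z.2) (hD : DQ (Wf f K)) :
    N555.MQ.QC (En f K c) := by
  have hcW : Continuous (Wf f K) := by
    unfold Wf
    exact (hfc.comp (f := fun F : E => (F 0 0, F 1 1)) (by fun_prop)).add (by fun_prop)
  have hc2 : Continuous (fun F : E => c * N555.MQ.dt F) :=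
    continuous_const.mul N555.MQ.continuous_dt
  have e : (fun F : E => En f K c (Matrix.of F)) = fun F : E => Wf f K F + c * N555.MQ.dt F := by
    funext F
    unfold En
    rw [N555.MQ.det_of]
    rfl
  refine N555.MQ.QC_of_trig ?_ ?_
  · rw [e]
    exact hcW.add hc2
  · rw [e]
    exact (trig_of_DQ hcW hD).add (N555.MQ.QCtrig_dt c) hcW hc2

/-- **The theorem on products.** -/
theorem prod_main (g h : ℝ → ℝ) (K c : ℝ)
    (hroc : RankOneConvex (En (fun x y => g x * h y) K c)) :
    N555.MQ.QC (En (fun x y => g x * h y) K c) := by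
  refine QC_of_DQ c ?_ (Mi_all (roc_K hroc) (roc_x hroc) (roc_y hroc) (roc_RR hroc)).dq
  have hc := hroc.continuous
  have h1 : Continuous fun z : ℝ × ℝ => (!![z.1, 0; 0, z.2] : Matrix (Fin 2) (Fin 2) ℝ) := by
    refine continuous_matrix fun i j => ?_
    fin_cases i <;> fin_cases j <;> simp <;> fun_prop
  have h2 := hc.comp h1
  have e : (fun z : ℝ × ℝ => g z.1 * h z.2) = fun z : ℝ × ℝ =>
      (En (fun x y => g x * h y) K c ∘ fun z : ℝ × ℝ => !![z.1, 0; 0, z.2]) z
        - c * (z.1 * z.2) := by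
    funext z
    simp only [Function.comp]
    rw [En_apply]
    ring
  rw [e]
  exact h2.sub (by fun_prop)

end Pool.Agent.V5helper21.Mor
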