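import Pool.Agent.V5helper21.Mor.Fin
import Pool.Agent.V5helper21.Mor.Disc3

/-!
# The discrete inequality at one point, for functions which are touched from below

`Pt f q x0 y0` is the inequality of quasiconvexity on all torus grids for
`f(F₀₀, F₁₁) + q(F₀₁, F₁₀)`, at the matrices with the diagonal `(x0, y0)`.
-/

set_option autoImplicit false

open MeasureTheory Set Filter Topology
open Pool.Agent.W779.Morrey

namespace Pool.Agent.V5helper21.Mor

theorem CV.conv_right {q : ℝ → ℝ → ℝ} (h : CV q) (s : ℝ) : ConvexOn ℝ Set.univ fun t => q s t := by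
  refine ⟨convex_univ, fun t _ t' _ a b ha hb hab => ?_⟩
  have := h s t s t' b hb (by linarith)
  have ha' : a = 1 - b := by linarith
  rw [show (1 - b) * s + b * s = s by ring] at this
  simp only [smul_eq_mul]
  rw [ha']
  exact this

theorem CV.convexOn {q : ℝ → ℝ → ℝ} (h : CV q) :
    ConvexOn ℝ Set.univ fun z : ℝ × ℝ => q z.1 z.2 := by
  refine ⟨convex_univ, fun z _ w _ a b ha hb hab => ?_⟩
  have := h z.1 z.2 w.1 w.2 b hb (by linarith)
  have ha' : a = 1 - b := by linarith
  rw [ha']
  simpa only [Prod.fst_add, Prod.snd_add, Prod.smul_fst, Prod.smul_snd, smul_eq_mul] using this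

theorem CV.continuous {q : ℝ → ℝ → ℝ} (h : CV q) : Continuous fun z : ℝ × ℝ => q z.1 z.2 :=
  continuousOn_univ.1 (h.convexOn.continuousOn isOpen_univ)

theorem CV.neg_right {q : ℝ → ℝ → ℝ} (h : CV q) : CV fun s t => q s (-t) := by
  intro s t s' t' l hl0 hl1
  have := h s (-t) s' (-t') l hl0 hl1
  rwa [show (1 - l) * -t + l * -t' = -((1 - l) * t + l * t') by ring] at this

theorem CV.neg_left {q : ℝ → ℝ → ℝ} (h : CV q) : CV fun s t => q (-s) t := by
  intro s t s' t' l hl0 hl1
  have := h (-s) t (-s') t' l hl0 hl1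
  rwa [show (1 - l) * -s + l * -s' = -((1 - l) * s + l * s') by ring] at this

theorem CV.swap {q : ℝ → ℝ → ℝ} (h : CV q) : CV fun s t => q t s :=
  fun s t s' t' l hl0 hl1 => h t s t' s' l hl0 hl1

/-- the inequality at the diagonal `(x0, y0)` -/
def Pt (f q : ℝ → ℝ → ℝ) (x0 y0 : ℝ) : Prop :=
  ∀ (n : ℕ) [NeZero n] (s0 t0 : ℝ) (u v : ZMod n → ZMod n → ℝ),
    ∑ _i : ZMod n, ∑ _j : ZMod n, (f x0 y0 + q s0 t0)
      ≤ ∑ i, ∑ j, (f (x0 + (u i j - u (i - 1) j)) (y0 + (v i j - v i (j - 1)))
        + q (s0 + (u i (j + 1) - u i j)) (t0 + (v (i + 1) j - v i j)))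

theorem Pt.low {f q : ℝ → ℝ → ℝ} {L : ℝ}
    (hx : ∀ y, ConvexOn ℝ Set.univ fun x => f x y)
    (hy : ∀ x, ConvexOn ℝ Set.univ (f x))
    (hL : ∀ x x' y y', |f x' y' - f x' y - f x y' + f x y| ≤ L * |x' - x| * |y' - y|)
    (q1 : CV fun s t => q s t + L * (s * t)) (q2 : CV fun s t => q s t - L * (s * t))
    (x0 y0 : ℝ) (hm : ∀ y y', y ≤ y' → y' ≤ y0 → ConvexOn ℝ Set.univ fun x => f x y' - f x y) :
    Pt f q x0 y0 := by
  intro N _ s0 t0 u v
  have hc : ∀ x, Continuous (f x) := fun x => by
    have := (hy x).continuousOn isOpen_univ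
    exact continuousOn_univ.1 this
  have hcq : ∀ s, Continuous (q s) := fun s =>
    continuousOn_univ.1 (((CV.base q1 q2).conv_right s).continuousOn isOpen_univ)
  set w : ℕ → ZMod N → ZMod N → ℝ := fun m i j =>
    (⌊v i j * ((m : ℝ) + 1)⌋ : ℝ) * (1 / ((m : ℝ) + 1)) with hw
  have hwt : ∀ i j, Tendsto (fun m => w m i j) atTop (𝓝 (v i j)) := fun i j => tendsto_floor _
  refine ge_of_tendsto' (x := (atTop : Filter ℕ)) (f := fun m : ℕ =>
    ∑ i, ∑ j, (f (x0 + (u i j - u (i - 1) j)) (y0 + (w m i j - w m i (j - 1)))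
        + q (s0 + (u i (j + 1) - u i j)) (t0 + (w m (i + 1) j - w m i j)))) ?_
    fun m => ?_
  · refine tendsto_finsetSum _ fun i _ => tendsto_finsetSum _ fun j _ => Tendsto.add ?_ ?_
    · refine ((hc _).tendsto _).comp ?_
      exact tendsto_const_nhds.add ((hwt i j).sub (hwt i (j - 1)))
    · refine ((hcq _).tendsto _).comp ?_
      exact tendsto_const_nhds.add ((hwt (i + 1) j).sub (hwt i j))
  · exact disc_lat3 hx hy hL q1 q2 x0 y0 s0 t0 hm (τ := 1 / ((m : ℝ) + 1)) (by positivity) u (w m)
      fun i j => ⟨_, rfl⟩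

theorem Pt.mono {f g q : ℝ → ℝ → ℝ} {x0 y0 : ℝ} (h : Pt g q x0 y0) (hgf : ∀ x y, g x y ≤ f x y)
    (h0 : f x0 y0 ≤ g x0 y0) : Pt f q x0 y0 := by
  intro n _ s0 t0 u v
  refine (Finset.sum_le_sum fun i _ => Finset.sum_le_sum fun j _ => ?_).trans
    ((h n s0 t0 u v).trans (Finset.sum_le_sum fun i _ => Finset.sum_le_sum fun j _ => ?_))
  · linarith
  · have := hgf (x0 + (u i j - u (i - 1) j)) (y0 + (v i j - v i (j - 1)))
    linarith

theorem Pt.neg {f q : ℝ → ℝ → ℝ} {x0 y0 : ℝ}
    (h : Pt (fun x y => f x (-y)) (fun s t => q s (-t)) x0 (-y0)) : Pt f q x0 y0 := by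
  intro n _ s0 t0 u v
  have h1 := h n s0 (-t0) u (fun i j => -v i j)
  refine (le_of_eq ?_).trans (h1.trans (le_of_eq ?_))
  · refine Finset.sum_congr rfl fun i _ => Finset.sum_congr rfl fun j _ => ?_
    simp
  · refine Finset.sum_congr rfl fun i _ => Finset.sum_congr rfl fun j _ => ?_
    beta_reduce
    have e : -(-y0 + (-v i j - -v i (j - 1))) = y0 + (v i j - v i (j - 1)) := by ring
    have e' : -(-t0 + (-v (i + 1) j - -v i j)) = t0 + (v (i + 1) j - v i j) := by ring
    rw [e, e']

theorem Pt.swap {f q : ℝ → ℝ → ℝ} {x0 y0 : ℝ}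
    (h : Pt (fun x y => f y x) (fun s t => q t s) y0 x0) : Pt f q x0 y0 := by
  intro n _ s0 t0 u v
  have h1 := h n t0 s0 (fun i j => v j i) (fun i j => u j i)
  refine (le_of_eq ?_).trans (h1.trans (le_of_eq ?_))
  · exact Finset.sum_congr rfl fun i _ => Finset.sum_congr rfl fun j _ => rfl
  · rw [Finset.sum_comm]

/-- gluing with an affine function below the level `y1 ≤ y0` -/
theorem Pt.glue {f q : ℝ → ℝ → ℝ} {L : ℝ}
    (hx : ∀ y, ConvexOn ℝ Set.univ fun x => f x y)
    (hy : ∀ x, ConvexOn ℝ Set.univ (f x))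
    (hL : ∀ x x' y y', |f x' y' - f x' y - f x y' + f x y| ≤ L * |x' - x| * |y' - y|)
    (q1 : CV fun s t => q s t + L * (s * t)) (q2 : CV fun s t => q s t - L * (s * t))
    (x0 y0 y1 : ℝ) (h10 : y1 ≤ y0)
    (hm : ∀ y y', y1 ≤ y → y ≤ y' → y' ≤ y0 → ConvexOn ℝ Set.univ fun x => f x y' - f x y)
    (p d : ℝ) (hp : |p| ≤ L)
    (hlow : ∀ x y, y ≤ y1 → f x y1 + (p * x + d) * (y - y1) ≤ f x y)
    (hup : ∀ x y, y1 ≤ y → f x y1 + (p * x + d) * (y - y1) ≤ f x y) :
    Pt f q x0 y0 := by
  set g : ℝ → ℝ → ℝ := fun x y => f x (max y y1) + (p * x + d) * (y - max y y1) with hg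
  have hgf : ∀ x y, g x y ≤ f x y := by
    intro x y
    rcases le_total y y1 with h | h
    · simp only [hg, max_eq_right h]
      exact hlow x y h
    · simp only [hg, max_eq_left h]
      simp
  have haff : ∀ c : ℝ, ConvexOn ℝ Set.univ fun x : ℝ => (p * x + d) * c := by
    intro c
    refine ⟨convex_univ, fun x _ y _ a b ha hb hab => le_of_eq ?_⟩
    simp only [smul_eq_mul]
    have : a = 1 - b := by linarith
    rw [this]
    ring
  refine Pt.mono (g := g) (Pt.low (L := L) ?_ ?_ ?_ q1 q2 x0 y0 ?_) hgf ?_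
  · intro y
    exact (hx (max y y1)).add (haff _)
  · intro x
    -- monotone part
    have hmono : ∀ z z', y1 ≤ z → z ≤ z' → f x z - (p * x + d) * z ≤ f x z' - (p * x + d) * z' := by
      intro z z' hz hzz
      rcases eq_or_lt_of_le hz with h1 | h1
      · rw [← h1] at hzz ⊢
        have := hup x z' hzz
        linarith
      · rcases eq_or_lt_of_le hzz with h2 | h2
        · rw [h2]
        · have h3 := (hy x).slope_mono_adjacent (mem_univ y1) (mem_univ z') h1 h2
          have h4 := hup x z h1.le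
          have h5 : p * x + d ≤ (f x z - f x y1) / (z - y1) := by
            rw [le_div_iff₀ (by linarith)]
            linarith
          have h6 := h5.trans h3
          rw [le_div_iff₀ (by linarith)] at h6
          linarith
    refine ⟨convex_univ, fun y _ z _ a b ha hb hab => ?_⟩
    simp only [hg, smul_eq_mul]
    have h1 : max (a * y + b * z) y1 ≤ a * max y y1 + b * max z y1 := by
      refine max_le ?_ ?_
      · have := mul_le_mul_of_nonneg_left (le_max_left y y1) ha
        have := mul_le_mul_of_nonneg_left (le_max_left z y1) hb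
        linarith
      · have := mul_le_mul_of_nonneg_left (le_max_right y y1) ha
        have := mul_le_mul_of_nonneg_left (le_max_right z y1) hb
        have e : y1 = a * y1 + b * y1 := by rw [← add_mul, hab, one_mul]
        linarith
    have h2 := hmono _ _ (le_max_right (a * y + b * z) y1) h1
    have h3 := (hy x).2 (mem_univ (max y y1)) (mem_univ (max z y1)) ha hb hab
    simp only [smul_eq_mul] at h3
    nlinarith
  · intro x x' y y'
    simp only [hg]
    have e : f x' (max y' y1) + (p * x' + d) * (y' - max y' y1)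
        - (f x' (max y y1) + (p * x' + d) * (y - max y y1))
        - (f x (max y' y1) + (p * x + d) * (y' - max y' y1))
        + (f x (max y y1) + (p * x + d) * (y - max y y1))
        = (f x' (max y' y1) - f x' (max y y1) - f x (max y' y1) + f x (max y y1))
          + p * (x' - x) * ((y' - max y' y1) - (y - max y y1)) := by ring
    rw [e]
    have h1 := hL x x' (max y y1) (max y' y1)
    have h2 : |max y' y1 - max y y1| + |(y' - max y' y1) - (y - max y y1)| = |y' - y| := by
      rcases le_total y y1 with a1 | a1 <;> rcases le_total y' y1 with a2 | a2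
      · rw [max_eq_right a1, max_eq_right a2]
        simp
      · rw [max_eq_right a1, max_eq_left a2, abs_of_nonneg (show 0 ≤ y' - y1 by linarith),
          abs_of_nonneg (show 0 ≤ y' - y' - (y - y1) by linarith),
          abs_of_nonneg (show 0 ≤ y' - y by linarith)]
        ring
      · rw [max_eq_left a1, max_eq_right a2, abs_of_nonpos (show y1 - y ≤ 0 by linarith),
          abs_of_nonpos (show y' - y1 - (y - y) ≤ 0 by linarith),
          abs_of_nonpos (show y' - y ≤ 0 by linarith)]
        ring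
      · rw [max_eq_left a1, max_eq_left a2]
        simp
    calc |(f x' (max y' y1) - f x' (max y y1) - f x (max y' y1) + f x (max y y1))
          + p * (x' - x) * ((y' - max y' y1) - (y - max y y1))|
        ≤ L * |x' - x| * |max y' y1 - max y y1|
          + L * |x' - x| * |(y' - max y' y1) - (y - max y y1)| := by
          refine (abs_add_le _ _).trans (add_le_add h1 ?_)
          rw [abs_mul, abs_mul]
          exact mul_le_mul_of_nonneg_right (mul_le_mul_of_nonneg_right hp (abs_nonneg _))
            (abs_nonneg _)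
      _ = L * |x' - x| * |y' - y| := by rw [← mul_add, h2]
  · intro y y' hyy hy'
    have h1 : max y y1 ≤ max y' y1 := max_le_max_right y1 hyy
    have h2 : max y' y1 ≤ y0 := max_le hy' h10
    refine ((hm _ _ (le_max_right y y1) h1 h2).add
      (haff ((y' - max y' y1) - (y - max y y1)))).congr fun x _ => ?_
    simp only [hg, Pi.add_apply]
    ring
  · simp only [hg, max_eq_left h10]
    simp

end Pool.Agent.V5helper21.Mor
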