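import Pool.Agent.V5helper21.Mor.Pt

/-!
# Functions whose mixed derivative is monotone on each horizontal line
-/

set_option autoImplicit false

open MeasureTheory Set Filter Topology

namespace Pool.Agent.V5helper21.Mor

/-- right derivative in the second variable -/
noncomputable def RD (f : ℝ → ℝ → ℝ) (x y : ℝ) : ℝ := derivWithin (f x) (Ioi y) y

/-- left derivative in the second variable -/
noncomputable def LD (f : ℝ → ℝ → ℝ) (x y : ℝ) : ℝ := derivWithin (f x) (Iio y) y

/-! ### One-sided derivatives of convex functions of one variable -/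

theorem rd_le {g : ℝ → ℝ} (hg : ConvexOn ℝ Set.univ g) (a x : ℝ) :
    derivWithin g (Ioi a) a * (x - a) ≤ g x - g a := by
  have hi : a ∈ interior (Set.univ : Set ℝ) := by simp
  rcases lt_trichotomy a x with h | h | h
  · have h1 := hg.rightDeriv_le_slope_of_mem_interior hi (Set.mem_univ x) h
    rw [slope_def_field, le_div_iff₀ (by linarith)] at h1
    linarith
  · subst h
    simp
  · have h1 := hg.slope_le_leftDeriv_of_mem_interior (Set.mem_univ x) hi h
    have h2 := hg.leftDeriv_le_rightDeriv_of_mem_interior hi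
    rw [slope_def_field, div_le_iff₀ (by linarith)] at h1
    nlinarith

theorem ld_le {g : ℝ → ℝ} (hg : ConvexOn ℝ Set.univ g) (a x : ℝ) :
    derivWithin g (Iio a) a * (x - a) ≤ g x - g a := by
  have hi : a ∈ interior (Set.univ : Set ℝ) := by simp
  rcases lt_trichotomy a x with h | h | h
  · have h1 := hg.rightDeriv_le_slope_of_mem_interior hi (Set.mem_univ x) h
    have h2 := hg.leftDeriv_le_rightDeriv_of_mem_interior hi
    rw [slope_def_field, le_div_iff₀ (by linarith)] at h1
    nlinarith
  · subst h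
    simp
  · have h1 := hg.slope_le_leftDeriv_of_mem_interior (Set.mem_univ x) hi h
    rw [slope_def_field, div_le_iff₀ (by linarith)] at h1
    linarith

theorem tendsto_rd {g : ℝ → ℝ} (hg : ConvexOn ℝ Set.univ g) (a : ℝ) :
    Tendsto (fun h => (g (a + h) - g a) / h) (𝓝[>] 0) (𝓝 (derivWithin g (Ioi a) a)) := by
  have hi : a ∈ interior (Set.univ : Set ℝ) := by simp
  have h1 := hg.hasDerivWithinAt_rightDeriv_of_mem_interior hi
  rw [hasDerivWithinAt_iff_tendsto_slope' (by simp)] at h1
  have h2 : Tendsto (fun h : ℝ => a + h) (𝓝[>] 0) (𝓝[>] a) := by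
    refine tendsto_nhdsWithin_iff.2 ⟨?_, ?_⟩
    · have : Tendsto (fun h : ℝ => a + h) (𝓝 0) (𝓝 (a + 0)) :=
        tendsto_const_nhds.add tendsto_id
      rw [add_zero] at this
      exact this.mono_left nhdsWithin_le_nhds
    · filter_upwards [self_mem_nhdsWithin] with h hh
      have : (0 : ℝ) < h := hh
      simp [this]
  refine (h1.comp h2).congr fun h => ?_
  simp [slope_def_field]

theorem tendsto_ld {g : ℝ → ℝ} (hg : ConvexOn ℝ Set.univ g) (a : ℝ) :
    Tendsto (fun h => (g a - g (a - h)) / h) (𝓝[>] 0) (𝓝 (derivWithin g (Iio a) a)) := by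
  have hi : a ∈ interior (Set.univ : Set ℝ) := by simp
  have h1 := hg.hasDerivWithinAt_leftDeriv_of_mem_interior hi
  rw [hasDerivWithinAt_iff_tendsto_slope' (by simp)] at h1
  have h2 : Tendsto (fun h : ℝ => a - h) (𝓝[>] 0) (𝓝[<] a) := by
    refine tendsto_nhdsWithin_iff.2 ⟨?_, ?_⟩
    · have : Tendsto (fun h : ℝ => a - h) (𝓝 0) (𝓝 (a - 0)) :=
        tendsto_const_nhds.sub tendsto_id
      rw [sub_zero] at this
      exact this.mono_left nhdsWithin_le_nhds
    · filter_upwards [self_mem_nhdsWithin] with h hh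
      have : (0 : ℝ) < h := hh
      simp [this]
  refine (h1.comp h2).congr fun h => ?_
  simp only [Function.comp_apply, slope_def_field]
  rw [show a - h - a = -h by ring, div_neg, ← neg_div, neg_sub]

section

variable {f : ℝ → ℝ → ℝ} (hy : ∀ x, ConvexOn ℝ Set.univ (f x))
include hy

theorem cont_snd (x : ℝ) : Continuous (f x) :=
  continuousOn_univ.1 ((hy x).continuousOn isOpen_univ)

theorem RD_mono (x : ℝ) {y y' : ℝ} (h : y ≤ y') : RD f x y ≤ RD f x y' := by
  rcases eq_or_lt_of_le h with h | h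
  · rw [h]
  · have h1 := rd_le (hy x) y y'
    have h2 := rd_le (hy x) y' y
    unfold RD
    nlinarith

theorem RD_le_LD (x : ℝ) {y y' : ℝ} (h : y < y') : RD f x y ≤ LD f x y' := by
  have h1 := rd_le (hy x) y y'
  have h2 := ld_le (hy x) y' y
  unfold RD LD
  nlinarith

theorem LD_le_RD (x y : ℝ) : LD f x y ≤ RD f x y := by
  have h1 := ld_le (hy x) y (y + 1)
  have hi : y ∈ interior (Set.univ : Set ℝ) := by simp
  exact (hy x).leftDeriv_le_rightDeriv_of_mem_interior hi

theorem RD_le_quot (x y : ℝ) {h : ℝ} (hh : 0 < h) : RD f x y ≤ (f x (y + h) - f x y) / h := by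
  rw [le_div_iff₀ hh]
  have := rd_le (hy x) y (y + h)
  unfold RD
  simpa using this

theorem quot_le_RD (x y : ℝ) {h : ℝ} (hh : 0 < h) : (f x y - f x (y - h)) / h ≤ RD f x y := by
  rw [div_le_iff₀ hh]
  have := rd_le (hy x) y (y - h)
  unfold RD
  have e : y - h - y = -h := by ring
  rw [e] at this
  linarith

/-- limits of levels from the right -/
theorem conv_right {y : ℝ}
    (hfr : ∃ᶠ z in 𝓝[≥] y, ConvexOn ℝ Set.univ fun x => RD f x z) :
    ConvexOn ℝ Set.univ fun x => RD f x y := by
  refine ⟨convex_univ, fun x _ x' _ a b ha hb hab => ?_⟩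
  simp only [smul_eq_mul]
  have claim : ∀ h : ℝ, 0 < h → RD f (a * x + b * x') y
      ≤ a * ((f x (y + h) - f x y) / h) + b * ((f x' (y + h) - f x' y) / h) := by
    intro h hh
    have hc : Continuous fun z => a * ((f x (z + h) - f x z) / h)
        + b * ((f x' (z + h) - f x' z) / h) := by
      have c1 := cont_snd hy x
      have c2 := cont_snd hy x'
      exact (continuous_const.mul (((c1.comp (continuous_id.add continuous_const)).sub c1).div_const
        h)).add (continuous_const.mul (((c2.comp (continuous_id.add continuous_const)).sub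
        c2).div_const h))
    refine ge_of_tendsto_of_frequently
      ((hc.tendsto y).mono_left (nhdsWithin_le_nhds (s := Set.Ici y))) ?_
    refine (hfr.and_eventually self_mem_nhdsWithin).mono ?_
    rintro z ⟨hz, hyz⟩
    have h1 : RD f (a * x + b * x') y ≤ RD f (a * x + b * x') z := RD_mono hy _ hyz
    have h2 := hz.2 (mem_univ x) (mem_univ x') ha hb hab
    simp only [smul_eq_mul] at h2
    have h3 := mul_le_mul_of_nonneg_left (RD_le_quot hy x z hh) ha
    have h4 := mul_le_mul_of_nonneg_left (RD_le_quot hy x' z hh) hb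
    linarith
  refine ge_of_tendsto (((tendsto_rd (hy x) y).const_mul a).add
    ((tendsto_rd (hy x') y).const_mul b)) ?_
  filter_upwards [self_mem_nhdsWithin] with h hh
  exact claim h hh

/-- limits of levels from the left -/
theorem conc_left {y : ℝ}
    (hfr : ∃ᶠ z in 𝓝[<] y, ConcaveOn ℝ Set.univ fun x => RD f x z) :
    ConcaveOn ℝ Set.univ fun x => LD f x y := by
  refine ⟨convex_univ, fun x _ x' _ a b ha hb hab => ?_⟩
  simp only [smul_eq_mul]
  have claim : ∀ h : ℝ, 0 < h →
      a * ((f x y - f x (y - h)) / h) + b * ((f x' y - f x' (y - h)) / h)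
        ≤ LD f (a * x + b * x') y := by
    intro h hh
    have hc : Continuous fun z => a * ((f x z - f x (z - h)) / h)
        + b * ((f x' z - f x' (z - h)) / h) := by
      have c1 := cont_snd hy x
      have c2 := cont_snd hy x'
      exact (continuous_const.mul ((c1.sub (c1.comp (continuous_id.sub continuous_const))).div_const
        h)).add (continuous_const.mul ((c2.sub (c2.comp (continuous_id.sub
        continuous_const))).div_const h))
    refine le_of_tendsto_of_frequently
      ((hc.tendsto y).mono_left (nhdsWithin_le_nhds (s := Set.Iio y))) ?_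
    refine (hfr.and_eventually self_mem_nhdsWithin).mono ?_
    rintro z ⟨hz, hyz⟩
    have h1 : RD f (a * x + b * x') z ≤ LD f (a * x + b * x') y := RD_le_LD hy _ hyz
    have h2 := hz.2 (mem_univ x) (mem_univ x') ha hb hab
    simp only [smul_eq_mul] at h2
    have h3 := mul_le_mul_of_nonneg_left (quot_le_RD hy x z hh) ha
    have h4 := mul_le_mul_of_nonneg_left (quot_le_RD hy x' z hh) hb
    linarith
  refine le_of_tendsto (((tendsto_ld (hy x) y).const_mul a).add
    ((tendsto_ld (hy x') y).const_mul b)) ?_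
  filter_upwards [self_mem_nhdsWithin] with h hh
  exact claim h hh

/-- increments over an interval of levels -/
theorem inc_conv {y1 y2 : ℝ} (h12 : y1 ≤ y2)
    (hC : ∀ y ∈ Ico y1 y2, ConvexOn ℝ Set.univ fun x => RD f x y) :
    ConvexOn ℝ Set.univ fun x => f x y2 - f x y1 := by
  refine ⟨convex_univ, fun x _ x' _ a b ha hb hab => ?_⟩
  simp only [smul_eq_mul]
  set m := a * x + b * x' with hm
  have hi : ∀ y : ℝ, y ∈ interior (Set.univ : Set ℝ) := fun y => by simp
  have hd : ∀ z y, HasDerivWithinAt (f z) (RD f z y) (Ici y) y := fun z y =>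
    ((hy z).hasDerivWithinAt_rightDeriv_of_mem_interior (hi y)).Ici_of_Ioi
  have hc : Continuous fun y => a * f x y + b * f x' y - f m y :=
    ((continuous_const.mul (cont_snd hy x)).add (continuous_const.mul (cont_snd hy x'))).sub
      (cont_snd hy m)
  have := image_le_of_deriv_right_le_deriv_boundary (a := y1) (b := y2)
    (f := fun _ => a * f x y1 + b * f x' y1 - f m y1) (f' := fun _ => 0)
    (B := fun y => a * f x y + b * f x' y - f m y)
    (B' := fun y => a * RD f x y + b * RD f x' y - RD f m y)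
    continuousOn_const (fun y _ => hasDerivWithinAt_const _ _ _) le_rfl hc.continuousOn
    (fun y _ => (((hd x y).const_mul a).add ((hd x' y).const_mul b)).sub (hd m y))
    (fun y hy => by
      have h2 := (hC y hy).2 (mem_univ x) (mem_univ x') ha hb hab
      simp only [smul_eq_mul] at h2
      linarith) (right_mem_Icc.2 h12)
  linarith

theorem inc_conc {y1 y2 : ℝ} (h12 : y1 ≤ y2)
    (hC : ∀ y ∈ Ico y1 y2, ConcaveOn ℝ Set.univ fun x => RD f x y) :
    ConcaveOn ℝ Set.univ fun x => f x y2 - f x y1 := by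
  refine ⟨convex_univ, fun x _ x' _ a b ha hb hab => ?_⟩
  simp only [smul_eq_mul]
  set m := a * x + b * x' with hm
  have hi : ∀ y : ℝ, y ∈ interior (Set.univ : Set ℝ) := fun y => by simp
  have hd : ∀ z y, HasDerivWithinAt (f z) (RD f z y) (Ici y) y := fun z y =>
    ((hy z).hasDerivWithinAt_rightDeriv_of_mem_interior (hi y)).Ici_of_Ioi
  have hc : Continuous fun y => f m y - (a * f x y + b * f x' y) :=
    (cont_snd hy m).sub
      ((continuous_const.mul (cont_snd hy x)).add (continuous_const.mul (cont_snd hy x')))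
  have := image_le_of_deriv_right_le_deriv_boundary (a := y1) (b := y2)
    (f := fun _ => f m y1 - (a * f x y1 + b * f x' y1)) (f' := fun _ => 0)
    (B := fun y => f m y - (a * f x y + b * f x' y))
    (B' := fun y => RD f m y - (a * RD f x y + b * RD f x' y))
    continuousOn_const (fun y _ => hasDerivWithinAt_const _ _ _) le_rfl hc.continuousOn
    (fun y _ => (hd m y).sub (((hd x y).const_mul a).add ((hd x' y).const_mul b)))
    (fun y hy => by
      have h2 := (hC y hy).2 (mem_univ x) (mem_univ x') ha hb hab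
      simp only [smul_eq_mul] at h2
      linarith) (right_mem_Icc.2 h12)
  linarith

end

/-! ### An affine function between a concave and a convex function -/

theorem sandwich {A B : ℝ → ℝ} (hA : ConcaveOn ℝ Set.univ A) (hB : ConvexOn ℝ Set.univ B)
    (hAB : ∀ x, A x ≤ B x) : ∃ p d : ℝ, ∀ x, A x ≤ p * x + d ∧ p * x + d ≤ B x := by
  -- the slope
  obtain ⟨p, hp1, hp2⟩ : ∃ p : ℝ, (∀ x x', x' < x → A x - B x' ≤ p * (x - x')) ∧
      ∀ z z', z < z' → p * (z' - z) ≤ B z' - A z := by
    have hkey : ∀ r ∈ {r : ℝ | ∃ x x' : ℝ, x' < x ∧ r = (A x - B x') / (x - x')},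
        ∀ r' ∈ {r : ℝ | ∃ z z' : ℝ, z < z' ∧ r = (B z' - A z) / (z' - z)}, r ≤ r' := by
      rintro _ ⟨x, x', hx, rfl⟩ _ ⟨z, z', hz, rfl⟩
      have e1 : 0 < x - x' := by linarith
      have e2 : 0 < z' - z := by linarith
      rw [div_le_div_iff₀ e1 e2]
      have hW : 0 < (z' - z) + (x - x') := by linarith
      set W := (z' - z) + (x - x') with hWd
      have w1 : (0 : ℝ) ≤ (z' - z) / W := by positivity
      have w2 : (0 : ℝ) ≤ (x - x') / W := by positivity
      have w3 : (z' - z) / W + (x - x') / W = 1 := by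
        rw [← add_div]
        exact div_self hW.ne'
      have a1 := hA.2 (mem_univ x) (mem_univ z) w1 w2 w3
      have b1 := hB.2 (mem_univ x') (mem_univ z') w1 w2 w3
      simp only [smul_eq_mul] at a1 b1
      have e3 : (z' - z) / W * x + (x - x') / W * z = (z' - z) / W * x' + (x - x') / W * z' := by
        field_simp
        ring
      rw [e3] at a1
      have h3 := (a1.trans (hAB _)).trans b1
      have e4 : (z' - z) / W * A x + (x - x') / W * A z
          = ((z' - z) * A x + (x - x') * A z) / W := by ring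
      have e5 : (z' - z) / W * B x' + (x - x') / W * B z'
          = ((z' - z) * B x' + (x - x') * B z') / W := by ring
      rw [e4, e5, div_le_div_iff_of_pos_right hW] at h3
      nlinarith
    obtain ⟨p, h1, h2⟩ := exists_between_of_forall_le
      (s := {r : ℝ | ∃ x x' : ℝ, x' < x ∧ r = (A x - B x') / (x - x')})
      (t := {r : ℝ | ∃ z z' : ℝ, z < z' ∧ r = (B z' - A z) / (z' - z)})
      ⟨_, 1, 0, by norm_num, rfl⟩ ⟨_, 0, 1, by norm_num, rfl⟩ hkey
    refine ⟨p, fun x x' h => ?_, fun z z' h => ?_⟩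
    · have := h1 ⟨x, x', h, rfl⟩
      rwa [div_le_iff₀ (by linarith)] at this
    · have := h2 ⟨z, z', h, rfl⟩
      rwa [le_div_iff₀ (by linarith)] at this
  obtain ⟨d, h1, h2⟩ := exists_between_of_forall_le
    (s := Set.range fun x => A x - p * x) (t := Set.range fun x => B x - p * x)
    (range_nonempty _) (range_nonempty _) (by
      rintro _ ⟨x, rfl⟩ _ ⟨x', rfl⟩
      rcases lt_trichotomy x x' with h | h | h
      · have := hp2 x x' h
        simp only
        linarith
      · subst h
        have := hAB x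
        simp only
        linarith
      · have := hp1 x x' h
        simp only
        linarith)
  refine ⟨p, d, fun x => ⟨?_, ?_⟩⟩
  · have := h1 ⟨x, rfl⟩
    simp only at this
    linarith
  · have := h2 ⟨x, rfl⟩
    simp only at this
    linarith

theorem slope_bound {A B : ℝ → ℝ} {p d L : ℝ} (h : ∀ x, A x ≤ p * x + d ∧ p * x + d ≤ B x)
    (hA : ∀ x, A 0 - L * |x| ≤ A x) (hB : ∀ x, B x ≤ B 0 + L * |x|) : |p| ≤ L := by
  rw [abs_le]
  constructor
  · by_contra hc
    push Not at hc
    have h0 : 0 ≤ d - A 0 := by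
      have := (h 0).1
      simp only [mul_zero, zero_add] at this
      linarith
    set x := (d - A 0 + 1) / (-L - p) with hx
    have hx0 : 0 < x := div_pos (by linarith) (by linarith)
    have h1 := (h x).1
    have h2 := hA x
    rw [abs_of_pos hx0] at h2
    have h3 : x * (-L - p) = d - A 0 + 1 := div_mul_cancel₀ _ (by linarith)
    nlinarith
  · by_contra hc
    push Not at hc
    have h0 : 0 ≤ B 0 - d := by
      have := (h 0).2
      simp only [mul_zero, zero_add] at this
      linarith
    set x := (B 0 - d + 1) / (p - L) with hx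
    have hx0 : 0 < x := div_pos (by linarith) (by linarith)
    have h1 := (h x).2
    have h2 := hB x
    rw [abs_of_pos hx0] at h2
    have h3 : x * (p - L) = B 0 - d + 1 := div_mul_cancel₀ _ (by linarith)
    nlinarith

section

variable {f : ℝ → ℝ → ℝ} {L : ℝ} (hy : ∀ x, ConvexOn ℝ Set.univ (f x))
  (hL : ∀ x x' y y', |f x' y' - f x' y - f x y' + f x y| ≤ L * |x' - x| * |y' - y|)
include hy hL

theorem RD_lip (x x' y : ℝ) : RD f x' y ≤ RD f x y + L * |x' - x| := by
  refine le_of_tendsto_of_tendsto (tendsto_rd (hy x') y)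
    ((tendsto_rd (hy x) y).add_const (L * |x' - x|)) ?_
  filter_upwards [self_mem_nhdsWithin] with h hh
  have hh' : (0 : ℝ) < h := hh
  have h1 := (abs_le.1 (hL x x' y (y + h))).2
  rw [add_sub_cancel_left, abs_of_pos hh'] at h1
  rw [div_add' _ _ _ hh'.ne', div_le_div_iff_of_pos_right hh']
  linarith

theorem LD_lip (x x' y : ℝ) : LD f x y - L * |x' - x| ≤ LD f x' y := by
  refine le_of_tendsto_of_tendsto ((tendsto_ld (hy x) y).sub_const (L * |x' - x|))
    (tendsto_ld (hy x') y) ?_
  filter_upwards [self_mem_nhdsWithin] with h hh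
  have hh' : (0 : ℝ) < h := hh
  have h1 := (abs_le.1 (hL x x' (y - h) y)).1
  rw [sub_sub_cancel, abs_of_pos hh'] at h1
  rw [div_sub' hh'.ne', div_le_div_iff_of_pos_right hh']
  linarith

/-- the separating affine function at a level where the function changes from concave to convex -/
theorem sep {y1 : ℝ} (h1 : ConvexOn ℝ Set.univ fun x => RD f x y1)
    (h2 : ConcaveOn ℝ Set.univ fun x => LD f x y1) :
    ∃ p d : ℝ, |p| ≤ L ∧ (∀ x y, y ≤ y1 → f x y1 + (p * x + d) * (y - y1) ≤ f x y) ∧
      ∀ x y, y1 ≤ y → f x y1 + (p * x + d) * (y - y1) ≤ f x y := by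
  obtain ⟨p, d, h⟩ := sandwich h2 h1 (fun x => LD_le_RD hy x y1)
  refine ⟨p, d, slope_bound h (fun x => ?_) (fun x => ?_), fun x y hyy => ?_, fun x y hyy => ?_⟩
  · have := LD_lip hy hL 0 x y1
    simpa using this
  · have := RD_lip hy hL 0 x y1
    simpa using this
  · have h3 := ld_le (hy x) y1 y
    have h4 := (h x).1
    unfold LD at h4
    nlinarith
  · have h3 := rd_le (hy x) y1 y
    have h4 := (h x).2
    unfold RD at h4
    nlinarith

end

/-- `f₁₂( · , y)` is monotone for every `y`. -/
def MonoSlices (f : ℝ → ℝ → ℝ) : Prop :=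
  ∀ y, ConvexOn ℝ Set.univ (fun x => RD f x y) ∨ ConcaveOn ℝ Set.univ fun x => RD f x y

theorem Pt.slices {f q : ℝ → ℝ → ℝ} {L : ℝ}
    (hx : ∀ y, ConvexOn ℝ Set.univ fun x => f x y)
    (hy : ∀ x, ConvexOn ℝ Set.univ (f x))
    (hL : ∀ x x' y y', |f x' y' - f x' y - f x y' + f x y| ≤ L * |x' - x| * |y' - y|)
    (q1 : CV fun s t => q s t + L * (s * t)) (q2 : CV fun s t => q s t - L * (s * t))
    (hM : MonoSlices f) (x0 y0 : ℝ) : Pt f q x0 y0 := by
  -- data for the reflected function
  have rx : ∀ y, ConvexOn ℝ Set.univ fun x => f x (-y) := fun y => hx (-y)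
  have ry : ∀ x, ConvexOn ℝ Set.univ fun y => f x (-y) := fun x => convexOn_comp_neg (hy x)
  have rL : ∀ x x' y y', |f x' (-y') - f x' (-y) - f x (-y') + f x (-y)|
      ≤ L * |x' - x| * |y' - y| := by
    intro x x' y y'
    have := hL x x' (-y) (-y')
    rwa [show |(-y') - (-y)| = |y' - y| by rw [← abs_neg]; ring_nf] at this
  have r1 : CV fun s t => q s (-t) + L * (s * t) := by
    have := q2.neg_right
    have e : (fun s t : ℝ => q s (-t) - L * (s * -t)) = fun s t => q s (-t) + L * (s * t) := by
      funext s t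
      ring
    rwa [e] at this
  have r2 : CV fun s t => q s (-t) - L * (s * t) := by
    have := q1.neg_right
    have e : (fun s t : ℝ => q s (-t) + L * (s * -t)) = fun s t => q s (-t) - L * (s * t) := by
      funext s t
      ring
    rwa [e] at this
  set V : ℝ → Prop := fun y => ConcaveOn ℝ Set.univ fun x => RD f x y with hV
  set C : ℝ → Prop := fun y => ConvexOn ℝ Set.univ fun x => RD f x y with hC
  have hor : ∀ y, ¬ V y → C y := fun y h => (hM y).resolve_right h
  have hor' : ∀ y, ¬ C y → V y := fun y h => (hM y).resolve_left h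
  set A : Set ℝ := {y | y0 ≤ y ∧ ∀ z ∈ Ico y0 y, V z} with hA
  have hA0 : y0 ∈ A := ⟨le_rfl, fun z hz => absurd hz.2 (not_lt.2 hz.1)⟩
  by_cases hbA : BddAbove A
  swap
  · -- all the levels above are concave
    have hall : ∀ z, y0 ≤ z → V z := by
      intro z hz
      obtain ⟨y, hyA, hzy⟩ := not_bddAbove_iff.1 hbA z
      exact hyA.2 z ⟨hz, hzy⟩
    refine Pt.neg (Pt.low (L := L) rx ry rL r1 r2 x0 (-y0) fun y y' h h' => ?_)
    have h1 := inc_conc hy (neg_le_neg h) fun z hz => hall z (by have := hz.1; linarith)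
    refine h1.neg.congr fun x _ => ?_
    simp
  set y1 := sSup A with hy1
  have hy01 : y0 ≤ y1 := le_csSup hbA hA0
  have hVA : ∀ z, y0 ≤ z → z < y1 → V z := by
    intro z hz hz1
    obtain ⟨y, hyA, hzy⟩ := exists_lt_of_lt_csSup ⟨y0, hA0⟩ hz1
    exact hyA.2 z ⟨hz, hzy⟩
  have hC1 : C y1 := by
    refine conv_right hy ?_
    rw [Filter.frequently_iff]
    intro U hU
    obtain ⟨δ, hδ, hUδ⟩ := mem_nhdsGE_iff_exists_Ico_subset.1 hU
    have hδ' : y1 < δ := hδ
    have h1 : δ ∉ A := fun h => absurd (le_csSup hbA h) (not_le.2 hδ')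
    have h2 : ¬ ∀ z ∈ Ico y0 δ, V z := fun h => h1 ⟨hy01.trans hδ'.le, h⟩
    push Not at h2
    obtain ⟨z, hz, hzV⟩ := h2
    have h3 : y1 ≤ z := by
      by_contra hc
      exact hzV (hVA z hz.1 (not_le.1 hc))
    exact ⟨z, hUδ ⟨h3, hz.2⟩, hor z hzV⟩
  rcases eq_or_lt_of_le hy01 with he | hlt
  swap
  · -- the concave levels end at `y1 > y0`
    have hLc : ConcaveOn ℝ Set.univ fun x => LD f x y1 := by
      refine conc_left hy ?_
      refine Eventually.frequently ?_
      filter_upwards [Ioo_mem_nhdsLT hlt] with z hz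
      exact hVA z hz.1.le hz.2
    obtain ⟨p, d, hp, h1, h2⟩ := sep hy hL hC1 hLc
    refine Pt.neg (Pt.glue (L := L) rx ry rL r1 r2 x0 (-y0) (-y1) (neg_le_neg hlt.le) ?_ (-p) (-d)
      (by rwa [abs_neg]) ?_ ?_)
    · intro y y' ha hb hc
      have h3 := inc_conc hy (neg_le_neg hb) fun z hz => hVA z (by have := hz.1; linarith)
        (by have := hz.2; linarith)
      refine h3.neg.congr fun x _ => ?_
      simp
    · intro x y hyy
      have := h2 x (-y) (by linarith)
      rw [neg_neg]
      nlinarith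
    · intro x y hyy
      have := h1 x (-y) (by linarith)
      rw [neg_neg]
      nlinarith
  · -- the level `y0` is convex
    rw [← he] at hC1
    set A' : Set ℝ := {y | y ≤ y0 ∧ ∀ z ∈ Ioo y y0, C z} with hA'
    have hA0' : y0 ∈ A' := ⟨le_rfl, fun z hz => absurd hz.2 (not_lt.2 hz.1.le)⟩
    by_cases hbA' : BddBelow A'
    swap
    · have hall : ∀ z, z < y0 → C z := by
        intro z hz
        obtain ⟨y, hyA, hzy⟩ := not_bddBelow_iff.1 hbA' z
        exact hyA.2 z ⟨hzy, hz⟩
      refine Pt.low (L := L) hx hy hL q1 q2 x0 y0 fun y y' h h' => ?_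
      exact inc_conv hy h fun z hz => hall z (lt_of_lt_of_le hz.2 h')
    set y2 := sInf A' with hy2
    have hy20 : y2 ≤ y0 := csInf_le hbA' hA0'
    have hCA : ∀ z, y2 < z → z < y0 → C z := by
      intro z hz hz1
      obtain ⟨y, hyA, hzy⟩ := exists_lt_of_csInf_lt ⟨y0, hA0'⟩ hz
      exact hyA.2 z ⟨hzy, hz1⟩
    have hC2 : C y2 := by
      rcases eq_or_lt_of_le hy20 with h | h
      · rw [h]
        exact hC1
      · refine conv_right hy ?_
        have h3 : ∀ᶠ z in 𝓝[>] y2, C z := by
          filter_upwards [Ioo_mem_nhdsGT h] with z hz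
          exact hCA z hz.1 hz.2
        exact h3.frequently.filter_mono (nhdsWithin_mono _ Ioi_subset_Ici_self)
    have hL2 : ConcaveOn ℝ Set.univ fun x => LD f x y2 := by
      refine conc_left hy ?_
      rw [Filter.frequently_iff]
      intro U hU
      obtain ⟨δ, hδ, hUδ⟩ := mem_nhdsLT_iff_exists_Ioo_subset.1 hU
      have hδ' : δ < y2 := hδ
      have h1 : δ ∉ A' := fun h => absurd (csInf_le hbA' h) (not_le.2 hδ')
      have h2 : ¬ ∀ z ∈ Ioo δ y0, C z := fun h => h1 ⟨hδ'.le.trans hy20, h⟩
      push Not at h2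
      obtain ⟨z, hz, hzC⟩ := h2
      have h3 : z < y2 := by
        by_contra hc
        rcases eq_or_lt_of_le (not_lt.1 hc) with h | h
        · rw [← h] at hzC
          exact hzC hC2
        · exact hzC (hCA z h hz.2)
      exact ⟨z, hUδ ⟨hz.1, h3⟩, hor' z hzC⟩
    obtain ⟨p, d, hp, h1, h2⟩ := sep hy hL hC2 hL2
    refine Pt.glue (L := L) hx hy hL q1 q2 x0 y0 y2 hy20 ?_ p d hp h1 h2
    intro y y' ha hb hc
    refine inc_conv hy hb fun z hz => ?_
    rcases eq_or_lt_of_le (ha.trans hz.1) with h | h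
    · rw [← h]
      exact hC2
    · exact hCA z h (lt_of_lt_of_le hz.2 hc)

end Pool.Agent.V5helper21.Mor
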